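import Pool.Agent.Helper39.HD.Forest

/-!
# Linear forest decompositions of abelian Cayley multigraphs: definitions

`HasFD T a`: the Cayley multigraph of the family `a : L → T` decomposes into `|L| + 1` (oriented)
linear forests.  `GS K a`: the stronger statement for bundles of `K`-torsors.
-/

namespace Pool.Agent.Helper43.LA

open Equiv Pool.Agent.Helper39.HD

/-- the Cayley multigraph of the family `a : L → T` has forest data -/
def HasFD (T : Type) [AddCommGroup T] {L : Type} (a : L → T) : Prop :=
  ∃ C : Type, Countable C ∧ Nonempty (ForestData T L C (fun l => Equiv.addRight (a l)))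

/-- A `2m`-regular multigraph on a finite set of `K`-torsors: `V` is the union of the torsors
(the points), `H` the set of half-edges at the points, `ι` the other half of an edge. -/
structure Bundle (K : Type) [AddCommGroup K] (m : ℕ) where
  H : Type
  V : Type
  [finH : Finite H]
  [actH : AddAction K H]
  [actV : AddAction K V]
  v : H → V
  ι : H → H
  v_vadd : ∀ (k : K) (h : H), v (k +ᵥ h) = k +ᵥ v h
  ι_vadd : ∀ (k : K) (h : H), ι (k +ᵥ h) = k +ᵥ ι h
  ι_ι : ∀ h, ι (ι h) = h
  ι_ne : ∀ (k : K) (h : H), ι h ≠ k +ᵥ h
  free : ∀ (k : K) (x : V), k +ᵥ x = x → k = 0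
  card : ∀ x : V, Nat.card {h : H // v h = x} = 2 * m

attribute [instance] Bundle.finH Bundle.actH Bundle.actV

/-- the half-edge reached from `h` by the signed label `p` -/
def st {K L H : Type} [AddCommGroup K] [AddAction K H] (a : L → K) (p : L × Bool) (h : H) : H :=
  (if p.2 then a p.1 else -a p.1) +ᵥ h

/-- Every edge `{x, a l + x}` of the Cayley multigraph of `a` on the points is put on one class of
half-edges: `lab h = some (l, true)` if the edge with tail `v h` and label `l` uses `h`, and
`some (l, false)` if the edge with head `v h` and label `l` uses `h`. -/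
structure Sol {K : Type} [AddCommGroup K] {m : ℕ} (B : Bundle K m) {L : Type} (a : L → K) where
  lab : B.H → Option (L × Bool)
  inv : ∀ h l β, lab h = some (l, β) → lab (st a (l, β) h) = some (l, !β)
  dart : ∀ (x : B.V) (p : L × Bool), ∃! h, B.v h = x ∧ lab h = some p
  acyc : WellFounded (fun y x : B.H => ∃ p, lab (B.ι x) = some p ∧ y = st a p (B.ι x))

/-- the bundle statement for the family `a` of elements of `K` -/
def GS (K : Type) [AddCommGroup K] {L : Type} (a : L → K) : Prop :=
  ∀ B : Bundle K (Nat.card L + 1), Nonempty (Sol B a)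

/-- partial solutions which are invariant under the subgroup `K'` -/
def StepSol {K : Type} [AddCommGroup K] (K' : AddSubgroup K) {m : ℕ} (B : Bundle K m) {L : Type}
    (a : L → K) : Prop :=
  ∃ S : Sol B a, ∀ k ∈ K', ∀ h, S.lab (k +ᵥ h) = S.lab h

end Pool.Agent.Helper43.LA
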