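import Pool.Agent.Helper43.LA.Util

/-!
# Ladders and layers
-/

namespace Pool.Agent.Helper43.LA

open Equiv Pool.Agent.Helper39.HD

/-- `Ladder S K₀ K`: the subgroup `K` can be reached from the subgroup `K₀` by adding few elements
of `S` at a time. -/
inductive Ladder {Γ : Type} [AddCommGroup Γ] (S : Set Γ) (K₀ : AddSubgroup Γ) :
    AddSubgroup Γ → Prop
  /-- start: all elements have order three modulo `K₀` and no two elements of `S` agree, or are
  opposite, modulo `K₀` -/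
  | start (K : AddSubgroup Γ) (hle : K₀ ≤ K) (h3 : ∀ x ∈ K, 3 • x ∈ K₀)
      (hne : ∀ s ∈ S, ∀ t ∈ S, s ∈ K → t ∈ K → s ≠ t → s ∉ K₀ → s - t ∉ K₀ ∧ s + t ∉ K₀) :
      Ladder S K₀ K
  /-- at most `b + 1` new elements of `S` -/
  | step (K' K : AddSubgroup Γ) (h : Ladder S K₀ K') (hle : K' ≤ K)
      (hc : {s ∈ S | s ∈ K ∧ s ∉ K'}.ncard ≤ {s ∈ S | s ∈ K' ∧ s ∉ K₀}.ncard + 1) :
      Ladder S K₀ K
  /-- at most `2 (b + 1)` new elements of `S` if the index is three -/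
  | three (K' K : AddSubgroup Γ) (h : Ladder S K₀ K') (hle : K' ≤ K) (hi : K'.relIndex K = 3)
      (hc : {s ∈ S | s ∈ K ∧ s ∉ K'}.ncard ≤ 2 * ({s ∈ S | s ∈ K' ∧ s ∉ K₀}.ncard + 1)) :
      Ladder S K₀ K

/-- `Layered S K`: there is a chain of subgroups from `⊥` to `K` of which each layer is of one of
the following kinds. -/
inductive Layered {Γ : Type} [AddCommGroup Γ] (S : Set Γ) : AddSubgroup Γ → Prop
  | bot : Layered S ⊥
  /-- a ladder -/
  | ladder (K' K : AddSubgroup Γ) (h : Layered S K') (hl : Ladder S K' K) : Layered S K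
  /-- at most `([K : K'] + 1) / 2` elements of `S`, each of which generates `K` modulo `K'` -/
  | gen (K' K : AddSubgroup Γ) (h : Layered S K') (hle : K' ≤ K)
      (hg : ∀ s ∈ S, s ∈ K → s ∉ K' → K' ⊔ AddSubgroup.zmultiples s = K)
      (hc : 2 * {s ∈ S | s ∈ K ∧ s ∉ K'}.ncard ≤ K'.relIndex K + 1) : Layered S K
  /-- elements of `S` of order at least `16 (l - 1)` modulo `K'`, where `l` is their number -/
  | long (K' K : AddSubgroup Γ) (h : Layered S K') (hle : K' ≤ K)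
      (hl : ∀ s ∈ S, s ∈ K → s ∉ K' → ∀ j : ℕ, 0 < j →
        j < 16 * ({s ∈ S | s ∈ K ∧ s ∉ K'}.ncard - 1) → j • s ∉ K') : Layered S K
  /-- the elements of `S` in `K` and not in `K'` are distinct and not opposite modulo `K'` and
  there are at most two of them, or the Cayley graph of the quotient `K / K'` is decomposable into
  `l + 1` linear forests, where `l` is their number -/
  | arb (K' K : AddSubgroup Γ) (h : Layered S K') (hle : K' ≤ K)
      (hne : ∀ s ∈ S, ∀ t ∈ S, s ∈ K → t ∈ K → s ≠ t → s ∉ K' → s - t ∉ K' ∧ s + t ∉ K')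
      (h2 : ∀ s ∈ S, s ∈ K → s ∉ K' → s + s ∉ K')
      (hA : {s ∈ S | s ∈ K ∧ s ∉ K'}.ncard ≤ 2 ∨
        LinearForestDecomposable (SimpleGraph.circulantGraph
          {q : K ⧸ K'.addSubgroupOf K | ∃ s : K, (s : Γ) ∈ S ∧ (s : Γ) ∉ K' ∧ q = s})
          ({s ∈ S | s ∈ K ∧ s ∉ K'}.ncard + 1)) : Layered S K

variable {Γ : Type} [AddCommGroup Γ]

/-- the elements of `S` in `K`, as a family in `K` -/
def fam (S : Set Γ) (K : AddSubgroup Γ) : {s : Γ // s ∈ S ∧ s ∈ K} → K := fun s => ⟨s, s.2.2⟩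

/-- the elements of `S` not in `K'`, as a family in the quotient -/
def qf (S : Set Γ) (K' : AddSubgroup Γ) : {s : Γ // s ∈ S ∧ s ∉ K'} → Γ ⧸ K' :=
  fun s => QuotientAddGroup.mk (s : Γ)

theorem mk_mem_map {K' K : AddSubgroup Γ} (hle : K' ≤ K) (x : Γ) :
    (QuotientAddGroup.mk x : Γ ⧸ K') ∈ K.map (QuotientAddGroup.mk' K') ↔ x ∈ K := by
  rw [AddSubgroup.mem_map]
  constructor
  · rintro ⟨y, hy, hxy⟩
    have h1 : (QuotientAddGroup.mk y : Γ ⧸ K') = QuotientAddGroup.mk x := hxy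
    rw [QuotientAddGroup.eq] at h1
    have := K.add_mem hy (hle h1)
    simpa using this
  · intro hx
    exact ⟨x, hx, rfl⟩

/-- one layer -/
theorem layer_of_quotient {S : Set Γ} {K' K : AddSubgroup Γ} (hle : K' ≤ K)
    (h1 : HasFD K' (fam S K'))
    (h2 : HasFD (K ⧸ K'.addSubgroupOf K) (fun s : {s : Γ // s ∈ S ∧ s ∈ K ∧ s ∉ K'} =>
      (QuotientAddGroup.mk (⟨s, s.2.2.1⟩ : K) : K ⧸ K'.addSubgroupOf K))) :
    HasFD K (fam S K) := by
  classical
  let K2 : AddSubgroup K := K'.addSubgroupOf K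
  let a1 : {s : Γ // s ∈ S ∧ s ∈ K'} → K2 :=
    fun s => ⟨⟨s, hle s.2.2⟩, AddSubgroup.mem_addSubgroupOf.2 s.2.2⟩
  let a2 : {s : Γ // s ∈ S ∧ s ∈ K ∧ s ∉ K'} → K := fun s => ⟨s, s.2.2.1⟩
  have h1' : HasFD K2 a1 := by
    refine h1.comap (AddSubgroup.addSubgroupOfEquivOfLe hle) (Equiv.refl _) ?_
    intro l y
    rw [map_add]
    rfl
  have key := merge K2 a1 a2 h1' h2
  let e : {s : Γ // s ∈ S ∧ s ∈ K} ≃
      {s : Γ // s ∈ S ∧ s ∈ K'} ⊕ {s : Γ // s ∈ S ∧ s ∈ K ∧ s ∉ K'} :=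
    { toFun := fun s => if hs : (s : Γ) ∈ K' then Sum.inl ⟨s, s.2.1, hs⟩
        else Sum.inr ⟨s, s.2.1, s.2.2, hs⟩
      invFun := Sum.elim (fun s => ⟨s, s.2.1, hle s.2.2⟩) (fun s => ⟨s, s.2.1, s.2.2.1⟩)
      left_inv := by
        rintro ⟨s, hs1, hs2⟩
        by_cases hs : s ∈ K'
        · simp [hs]
        · simp [hs]
      right_inv := by
        rintro (⟨s, hs1, hs2⟩ | ⟨s, hs1, hs2, hs3⟩)
        · simp [hs2]
        · simp [hs3] }
  refine key.comap id e ?_
  rintro ⟨s, hs1, hs2⟩ y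
  by_cases hs : s ∈ K'
  · simp only [e, Equiv.coe_fn_mk, hs, dite_true, Sum.elim_inl, id]
    rfl
  · simp only [e, Equiv.coe_fn_mk, hs, dite_false, Sum.elim_inr, id]
    rfl

theorem ladder_gs {S : Set Γ} (hS : S.Finite) (hneg : ∀ s ∈ S, -s ∉ S) {K₀ K : AddSubgroup Γ}
    (h : Ladder S K₀ K) (hK : Finite K) :
    K₀ ≤ K ∧ GSub (qf S K₀) (K.map (QuotientAddGroup.mk' K₀)) := by
  have : Finite {s : Γ // s ∈ S ∧ s ∉ K₀} := (hS.subset (fun s hs => hs.1) : {s | s ∈ S ∧ s ∉ K₀}.Finite)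
  -- cardinalities
  have hcard1 : ∀ {K' K : AddSubgroup Γ}, K₀ ≤ K' → K' ≤ K →
      Nat.card {l : {s : Γ // s ∈ S ∧ s ∉ K₀} // qf S K₀ l ∈ K.map (QuotientAddGroup.mk' K₀) ∧
        qf S K₀ l ∉ K'.map (QuotientAddGroup.mk' K₀)} = {s ∈ S | s ∈ K ∧ s ∉ K'}.ncard := by
    intro K' K h0 hle
    rw [← Nat.card_coe_set_eq]
    refine Nat.card_congr ?_
    exact
      { toFun := fun l => ⟨l.1.1, l.1.2.1, (mk_mem_map (h0.trans hle) _).1 l.2.1,
          fun hh => l.2.2 ((mk_mem_map h0 _).2 hh)⟩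
        invFun := fun s => ⟨⟨s.1, s.2.1, fun hh => s.2.2.2 (h0 hh)⟩,
          (mk_mem_map (h0.trans hle) _).2 s.2.2.1, fun hh => s.2.2.2 ((mk_mem_map h0 _).1 hh)⟩
        left_inv := fun l => rfl
        right_inv := fun s => rfl }
  have hcard2 : ∀ {K' : AddSubgroup Γ}, K₀ ≤ K' →
      Nat.card {l : {s : Γ // s ∈ S ∧ s ∉ K₀} // qf S K₀ l ∈ K'.map (QuotientAddGroup.mk' K₀)} =
        {s ∈ S | s ∈ K' ∧ s ∉ K₀}.ncard := by
    intro K' h0
    rw [← Nat.card_coe_set_eq]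
    refine Nat.card_congr ?_
    exact
      { toFun := fun l => ⟨l.1.1, l.1.2.1, (mk_mem_map h0 _).1 l.2, l.1.2.2⟩
        invFun := fun s => ⟨⟨s.1, s.2.1, s.2.2.2⟩, (mk_mem_map h0 _).2 s.2.2.1⟩
        left_inv := fun l => rfl
        right_inv := fun s => rfl }
  induction h with
  | start K hle h3 hne =>
    refine ⟨hle, ?_⟩
    have hfin : Finite (K.map (QuotientAddGroup.mk' K₀)) := by
      have : Finite ((QuotientAddGroup.mk' K₀) '' (K : Set Γ)) := Set.Finite.image _ hK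
      exact this
    apply gs_three
    · rintro ⟨x, hx⟩
      obtain ⟨y, hy, rfl⟩ := AddSubgroup.mem_map.1 hx
      apply Subtype.ext
      simp only [AddSubgroup.coe_nsmul, ← map_nsmul, ZeroMemClass.coe_zero]
      exact (QuotientAddGroup.eq_zero_iff _).2 (h3 y hy)
    · rintro ⟨⟨s, hs1, hs2⟩, hs3⟩ ⟨⟨t, ht1, ht2⟩, ht3⟩ hst
      have hst : (QuotientAddGroup.mk s : Γ ⧸ K₀) = QuotientAddGroup.mk t :=
        congrArg Subtype.val hst
      by_contra hne'
      have hst' : s ≠ t := fun h => hne' (by subst h; rfl)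
      refine (hne s hs1 t ht1 ((mk_mem_map hle _).1 hs3) ((mk_mem_map hle _).1 ht3) hst' hs2).1 ?_
      have := QuotientAddGroup.eq.1 hst.symm
      have e : s - t = -t + s := by abel
      rw [e]
      exact this
    · rintro ⟨⟨s, hs1, hs2⟩, hs3⟩ ⟨⟨t, ht1, ht2⟩, ht3⟩ hst
      have hst : (QuotientAddGroup.mk s : Γ ⧸ K₀) = - QuotientAddGroup.mk t :=
        congrArg Subtype.val hst
      have hsum : s + t ∈ K₀ := by
        rw [← QuotientAddGroup.eq_zero_iff, QuotientAddGroup.mk_add, hst]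
        simp
      by_cases hst' : s = t
      · subst hst'
        have h3s := h3 s ((mk_mem_map hle _).1 hs3)
        have : s = 3 • s - (s + s) := by abel
        exact hs2 (this ▸ K₀.sub_mem h3s hsum)
      · exact (hne s hs1 t ht1 ((mk_mem_map hle _).1 hs3) ((mk_mem_map hle _).1 ht3) hst' hs2).2
          hsum
  | step K' K h hle hc ih =>
    have : Finite K' := Finite.of_injective _ (AddSubgroup.inclusion_injective hle)
    obtain ⟨h0, ih⟩ := ih this
    have hfin : Finite (K.map (QuotientAddGroup.mk' K₀)) := by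
      have : Finite ((QuotientAddGroup.mk' K₀) '' (K : Set Γ)) := Set.Finite.image _ hK
      exact this
    refine ⟨h0.trans hle, ?_⟩
    refine gsub_step _ (AddSubgroup.map_mono hle) ih (Or.inl ?_)
    rw [hcard1 h0 hle, hcard2 h0]
    exact hc
  | three K' K h hle hi hc ih =>
    have : Finite K' := Finite.of_injective _ (AddSubgroup.inclusion_injective hle)
    obtain ⟨h0, ih⟩ := ih this
    have hfin : Finite (K.map (QuotientAddGroup.mk' K₀)) := by
      have : Finite ((QuotientAddGroup.mk' K₀) '' (K : Set Γ)) := Set.Finite.image _ hK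
      exact this
    refine ⟨h0.trans hle, ?_⟩
    refine gsub_step _ (AddSubgroup.map_mono hle) ih (Or.inr ⟨?_, ?_⟩)
    · rw [AddSubgroup.relIndex_map_map, QuotientAddGroup.ker_mk', sup_of_le_left h0,
        sup_of_le_left (h0.trans hle)]
      exact hi
    · rw [hcard1 h0 hle, hcard2 h0]
      exact hc

theorem hasFD_of_isEmpty {T L : Type} [AddCommGroup T] [IsEmpty L] (a : L → T) : HasFD T a := by
  obtain ⟨D⟩ := forestData_empty Unit (fun _ => Equiv.addRight 0)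
  have h : HasFD Unit (fun _ : Empty => (0 : Unit)) := ⟨Unit, inferInstance, ⟨D⟩⟩
  exact h.comap (fun _ => ()) (Equiv.equivOfIsEmpty _ _) (fun l => isEmptyElim l)

theorem layered_hasFD {S : Set Γ} (hS : S.Finite) (hneg : ∀ s ∈ S, -s ∉ S) {K : AddSubgroup Γ}
    (h : Layered S K) (hK : Finite K) : HasFD K (fam S K) := by
  classical
  have h0S : (0 : Γ) ∉ S := fun h => hneg 0 h (by rwa [neg_zero])
  have hlab : ∀ K' K : AddSubgroup Γ, Finite {s : Γ // s ∈ S ∧ s ∈ K ∧ s ∉ K'} := fun K' K =>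
    (hS.subset (fun s hs => hs.1) : {s | s ∈ S ∧ s ∈ K ∧ s ∉ K'}.Finite)
  have hnz : ∀ {K' K : AddSubgroup Γ} (s : {s : Γ // s ∈ S ∧ s ∈ K ∧ s ∉ K'}),
      (QuotientAddGroup.mk (⟨s, s.2.2.1⟩ : K) : K ⧸ K'.addSubgroupOf K) ≠ 0 := by
    intro K' K s hs
    rw [QuotientAddGroup.eq_zero_iff, AddSubgroup.mem_addSubgroupOf] at hs
    exact s.2.2.2 hs
  induction h with
  | bot =>
    have : IsEmpty {s : Γ // s ∈ S ∧ s ∈ (⊥ : AddSubgroup Γ)} :=
      ⟨fun s => h0S ((AddSubgroup.mem_bot.1 s.2.2) ▸ s.2.1)⟩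
    exact hasFD_of_isEmpty _
  | ladder K' K h hl ih =>
    obtain ⟨hle, hgs⟩ := ladder_gs hS hneg hl hK
    have : Finite K' := Finite.of_injective _ (AddSubgroup.inclusion_injective hle)
    refine layer_of_quotient hle (ih this) ?_
    have hfin : Finite (K.map (QuotientAddGroup.mk' K')) := by
      have : Finite ((QuotientAddGroup.mk' K') '' (K : Set Γ)) := Set.Finite.image _ hK
      exact this
    have hfinL : Finite {s : Γ // s ∈ S ∧ s ∉ K'} :=
      (hS.subset (fun s hs => hs.1) : {s | s ∈ S ∧ s ∉ K'}.Finite)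
    have h1 := hasFD_of_GS _ hgs
    let hom : K →+ K.map (QuotientAddGroup.mk' K') := (QuotientAddGroup.mk' K').addSubgroupMap K
    have hhom : ∀ x ∈ K'.addSubgroupOf K, hom x = 0 := by
      intro x hx
      apply Subtype.ext
      exact (QuotientAddGroup.eq_zero_iff _).2 (AddSubgroup.mem_addSubgroupOf.1 hx)
    let π : K ⧸ K'.addSubgroupOf K →+ K.map (QuotientAddGroup.mk' K') :=
      QuotientAddGroup.lift _ hom hhom
    let e : {s : Γ // s ∈ S ∧ s ∈ K ∧ s ∉ K'} ≃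
        {l : {s : Γ // s ∈ S ∧ s ∉ K'} // qf S K' l ∈ K.map (QuotientAddGroup.mk' K')} :=
      { toFun := fun s => ⟨⟨s, s.2.1, s.2.2.2⟩, (mk_mem_map hle _).2 s.2.2.1⟩
        invFun := fun l => ⟨l.1.1, l.1.2.1, (mk_mem_map hle _).1 l.2, l.1.2.2⟩
        left_inv := fun s => rfl
        right_inv := fun l => rfl }
    refine h1.comap π e ?_
    intro l y
    rw [map_add]
    rfl
  | gen K' K h hle hg hc ih =>
    have : Finite K' := Finite.of_injective _ (AddSubgroup.inclusion_injective hle)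
    refine layer_of_quotient hle (ih this) ?_
    have := hlab K' K
    refine base_gen _ hnz ?_ ?_
    · rintro ⟨s, hs1, hs2, hs3⟩
      rw [eq_top_iff]
      rintro x -
      obtain ⟨⟨x, hx⟩, rfl⟩ := QuotientAddGroup.mk_surjective x
      have hx' := hx
      rw [← hg s hs1 hs2 hs3, AddSubgroup.mem_sup] at hx'
      obtain ⟨y, hy, z, hz, hyz⟩ := hx'
      obtain ⟨n, rfl⟩ := AddSubgroup.mem_zmultiples_iff.1 hz
      refine AddSubgroup.mem_zmultiples_iff.2 ⟨n, ?_⟩
      rw [← QuotientAddGroup.mk_zsmul, QuotientAddGroup.eq, AddSubgroup.mem_addSubgroupOf]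
      have : ((-(n • (⟨s, hs2⟩ : K)) + ⟨x, hx⟩ : K) : Γ) = y := by
        push_cast
        rw [← hyz]
        abel
      rw [this]
      exact hy
    · have e1 : Nat.card (K ⧸ K'.addSubgroupOf K) = K'.relIndex K := rfl
      have e2 : Nat.card {s : Γ // s ∈ S ∧ s ∈ K ∧ s ∉ K'} = {s ∈ S | s ∈ K ∧ s ∉ K'}.ncard :=
        Nat.card_coe_set_eq _
      rw [e1, e2]
      exact hc
  | long K' K h hle hl ih =>
    have : Finite K' := Finite.of_injective _ (AddSubgroup.inclusion_injective hle)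
    refine layer_of_quotient hle (ih this) ?_
    have := hlab K' K
    refine base_long _ hnz ?_
    rintro ⟨s, hs1, hs2, hs3⟩
    have e2 : Nat.card {s : Γ // s ∈ S ∧ s ∈ K ∧ s ∉ K'} = {s ∈ S | s ∈ K ∧ s ∉ K'}.ncard :=
      Nat.card_coe_set_eq _
    rw [e2]
    by_contra hlt
    push_neg at hlt
    refine hl s hs1 hs2 hs3 _ (addOrderOf_pos _) hlt ?_
    have h1 := addOrderOf_nsmul_eq_zero (QuotientAddGroup.mk (⟨s, hs2⟩ : K) :
      K ⧸ K'.addSubgroupOf K)
    rw [← QuotientAddGroup.mk_nsmul, QuotientAddGroup.eq_zero_iff,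
      AddSubgroup.mem_addSubgroupOf] at h1
    simpa using h1
  | arb K' K h hle hne h2 hA ih =>
    have : Finite K' := Finite.of_injective _ (AddSubgroup.inclusion_injective hle)
    refine layer_of_quotient hle (ih this) ?_
    have := hlab K' K
    set P' : Set (K ⧸ K'.addSubgroupOf K) :=
      {q | ∃ s : K, (s : Γ) ∈ S ∧ (s : Γ) ∉ K' ∧ q = s} with hP'
    let f : {s : Γ // s ∈ S ∧ s ∈ K ∧ s ∉ K'} → P' := fun s =>
      ⟨QuotientAddGroup.mk (⟨s, s.2.2.1⟩ : K), ⟨s, s.2.2.1⟩, s.2.1, s.2.2.2, rfl⟩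
    have hf : Function.Bijective f := by
      constructor
      · rintro ⟨s, hs1, hs2, hs3⟩ ⟨t, ht1, ht2, ht3⟩ hst
        have hst := congrArg Subtype.val hst
        rw [QuotientAddGroup.eq, AddSubgroup.mem_addSubgroupOf] at hst
        by_contra hne'
        have hst' : s ≠ t := fun h => hne' (by subst h; rfl)
        refine (hne s hs1 t ht1 hs2 ht2 hst' hs3).1 ?_
        have e : s - t = - (-s + t) := by abel
        rw [e]
        exact K'.neg_mem hst
      · rintro ⟨q, ⟨s, hs2⟩, hs1, hs3, rfl⟩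
        exact ⟨⟨s, hs1, hs2, hs3⟩, rfl⟩
    have hcard : P'.ncard = {s ∈ S | s ∈ K ∧ s ∉ K'}.ncard := by
      rw [← Nat.card_coe_set_eq, ← Nat.card_coe_set_eq]
      exact (Nat.card_congr (Equiv.ofBijective f hf)).symm
    have h0' : (0 : K ⧸ K'.addSubgroupOf K) ∉ P' := by
      rintro ⟨s, hs1, hs2, hs3⟩
      exact hs2 (AddSubgroup.mem_addSubgroupOf.1 ((QuotientAddGroup.eq_zero_iff _).1 hs3.symm))
    have hneg' : ∀ s ∈ P', -s ∉ P' := by
      rintro _ ⟨s, hs1, hs2, rfl⟩ ⟨t, ht1, ht2, hst⟩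
      have h1 : (s : Γ) + t ∈ K' := by
        rw [← QuotientAddGroup.mk_neg, QuotientAddGroup.eq, neg_neg,
          AddSubgroup.mem_addSubgroupOf] at hst
        simpa using hst
      by_cases hst' : (s : Γ) = t
      · rw [← hst'] at h1
        exact h2 s hs1 s.2 hs2 h1
      · exact (hne s hs1 t ht1 s.2 t.2 hst' hs2).2 h1
    have hD : Nonempty (ForestData (K ⧸ K'.addSubgroupOf K) P' (Fin (P'.ncard + 1))
        (fun s => Equiv.addRight (s : K ⧸ K'.addSubgroupOf K))) := by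
      rcases hA with hA | hA
      · exact forestData_of_ncard_le_two P' h0' hneg' (by rw [hcard]; exact hA)
      · exact forestData_of_linearForests P' h0' hneg' (by rw [hcard]; exact hA)
    have hFD : HasFD (K ⧸ K'.addSubgroupOf K) (fun s : P' => (s : K ⧸ K'.addSubgroupOf K)) :=
      ⟨_, inferInstance, hD⟩
    exact hFD.comap id (Equiv.ofBijective f hf) (fun l y => rfl)

end Pool.Agent.Helper43.LA
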