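import Pool.Agent.Helper43.LA.Layer
import Pool.Agent.Helper39.HD.Final

/-!
# Hamilton decompositions from layered sets of torsion elements
-/

namespace Pool.Agent.Helper43.LA

open Equiv Pool.Agent.Helper39.HD

section

variable {Γ : Type} [AddCommGroup Γ]

theorem blockData_subgroup {b a : Γ} {P : Set Γ} (K : AddSubgroup Γ) [Finite K]
    (hPK : P ⊆ K) (h : HasFD K (fam P K))
    (hab : ∀ i j : ℤ, i • a = j • b → i = 0) (hb0 : ∀ j : ℤ, j • b = 0 → j = 0) :
    Nonempty (BlockData b a P) := by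
  classical
  have htor : ∀ x ∈ K, IsOfFinAddOrder x := by
    intro x hx
    obtain ⟨n, hn, h⟩ := isOfFinAddOrder_iff_nsmul_eq_zero.1
      (isOfFinAddOrder_of_finite (⟨x, hx⟩ : K))
    exact isOfFinAddOrder_iff_nsmul_eq_zero.2 ⟨n, hn, by simpa using congrArg Subtype.val h⟩
  obtain ⟨C, hC, ⟨D⟩⟩ := h
  let N : AddSubgroup Γ := AddSubgroup.zmultiples a ⊔ AddSubgroup.zmultiples b
  have hN : ∀ x, x ∈ N ↔ ∃ i j : ℤ, x = i • a + j • b := by
    intro x
    rw [AddSubgroup.mem_sup]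
    constructor
    · rintro ⟨y, hy, z, hz, rfl⟩
      obtain ⟨i, rfl⟩ := AddSubgroup.mem_zmultiples_iff.1 hy
      obtain ⟨j, rfl⟩ := AddSubgroup.mem_zmultiples_iff.1 hz
      exact ⟨i, j, rfl⟩
    · rintro ⟨i, j, rfl⟩
      exact ⟨_, AddSubgroup.mem_zmultiples_iff.2 ⟨i, rfl⟩, _,
        AddSubgroup.mem_zmultiples_iff.2 ⟨j, rfl⟩, rfl⟩
  have hdisj : ∀ x ∈ N, x ∈ K → x = 0 := by
    intro x hx hxT
    obtain ⟨i, j, rfl⟩ := (hN x).1 hx
    obtain ⟨n, hn, hnx⟩ := isOfFinAddOrder_iff_zsmul_eq_zero.1 (htor _ hxT)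
    have h1 : (n * i) • a = (-(n * j)) • b := by
      rw [zsmul_add, smul_smul, smul_smul] at hnx
      rw [neg_smul]
      exact eq_neg_of_add_eq_zero_left hnx
    have h2 := hab _ _ h1
    have h3 : i = 0 := (mul_eq_zero.1 h2).resolve_left hn
    have h4 : (n * j) • b = 0 := by
      rw [h2, zero_smul] at h1
      have := h1.symm
      rwa [neg_smul, neg_eq_zero] at this
    have h5 := hb0 _ h4
    have h6 : j = 0 := (mul_eq_zero.1 h5).resolve_left hn
    rw [h3, h6]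
    simp
  obtain ⟨π, hπ1, hπ2⟩ := exists_proj N K hdisj
  let e : P ≃ {s : Γ // s ∈ P ∧ s ∈ K} :=
    { toFun := fun s => ⟨s, s.2, hPK s.2⟩
      invFun := fun s => ⟨s.1, s.2.1⟩
      left_inv := fun s => rfl
      right_inv := fun s => rfl }
  refine blockData_of_pullback D π e ?_ ?_ ?_
  · intro s x
    exact hπ2 x ⟨s, hPK s.2⟩
  · intro x
    exact hπ1 x a ((hN a).2 ⟨1, 0, by simp⟩)
  · intro x
    exact hπ1 x b ((hN b).2 ⟨0, 1, by simp⟩)

theorem main_theorem_L [Countable Γ] (S : Set Γ) (hfin : S.Finite)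
    (hS : ∀ s ∈ S, -s ∉ S) (hgen : AddSubgroup.closure S = ⊤)
    (hrank : ∃ x y : Γ, ∀ i j : ℤ, i • x = j • y → i = 0 ∧ j = 0)
    (m : ℕ) (hm : m ≤ 1 ∨ ∃ b ∈ Sinf S, m + 2 * {s ∈ Sinf S | Par s b}.ncard ≤ (Sinf S).ncard + 1)
    (P : Fin m → Set Γ) (hP : ⋃ i, P i = Sfin S) (hdisj : ∀ i j, i ≠ j → Disjoint (P i) (P j))
    (hLA : ∀ i, ∃ K : AddSubgroup Γ, Finite K ∧ P i ⊆ K ∧ Layered (P i) K) :
    HasHamiltonDecomposition (SimpleGraph.circulantGraph S) := by
  classical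
  have h00 : (0 : Γ) ∉ S := fun h => hS 0 h (by rwa [neg_zero])
  have hIfin : (Sinf S).Finite := hfin.subset (Set.sep_subset _ _)
  -- choice of the class
  obtain ⟨b1, hb1, hm1⟩ : ∃ b ∈ Sinf S,
      m + 2 * {s ∈ Sinf S | Par s b}.ncard ≤ (Sinf S).ncard + 1 := by
    rcases hm with hm | hm
    · obtain ⟨b, hb, -, hcard⟩ := group_theory S hfin hS hgen hrank
      obtain ⟨e1, e2⟩ := sinf_split hfin hb
      exact ⟨b, hb, by omega⟩
    · exact hm
  obtain ⟨b, hb, hbb1, hbmult⟩ := choose_b hfin hS hb1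
  have hpar : {s ∈ Sinf S | Par s b} = {s ∈ Sinf S | Par s b1} := by
    ext s
    exact ⟨fun h => ⟨h.1, h.2.trans hbb1⟩, fun h => ⟨h.1, h.2.trans hbb1.symm⟩⟩
  obtain ⟨e1, e2⟩ := sinf_split hfin hb
  rw [hpar] at e1 e2
  set SB : Set Γ := {s ∈ Sinf S | s ≠ b ∧ Par s b} with hSB
  set SA : Set Γ := {s ∈ Sinf S | ¬ Par s b} with hSA
  have hSBfin : SB.Finite := hIfin.subset (Set.sep_subset _ _)
  have hSAfin : SA.Finite := hIfin.subset (Set.sep_subset _ _)
  have : Finite SB := hSBfin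
  have : Finite SA := hSAfin
  have hcard : SB.ncard + m ≤ SA.ncard := by omega
  obtain ⟨φ⟩ : Nonempty ((SB ⊕ Fin m) ↪ SA) := by
    have := Fintype.ofFinite SB
    have := Fintype.ofFinite SA
    apply Function.Embedding.nonempty_of_card_le
    rw [Fintype.card_sum, Fintype.card_fin, ← Nat.card_eq_fintype_card,
      ← Nat.card_eq_fintype_card, Nat.card_coe_set_eq, Nat.card_coe_set_eq]
    exact hcard
  have hPS : ∀ i, ∀ s ∈ P i, s ∈ S ∧ IsOfFinAddOrder s := by
    intro i s hs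
    have : s ∈ Sfin S := by rw [← hP]; exact Set.mem_iUnion.2 ⟨i, hs⟩
    exact this
  let Sg : SA → Set Γ := fun α => {s | (∃ h : s ∈ SB, φ (Sum.inl ⟨s, h⟩) = α) ∨
    ∃ i, φ (Sum.inr i) = α ∧ s ∈ P i}
  have hab : ∀ (α : SA) (i j : ℤ), i • (α : Γ) = j • b → i = 0 := by
    intro α i j h
    by_contra hi
    by_cases hj : j = 0
    · rw [hj, zero_smul] at h
      exact zsmul_ne_zero_of_inf α.2.1.2 hi h
    · exact α.2.2 ⟨i, j, hi, hj, h⟩
  have hb0 : ∀ j : ℤ, j • b = 0 → j = 0 := by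
    intro j hj
    by_contra h
    exact zsmul_ne_zero_of_inf hb.2 h hj
  have hblock : ∀ α : SA, Nonempty (BlockData b (α : Γ) (Sg α)) := by
    intro α
    by_cases h1 : ∃ s : SB, φ (Sum.inl s) = α
    · obtain ⟨s, rfl⟩ := h1
      have : Sg (φ (Sum.inl s)) = {(s : Γ)} := by
        ext x
        constructor
        · rintro (⟨h, h'⟩ | ⟨i, h', -⟩)
          · have := φ.injective h'
            have : (⟨x, h⟩ : SB) = s := by simpa using this
            rw [← this]
            rfl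
          · have := φ.injective h'
            simp at this
        · rintro rfl
          exact Or.inl ⟨s.2, rfl⟩
      rw [this]
      exact blockData_single s.2.2.2 (hbmult s s.2.1.1 s.2.2.1) (hab _)
    by_cases h2 : ∃ i : Fin m, φ (Sum.inr i) = α
    · obtain ⟨i, rfl⟩ := h2
      have : Sg (φ (Sum.inr i)) = P i := by
        ext x
        constructor
        · rintro (⟨h, h'⟩ | ⟨j, h', h''⟩)
          · have := φ.injective h'
            simp at this
          · have := φ.injective h'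
            have : j = i := by simpa using this
            rwa [← this]
        · intro hx
          exact Or.inr ⟨i, rfl, hx⟩
      rw [this]
      obtain ⟨K, hK, hPK, hlay⟩ := hLA i
      exact blockData_subgroup K hPK (layered_hasFD (hfin.subset fun s hs => (hPS i s hs).1)
        (fun s hs hs' => hS s (hPS i s hs).1 (hPS i _ hs').1) hlay hK) (hab _) hb0
    · have : Sg α = ∅ := by
        rw [Set.eq_empty_iff_forall_notMem]
        rintro x (⟨h, h'⟩ | ⟨i, h', -⟩)
        · exact h1 ⟨_, h'⟩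
        · exact h2 ⟨i, h'⟩
      rw [this]
      exact blockData_empty _ _
  let BD := fun α => (hblock α).some
  -- levels
  have hlev : ∀ α : SA, ∃ lev : Γ → Bool, (∀ x, lev (x + α) = !lev x) ∧
      ∀ x, ∀ g ∈ near b, lev (x + g) = lev x := by
    intro α
    obtain ⟨p, hp1, hp2⟩ := exists_cocycle (near b) (α : Γ) 2 (by
      intro n hn
      obtain ⟨N, k, hN, h⟩ := mem_near.1 hn
      rw [smul_smul] at h
      have := hab α _ _ h
      have : n = 0 := (mul_eq_zero.1 this).resolve_left hN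
      rw [this]
      exact dvd_zero _)
    refine ⟨fun x => decide (p x = 0), fun x => ?_, fun x g hg => ?_⟩
    · simp only [hp1]
      revert x
      have : ∀ z : ZMod 2, decide (z + 1 = 0) = !decide (z = 0) := by decide
      intro x
      exact this (p x)
    · simp only [hp2 x g hg]
  choose lev lev_a lev_n using hlev
  have hbn : b ∈ near b := mem_near.2 ⟨1, 1, one_ne_zero, rfl⟩
  have hSgn : ∀ (α : SA) (l : Sg α), (l : Γ) ∈ near b := by
    rintro α ⟨l, hl⟩
    rcases hl with ⟨h, -⟩ | ⟨i, -, h⟩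
    · obtain ⟨i, j, hi, -, hij⟩ := h.2.2
      exact mem_near.2 ⟨i, j, hi, hij⟩
    · obtain ⟨n, hn, hnx⟩ := isOfFinAddOrder_iff_zsmul_eq_zero.1 (hPS i l h).2
      exact mem_near.2 ⟨n, 0, hn, by rw [zero_smul]; exact hnx⟩
  let aa : SA → Γ := fun α => α
  let lab : ∀ α : SA, Sg α → Γ := fun α l => l
  have hSgS : ∀ (α : SA) (l : Sg α), (l : Γ) ∈ S := by
    rintro α ⟨l, hl⟩
    rcases hl with ⟨h, -⟩ | ⟨i, -, h⟩
    · exact h.1.1
    · exact (hPS i l h).1
  have hgS : ∀ j, gen b aa lab j ∈ S := by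
    rintro (_ | ⟨α, _ | l⟩)
    · exact hb.1
    · exact α.2.1.1
    · exact hSgS α l
  have hinj : Function.Injective (gen b aa lab) := by
    have n1 : ∀ (α : SA), (α : Γ) ≠ b := fun α h => α.2.2 (h ▸ Par.refl _)
    have n2 : ∀ (α : SA) (l : Sg α), (l : Γ) ≠ b := by
      rintro α ⟨l, hl⟩ h
      have h : l = b := h
      rcases hl with ⟨h', -⟩ | ⟨i, -, h'⟩
      · exact h'.2.1 h
      · exact hb.2 (h ▸ (hPS i l h').2)
    have n3 : ∀ (α α' : SA) (l : Sg α'), (α : Γ) ≠ l := by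
      rintro α α' ⟨l, hl⟩ h
      have h : (α : Γ) = l := h
      rcases hl with ⟨h', -⟩ | ⟨i, -, h'⟩
      · exact α.2.2 (by rw [h]; exact h'.2.2)
      · exact α.2.1.2 (by rw [h]; exact (hPS i l h').2)
    have n4 : ∀ (α α' : SA) (l : Sg α) (l' : Sg α'), (l : Γ) = l' → α = α' := by
      rintro α α' ⟨l, hl⟩ ⟨l', hl'⟩ h
      have h : l = l' := h
      subst h
      rcases hl with ⟨h1, h2⟩ | ⟨i, h2, h1⟩ <;> rcases hl' with ⟨h1', h2'⟩ | ⟨i', h2', h1'⟩
      · rw [← h2, ← h2']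
      · exact absurd (hPS i' l h1').2 h1.1.2
      · exact absurd (hPS i l h1).2 h1'.1.2
      · have : i = i' := by
          by_contra hne
          exact Set.disjoint_left.1 (hdisj i i' hne) h1 h1'
        rw [← h2, ← h2', this]
    rintro (_ | ⟨α, _ | l⟩) (_ | ⟨α', _ | l'⟩) h
    · rfl
    · exact absurd (show b = (α' : Γ) from h).symm (n1 α')
    · exact absurd (show b = (l' : Γ) from h).symm (n2 α' l')
    · exact absurd (show (α : Γ) = b from h) (n1 α)
    · have : α = α' := Subtype.ext (show (α : Γ) = α' from h)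
      rw [this]
    · exact absurd (show (α : Γ) = l' from h) (n3 α α' l')
    · exact absurd (show (l : Γ) = b from h) (n2 α l)
    · exact absurd (show (l : Γ) = α' from h).symm (n3 α' α l)
    · have h : (l : Γ) = l' := h
      obtain rfl := n4 α α' l l' h
      rw [Subtype.ext h]
  have hrange : Set.range (gen b aa lab) = S := by
    apply Set.Subset.antisymm
    · rintro _ ⟨j, rfl⟩
      exact hgS j
    · intro s hs
      by_cases hf : IsOfFinAddOrder s
      · have : s ∈ ⋃ i, P i := by rw [hP]; exact ⟨hs, hf⟩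
        obtain ⟨i, hi⟩ := Set.mem_iUnion.1 this
        exact ⟨some ⟨φ (Sum.inr i), some ⟨s, Or.inr ⟨i, rfl, hi⟩⟩⟩, rfl⟩
      · by_cases hp : Par s b
        · by_cases hsb : s = b
          · exact ⟨none, hsb.symm⟩
          · have hsB : s ∈ SB := ⟨⟨hs, hf⟩, hsb, hp⟩
            exact ⟨some ⟨φ (Sum.inl ⟨s, hsB⟩), some ⟨s, Or.inl ⟨hsB, rfl⟩⟩⟩, rfl⟩
        · exact ⟨some ⟨⟨s, ⟨hs, hf⟩, hp⟩, none⟩, rfl⟩
  have hne : Nonempty SA := by
    obtain ⟨s, hs, hs'⟩ := exists_not_near S hgen hrank b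
    exact ⟨⟨s, hs, hs'⟩⟩
  have hcount : ∀ α, Countable (BD α).K := fun α => (BD α).countable
  have key := cayley_assembly (A := SA) (L := fun α => Sg α) (K := fun α => (BD α).K) b aa lab
    hinj (fun i j h => hS _ (hgS j) (h ▸ hgS i)) (fun i h => h00 (h ▸ hgS i))
    (by rw [hrange]; exact hgen) (fun α => (BD α).D) lev lev_a (fun α x => lev_n α x b hbn)
    (fun α x l => lev_n α x l (hSgn α l)) (fun α => (BD α).nx_a) (fun α => (BD α).pv_a)
    (fun α => (BD α).nx_b) (fun α => (BD α).pv_b) hab hb0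
  rwa [hrange] at key

/-- the form for groups isomorphic to `ℤⁿ × T` with `T` finite -/
theorem main_theorem_L' {n : ℕ} (hn : 2 ≤ n) {T : Type} [AddCommGroup T] [Finite T]
    (e : Γ ≃+ (Fin n → ℤ) × T) (S : Set Γ) (hfin : S.Finite)
    (hS : ∀ s ∈ S, -s ∉ S) (hgen : AddSubgroup.closure S = ⊤)
    (m : ℕ) (hm : m ≤ 1 ∨ ∃ b ∈ Sinf S, m + 2 * {s ∈ Sinf S | Par s b}.ncard ≤ (Sinf S).ncard + 1)
    (P : Fin m → Set Γ) (hP : ⋃ i, P i = Sfin S) (hdisj : ∀ i j, i ≠ j → Disjoint (P i) (P j))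
    (hLA : ∀ i, ∃ K : AddSubgroup Γ, Finite K ∧ P i ⊆ K ∧ Layered (P i) K) :
    HasHamiltonDecomposition (SimpleGraph.circulantGraph S) := by
  classical
  have : Countable Γ := e.toEquiv.countable_iff.2 inferInstance
  refine main_theorem_L S hfin hS hgen ?_ m hm P hP hdisj hLA
  refine ⟨e.symm (Pi.single ⟨0, by omega⟩ 1, 0), e.symm (Pi.single ⟨1, by omega⟩ 1, 0), ?_⟩
  intro i j h
  have h1 := congrArg e h
  rw [map_zsmul, map_zsmul, e.apply_symm_apply, e.apply_symm_apply] at h1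
  have h2 := congrArg Prod.fst h1
  have h3 := congrFun h2 ⟨0, by omega⟩
  have h4 := congrFun h2 ⟨1, by omega⟩
  simp at h3 h4
  exact ⟨h3, h4.symm ▸ rfl⟩

end

end Pool.Agent.Helper43.LA
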