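import Pool.Agent.Helper4.Sel.RowsB

/-!
# (B) only for the groups which occur

`BLemmaDvd n` is the statement (B) for the groups whose order divides `n`. The question for a
connection set `S` follows from it, for `n` the order of the subgroup generated by the torsion
elements of `S`.
-/

namespace Pool.Agent.Helper43.LA

open Equiv Pool.Agent.Helper39.HD Pool.Agent.Helper39.HD.Block Pool.Agent.Helper82 Finset
open Pool.Agent.Helper82.Part Pool.Agent.Helper4.Sel

/-- (B) for the groups whose order divides `n` -/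
def BLemmaDvd (n : ℕ) : Prop :=
  ∀ (G : Type) [AddCommGroup G] [Finite G] [DecidableEq G], Nat.card G ∣ n → ∀ B : Finset G,
    CI (fun x : G => AddSubgroup.zmultiples x) ⊥ B → (∀ s ∈ B, -s ∉ B) →
    AddSubgroup.closure (B : Set G) = ⊤ → B.Nonempty → HamDec G (B : Set G)

theorem hamilton_of_rows_one {Γ : Type} [AddCommGroup Γ] [Countable Γ] (S : Set Γ) (hfin : S.Finite)
    (hS : ∀ s ∈ S, -s ∉ S) (hgen : AddSubgroup.closure S = ⊤)
    (hrank : ∃ x y : Γ, ∀ i j : ℤ, i • x = j • y → i = 0 ∧ j = 0)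
    (hrows : ∀ [Finite (AddSubgroup.closure (Sfin S))]
      [DecidableEq (AddSubgroup.closure (Sfin S))] (S' : Set (AddSubgroup.closure (Sfin S))),
      (∀ s ∈ S', -s ∉ S') → AddSubgroup.closure S' = ⊤ →
      Rows (AddSubgroup.closure (Sfin S)) S') :
    HasHamiltonDecomposition (SimpleGraph.circulantGraph S) := by
  classical
  set T := AddSubgroup.closure (Sfin S) with hT
  have hSfin : (Sfin S).Finite := hfin.subset (Set.sep_subset _ _)
  obtain ⟨htor, hTfin⟩ := closure_torsion (P := Sfin S) hSfin (fun s hs => hs.2)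
  rw [← hT] at htor hTfin
  let S' : Set T := (fun x : T => (x : Γ)) ⁻¹' (Sfin S)
  have hS'neg : ∀ s ∈ S', -s ∉ S' := by
    intro s hs hs'
    exact hS _ hs.1 hs'.1
  have himg : (Subtype.val : T → Γ) '' S' = Sfin S := by
    ext x
    constructor
    · rintro ⟨y, hy, rfl⟩
      exact hy
    · intro hx
      exact ⟨⟨x, AddSubgroup.subset_closure hx⟩, hx, rfl⟩
  have hS'gen : AddSubgroup.closure S' = ⊤ := by
    apply AddSubgroup.map_injective (f := T.subtype) Subtype.val_injective
    rw [AddMonoidHom.map_closure, ← AddMonoidHom.range_eq_map]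
    change AddSubgroup.closure ((Subtype.val : T → Γ) '' S') = _
    rw [himg]
    exact (AddSubgroup.range_subtype T).symm
  obtain ⟨P, L, hPL, hdisj, hPgen, hLci, hLF, hCF⟩ := hrows S' hS'neg hS'gen
  have hPS : ∀ p ∈ P, (p : Γ) ∈ Sfin S := by
    intro p hp
    have : p ∈ S' := hPL ▸ Or.inl hp
    exact this
  have hLS : ∀ p ∈ L, (p : Γ) ∈ Sfin S := by
    intro p hp
    have : p ∈ S' := hPL ▸ Or.inr hp
    exact this
  have hdj : ∀ p, p ∈ P → p ∉ L := fun p hp hp' => Set.disjoint_left.1 hdisj hp hp'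
  -- at least two generators of infinite order
  have h2le : 2 ≤ (Sinf S).ncard := by
    obtain ⟨b, hb, -, hcard⟩ := group_theory S hfin hS hgen hrank
    obtain ⟨e1, e2⟩ := sinf_split hfin hb
    omega
  by_cases h2 : (Sinf S).ncard = 2
  · by_cases hLne : L.Nonempty
    · obtain ⟨C, hC, D, hD⟩ := exists_cols (L := L) hLci hPgen
      refine top2' S hfin hS hgen hrank h2 T rfl P L C (fun l : L => (l : T)) ?_ ?_ (hCF hLne) D hD
      · rintro (p | l) (p' | l') h
        · have h : (p : T) = p' := h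
          rw [Subtype.ext h]
        · have h : (p : T) = l' := h
          exact absurd (h ▸ l'.2) (hdj _ p.2)
        · have h : (l : T) = p' := h
          exact absurd (h ▸ l.2) (hdj _ p'.2)
        · have h : (l : T) = l' := h
          rw [Subtype.ext h]
      · intro x
        constructor
        · intro hx
          have h3 : (⟨x, AddSubgroup.subset_closure hx⟩ : T) ∈ P ∪ (L : Set T) := by
            rw [hPL]; exact hx
          rcases h3 with h3 | h3
          · exact ⟨Sum.inl ⟨_, h3⟩, rfl⟩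
          · exact ⟨Sum.inr ⟨_, h3⟩, rfl⟩
        · rintro ⟨p | l, rfl⟩
          · exact hPS _ p.2
          · exact hLS _ l.2
    · have hL0 : (L : Set T) = ∅ := by
        rw [Finset.not_nonempty_iff_eq_empty.1 hLne]
        simp
      rw [hL0, Set.union_empty] at hPL
      refine main_theorem S hfin hS hgen hrank 1 (Or.inl le_rfl) (fun _ => Sfin S) ?_ ?_ ?_
      · exact Set.iUnion_const _
      · intro i j hij
        exact absurd (Subsingleton.elim i j) hij
      · intro i
        refine Or.inr ?_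
        rw [hPL] at hLF
        have : S'.ncard = (Sfin S).ncard := by
          rw [← himg, Set.ncard_image_of_injective _ Subtype.val_injective]
        rw [this] at hLF
        exact hLF
  · -- at least three
    set P' : Set Γ := (Subtype.val : T → Γ) '' P with hP'
    set L' : Finset Γ := L.image (Subtype.val : T → Γ) with hL'
    refine top3 S hfin hS hgen hrank (by omega) P' L' ?_ ?_ T hTfin ?_ ?_ (ci_image hLci)
    · rw [hP', hL', Finset.coe_image, ← Set.image_union, hPL, himg]
    · rw [hP', hL', Finset.coe_image]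
      exact (Set.disjoint_image_iff Subtype.val_injective).2 hdisj
    · rintro _ ⟨p, -, rfl⟩
      exact p.2
    · have h0 : (0 : T) ∉ P := by
        intro h
        have h1 := (hPS _ h).1
        apply hS _ h1
        rw [AddSubgroup.coe_zero, neg_zero]
        exact h1
      have hneg : ∀ s ∈ P, -s ∉ P := fun s hs hs' => hS _ (hPS s hs).1 (hPS _ hs').1
      obtain ⟨D⟩ := forestData_of_linearForests P h0 hneg hLF
      have h1 : HasFD T (fun p : P => (p : T)) := ⟨_, inferInstance, ⟨D⟩⟩
      let e : {s : Γ // s ∈ P' ∧ s ∈ T} ≃ P :=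
        { toFun := fun s => ⟨⟨s.1, s.2.2⟩, by
            obtain ⟨p, hp, hps⟩ := s.2.1
            have : (⟨s.1, s.2.2⟩ : T) = p := Subtype.ext hps.symm
            rw [this]
            exact hp⟩
          invFun := fun p => ⟨p.1, ⟨p.1, p.2, rfl⟩, p.1.2⟩
          left_inv := fun s => rfl
          right_inv := fun p => rfl }
      exact h1.comap id e (fun l y => rfl)



theorem hamDec_of_B_dvd {n : ℕ} (hB : BLemmaDvd n) {T : Type} [AddCommGroup T] [Finite T]
    [DecidableEq T] (hn : Nat.card T ∣ n) {B : Finset T} (hci : CI (fun x : T => AddSubgroup.zmultiples x) ⊥ B)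
    (hneg : ∀ s ∈ B, -s ∉ B) (hne : B.Nonempty) :
    HamDec (AddSubgroup.closure (B : Set T)) (Subtype.val ⁻¹' (B : Set T)) := by
  classical
  set W := AddSubgroup.closure (B : Set T) with hW
  have hBW : ∀ x ∈ B, x ∈ W := fun x hx => AddSubgroup.subset_closure hx
  let B' : Finset W := (Set.toFinite (Subtype.val ⁻¹' (B : Set T) : Set W)).toFinset
  have hmem : ∀ x : W, x ∈ B' ↔ x.1 ∈ B := fun x => by simp [B']
  have himg : B'.image Subtype.val = B := by
    ext x
    rw [mem_image]
    constructor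
    · rintro ⟨y, hy, rfl⟩
      exact (hmem y).1 hy
    · exact fun hx => ⟨⟨x, hBW x hx⟩, (hmem _).2 hx, rfl⟩
  have hcoe : (Subtype.val ⁻¹' (B : Set T) : Set W) = (B' : Set W) := by
    ext x
    rw [mem_coe, hmem]
    rfl
  rw [hcoe]
  refine hB W ((AddSubgroup.card_addSubgroup_dvd_card W).trans hn) B' (CI.comap hci B' himg) ?_ ?_ ?_
  · intro s hs hs'
    have h1 : s.1 ∈ B := himg ▸ mem_image_of_mem _ hs
    have h2 : (-s).1 ∈ B := himg ▸ mem_image_of_mem _ hs'
    exact hneg _ h1 h2
  · apply AddSubgroup.map_injective (f := W.subtype) Subtype.val_injective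
    rw [AddMonoidHom.map_closure, ← AddMonoidHom.range_eq_map]
    change AddSubgroup.closure ((Subtype.val : W → T) '' (B' : Set W)) = _
    rw [← coe_image, himg]
    exact (AddSubgroup.range_subtype W).symm
  · obtain ⟨x, hx⟩ := hne
    exact ⟨⟨x, hBW x hx⟩, (hmem _).2 hx⟩

/-- the finite statement from (B) -/
theorem rows_of_B_dvd {n : ℕ} (hB : BLemmaDvd n) (T : Type) [AddCommGroup T] [Finite T]
    [DecidableEq T] (hn : Nat.card T ∣ n) (S : Set T)
    (hS : ∀ s ∈ S, -s ∉ S) (hgen : AddSubgroup.closure S = ⊤) : Rows T S := by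
  classical
  set S' : Finset T := (Set.toFinite S).toFinset with hS'
  have hmem : ∀ x, x ∈ S' ↔ x ∈ S := fun x => by simp [hS']
  have hcoe : (S' : Set T) = S := by ext x; simp [hS']
  obtain ⟨m, K, C, O, L, h1, h2, h3, h4, h5, h6, h7, h8, h9, h10, h11, h12, h13, h14, h15, h16⟩ :=
    exists_blocks S' (fun s hs hs' => hS s ((hmem s).1 hs) ((hmem _).1 hs'))
  have hnegS : ∀ s ∈ S', -s ∉ S' := fun s hs hs' => hS s ((hmem s).1 hs) ((hmem _).1 hs')
  have hham : ∀ j, HamDec (AddSubgroup.closure ((C j ∪ O j : Finset T) : Set T))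
      (Subtype.val ⁻¹' ((C j ∪ O j : Finset T) : Set T)) := by
    intro j
    refine hamDec_of_B_dvd hB hn (h10 j) ?_ ?_
    · intro s hs hs'
      exact hnegS s ((h1 s).2 (Or.inr ⟨j, hs⟩)) ((h1 _).2 (Or.inr ⟨j, hs'⟩))
    · have hK : K ≠ ⊥ := h16 j.pos
      by_contra hcon
      rw [not_nonempty_iff_eq_empty, union_eq_empty] at hcon
      apply hK
      rw [← h11 j, hcon.1]
      simp
  have hrows := connForests_rows hnegS (by rw [hcoe]; exact hgen) h1 h3 h4 h5 h6 h11 h12 h13 h14
    h15 hham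
  refine ⟨{x : T | ∃ j, x ∈ C j ∪ O j}, L, ?_, ?_, ?_, h7, hrows.decomposable, fun _ => hrows⟩
  · ext x
    rw [← hmem, h1, Set.mem_union]
    constructor
    · rintro (h | h)
      · exact Or.inr h
      · exact Or.inl h
    · rintro (h | h)
      · exact Or.inr h
      · exact Or.inl h
  · rw [Set.disjoint_left]
    rintro x ⟨j, hj⟩ hx
    exact h2 x hx j hj
  · rw [eq_top_iff, ← hgen, AddSubgroup.closure_le]
    intro x hx
    rcases (h1 x).1 ((hmem x).2 hx) with h | ⟨j, hj⟩
    · have hm : 0 < m := h15 ⟨x, (hmem x).2 hx⟩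
      have h17 : x ∈ AddSubgroup.closure (C ⟨0, hm⟩ : Set T) := by
        rw [h11]
        exact h4 x h
      refine AddSubgroup.closure_mono ?_ h17
      exact fun y hy => ⟨⟨0, hm⟩, mem_union_left _ hy⟩
    · exact AddSubgroup.subset_closure ⟨j, hj⟩

/-- the question for `S` from (B) for the groups whose order divides the order of the subgroup
generated by the torsion elements of `S` -/
theorem hamilton_of_B_dvd {Γ : Type} [AddCommGroup Γ] [Countable Γ] (S : Set Γ)
    (hB : BLemmaDvd (Nat.card (AddSubgroup.closure (Sfin S))))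
    (hfin : S.Finite) (hS : ∀ s ∈ S, -s ∉ S) (hgen : AddSubgroup.closure S = ⊤)
    (hrank : ∃ x y : Γ, ∀ i j : ℤ, i • x = j • y → i = 0 ∧ j = 0) :
    HasHamiltonDecomposition (SimpleGraph.circulantGraph S) :=
  hamilton_of_rows_one S hfin hS hgen hrank fun S' hS' hgen' =>
    rows_of_B_dvd hB _ dvd_rfl S' hS' hgen'

/-- (B) for the groups of odd order -/
def BLemmaOdd : Prop :=
  ∀ (G : Type) [AddCommGroup G] [Finite G] [DecidableEq G], Odd (Nat.card G) → ∀ B : Finset G,
    CI (fun x : G => AddSubgroup.zmultiples x) ⊥ B → (∀ s ∈ B, -s ∉ B) →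
    AddSubgroup.closure (B : Set G) = ⊤ → B.Nonempty → HamDec G (B : Set G)

theorem odd_closure {Γ : Type} [AddCommGroup Γ] {P : Set Γ} (hP : ∀ s ∈ P, Odd (addOrderOf s)) :
    ∀ x ∈ AddSubgroup.closure P, Odd (addOrderOf x) := by
  have key : ∀ x ∈ AddSubgroup.closure P, ∃ n : ℕ, Odd n ∧ n • x = 0 := by
    intro x hx
    induction hx using AddSubgroup.closure_induction with
    | mem s hs => exact ⟨_, hP s hs, addOrderOf_nsmul_eq_zero s⟩
    | zero => exact ⟨1, odd_one, by simp⟩
    | add y z _ _ h1 h2 =>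
      obtain ⟨a, ha, ha'⟩ := h1
      obtain ⟨b, hb, hb'⟩ := h2
      refine ⟨a * b, ha.mul hb, ?_⟩
      rw [nsmul_add, mul_comm a b, mul_nsmul', ha', mul_comm b a, mul_nsmul', hb']
      simp
    | neg y _ h1 =>
      obtain ⟨a, ha, ha'⟩ := h1
      exact ⟨a, ha, by rw [smul_neg, ha', neg_zero]⟩
  intro x hx
  obtain ⟨n, hn, hn'⟩ := key x hx
  exact hn.of_dvd_nat (addOrderOf_dvd_of_nsmul_eq_zero hn')

theorem odd_card {Γ : Type} [AddCommGroup Γ] {P : Set Γ} (hP : ∀ s ∈ P, Odd (addOrderOf s))
    [Finite (AddSubgroup.closure P)] : Odd (Nat.card (AddSubgroup.closure P)) := by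
  by_contra h
  rw [Nat.not_odd_iff_even] at h
  have : Fact (Nat.Prime 2) := ⟨Nat.prime_two⟩
  have := Fintype.ofFinite (AddSubgroup.closure P)
  rw [Nat.card_eq_fintype_card] at h
  obtain ⟨x, hx⟩ := exists_prime_addOrderOf_dvd_card 2 h.two_dvd
  have h1 := odd_closure hP x.1 x.2
  rw [AddSubgroup.addOrderOf_coe, hx] at h1
  exact absurd h1 (by decide)

/-- the question for the connection sets whose torsion elements have odd order -/
theorem hamilton_of_B_odd (hB : BLemmaOdd) {Γ : Type} [AddCommGroup Γ] [Countable Γ] (S : Set Γ)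
    (hfin : S.Finite) (hS : ∀ s ∈ S, -s ∉ S) (hgen : AddSubgroup.closure S = ⊤)
    (hrank : ∃ x y : Γ, ∀ i j : ℤ, i • x = j • y → i = 0 ∧ j = 0)
    (hodd : ∀ s ∈ S, IsOfFinAddOrder s → Odd (addOrderOf s)) :
    HasHamiltonDecomposition (SimpleGraph.circulantGraph S) := by
  obtain ⟨-, hTfin⟩ := closure_torsion (P := Sfin S) (hfin.subset (Set.sep_subset _ _))
    (fun s hs => hs.2)
  refine hamilton_of_B_dvd S ?_ hfin hS hgen hrank
  intro G _ _ _ hG
  exact hB G (Odd.of_dvd_nat (odd_card (P := Sfin S) fun s hs => hodd s hs.1 hs.2) hG)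

end Pool.Agent.Helper43.LA
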