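import Pool.Agent.Helper43.LA.Util
import Pool.Agent.Helper82.CI.Basic

/-!
# Forest data of chain independent families
-/

namespace Pool.Agent.Helper43.LA

open Equiv Pool.Agent.Helper39.HD Pool.Agent.Helper82

section

variable {G : Type} [AddCommGroup G] {I : Type} [DecidableEq I] {f : I → G}

/-- the members of the family `f` with index in `B` lie in `K` and have forest data there -/
def FDIn (f : I → G) (B : Finset I) (K : AddSubgroup G) : Prop :=
  ∃ h : ∀ i ∈ B, f i ∈ K, HasFD K (fun i : B => (⟨f i, h i i.2⟩ : K))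

omit [DecidableEq I] in
theorem FDIn.empty (f : I → G) (K : AddSubgroup G) : FDIn f ∅ K := by
  refine ⟨fun i hi => absurd hi (Finset.notMem_empty i), ?_⟩
  obtain ⟨D⟩ := forestData_empty Unit (fun _ => Equiv.addRight 0)
  have h : HasFD Unit (fun _ : Empty => (0 : Unit)) := ⟨Unit, inferInstance, ⟨D⟩⟩
  have : IsEmpty (∅ : Finset I) := ⟨fun i => Finset.notMem_empty _ i.2⟩
  exact h.comap (fun _ => ()) (Equiv.equivOfIsEmpty _ _) (fun l => isEmptyElim l)

theorem FDIn.step {B C : Finset I} {K' K : AddSubgroup G} (hle : K' ≤ K) (h : FDIn f B K')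
    (hC : ∀ i ∈ C, f i ∈ K) (hd : Disjoint B C)
    (h2 : HasFD (K ⧸ K'.addSubgroupOf K)
      (fun i : C => (QuotientAddGroup.mk (⟨f i, hC i i.2⟩ : K) : K ⧸ K'.addSubgroupOf K))) :
    FDIn f (B ∪ C) K := by
  classical
  obtain ⟨hB, h1⟩ := h
  let K2 : AddSubgroup K := K'.addSubgroupOf K
  let a1 : B → K2 := fun s => ⟨⟨f s, hle (hB s s.2)⟩, AddSubgroup.mem_addSubgroupOf.2 (hB s s.2)⟩
  let a2 : C → K := fun s => ⟨f s, hC s s.2⟩
  have h1' : HasFD K2 a1 := by
    refine h1.comap (AddSubgroup.addSubgroupOfEquivOfLe hle) (Equiv.refl _) ?_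
    intro l y
    rw [map_add]
    rfl
  have key := merge K2 a1 a2 h1' h2
  have hBC : ∀ i ∈ B ∪ C, f i ∈ K := by
    intro i hi
    rcases Finset.mem_union.1 hi with h | h
    · exact hle (hB i h)
    · exact hC i h
  refine ⟨hBC, ?_⟩
  refine key.comap id (Equiv.Finset.union B C hd).symm ?_
  intro l y
  obtain ⟨l, rfl⟩ := (Equiv.Finset.union B C hd).surjective l
  rw [Equiv.symm_apply_apply]
  rcases l with l | l
  · rfl
  · rfl

theorem quot_gen {K' K : AddSubgroup G} {x : G} (hx : x ∈ K) (h : K' ⊔ AddSubgroup.zmultiples x = K) :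
    AddSubgroup.zmultiples (QuotientAddGroup.mk (⟨x, hx⟩ : K) : K ⧸ K'.addSubgroupOf K) = ⊤ := by
  rw [eq_top_iff]
  rintro q -
  obtain ⟨⟨w, hw⟩, rfl⟩ := QuotientAddGroup.mk_surjective q
  have hw' := hw
  rw [← h, AddSubgroup.mem_sup] at hw'
  obtain ⟨y, hy, z, hz, hyz⟩ := hw'
  obtain ⟨n, rfl⟩ := AddSubgroup.mem_zmultiples_iff.1 hz
  refine AddSubgroup.mem_zmultiples_iff.2 ⟨n, ?_⟩
  rw [← QuotientAddGroup.mk_zsmul, QuotientAddGroup.eq, AddSubgroup.mem_addSubgroupOf]
  have : ((-(n • (⟨x, hx⟩ : K)) + ⟨w, hw⟩ : K) : G) = y := by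
    push_cast
    rw [← hyz]
    abel
  rw [this]
  exact hy

theorem quot_ne {K' K : AddSubgroup G} {x : G} (hx : x ∈ K) (h : x ∉ K') :
    (QuotientAddGroup.mk (⟨x, hx⟩ : K) : K ⧸ K'.addSubgroupOf K) ≠ 0 := by
  intro hs
  rw [QuotientAddGroup.eq_zero_iff, AddSubgroup.mem_addSubgroupOf] at hs
  exact h hs

/-- adding one member -/
theorem FDIn.one {B : Finset I} {K' K : AddSubgroup G} [Finite K] (h : FDIn f B K') {x : I}
    (hx : f x ∉ K') (hK : K' ⊔ AddSubgroup.zmultiples (f x) = K) : FDIn f (insert x B) K := by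
  classical
  have hle : K' ≤ K := hK ▸ le_sup_left
  have hxK : f x ∈ K := hK ▸ (le_sup_right : AddSubgroup.zmultiples (f x) ≤ _)
    (AddSubgroup.mem_zmultiples _)
  have hxB : x ∉ B := fun hB => hx (h.1 x hB)
  have e : insert x B = B ∪ {x} := by
    rw [Finset.union_comm]; rfl
  rw [e]
  refine h.step hle (by simpa using hxK) (by simpa using hxB) ?_
  refine base_gen _ ?_ ?_ ?_
  · rintro ⟨i, hi⟩
    obtain rfl := Finset.mem_singleton.1 hi
    exact quot_ne _ hx
  · rintro ⟨i, hi⟩
    obtain rfl := Finset.mem_singleton.1 hi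
    exact quot_gen _ hK
  · have h1 : Nat.card ({x} : Finset I) = 1 := by simp
    have h2 : 0 < Nat.card (K ⧸ K'.addSubgroupOf K) := Nat.card_pos
    have h3 : Nat.card (K ⧸ K'.addSubgroupOf K) ≠ 1 := by
      intro h3
      have := (Nat.card_eq_one_iff_unique.1 h3).1
      exact quot_ne hxK hx (Subsingleton.elim _ _)
    rw [h1]
    omega

/-- adding two members, index at least three -/
theorem FDIn.two {B : Finset I} {K' K : AddSubgroup G} [Finite K] (h : FDIn f B K') {x y : I}
    (hxy : x ≠ y) (hx : f x ∉ K') (hy : f y ∉ K')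
    (hKx : K' ⊔ AddSubgroup.zmultiples (f x) = K) (hKy : K' ⊔ AddSubgroup.zmultiples (f y) = K)
    (hi : 3 ≤ K'.relIndex K) : FDIn f (insert x (insert y B)) K := by
  classical
  have hle : K' ≤ K := hKx ▸ le_sup_left
  have hxK : f x ∈ K := hKx ▸ (le_sup_right : AddSubgroup.zmultiples (f x) ≤ _)
    (AddSubgroup.mem_zmultiples _)
  have hyK : f y ∈ K := hKy ▸ (le_sup_right : AddSubgroup.zmultiples (f y) ≤ _)
    (AddSubgroup.mem_zmultiples _)
  have hxB : x ∉ B := fun hB => hx (h.1 x hB)
  have hyB : y ∉ B := fun hB => hy (h.1 y hB)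
  have e : insert x (insert y B) = B ∪ {x, y} := by
    ext i
    simp only [Finset.mem_insert, Finset.mem_union, Finset.mem_singleton]
    tauto
  rw [e]
  refine h.step hle ?_ ?_ ?_
  · intro i hi
    rcases Finset.mem_insert.1 hi with rfl | hi
    · exact hxK
    · obtain rfl := Finset.mem_singleton.1 hi
      exact hyK
  · rw [Finset.disjoint_right]
    intro i hi
    rcases Finset.mem_insert.1 hi with rfl | hi
    · exact hxB
    · obtain rfl := Finset.mem_singleton.1 hi
      exact hyB
  refine base_gen _ ?_ ?_ ?_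
  · rintro ⟨i, hi⟩
    rcases Finset.mem_insert.1 hi with rfl | hi
    · exact quot_ne _ hx
    · obtain rfl := Finset.mem_singleton.1 hi
      exact quot_ne _ hy
  · rintro ⟨i, hi⟩
    rcases Finset.mem_insert.1 hi with rfl | hi
    · exact quot_gen _ hKx
    · obtain rfl := Finset.mem_singleton.1 hi
      exact quot_gen _ hKy
  · have h1 : Nat.card ({x, y} : Finset I) = 2 := by
      rw [Nat.card_eq_fintype_card, Fintype.card_coe, Finset.card_pair hxy]
    have h2 : Nat.card (K ⧸ K'.addSubgroupOf K) = K'.relIndex K := rfl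
    rw [h1, h2]
    omega

/-- adding three members, the last two with index two -/
theorem FDIn.ladder {B : Finset I} {K0 K' K : AddSubgroup G} [Finite K] (h : FDIn f B K0)
    {z x y : I} (hxy : x ≠ y) (hxz : x ≠ z) (hyz : y ≠ z) (hle0 : K0 ≤ K') (hle : K' ≤ K)
    (hzK : f z ∈ K') (hz : f z ∉ K0) (hxK : f x ∈ K) (hx : f x ∉ K') (hyK : f y ∈ K)
    (hy : f y ∉ K') : FDIn f (insert x (insert y (insert z B))) K := by
  classical
  have hzB : z ∉ B := fun hB => hz (h.1 z hB)
  have hxB : x ∉ B := fun hB => hx (hle0 (h.1 x hB))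
  have hyB : y ∉ B := fun hB => hy (hle0 (h.1 y hB))
  have e : insert x (insert y (insert z B)) = B ∪ {x, y, z} := by
    ext i
    simp only [Finset.mem_insert, Finset.mem_union, Finset.mem_singleton]
    tauto
  rw [e]
  have hC : ∀ i ∈ ({x, y, z} : Finset I), f i ∈ K := by
    intro i hi
    simp only [Finset.mem_insert, Finset.mem_singleton] at hi
    rcases hi with rfl | rfl | rfl
    · exact hxK
    · exact hyK
    · exact hle hzK
  refine h.step (hle0.trans hle) hC ?_ ?_
  · rw [Finset.disjoint_right]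
    intro i hi
    simp only [Finset.mem_insert, Finset.mem_singleton] at hi
    rcases hi with rfl | rfl | rfl
    · exact hxB
    · exact hyB
    · exact hzB
  set C : Finset I := {x, y, z} with hCdef
  have hxC : x ∈ C := by simp [hCdef]
  have hyC : y ∈ C := by simp [hCdef]
  have hzC : z ∈ C := by simp [hCdef]
  have hCc : ∀ i ∈ C, i = x ∨ i = y ∨ i = z := by
    intro i hi
    simpa [hCdef] using hi
  let f' : C → K ⧸ K0.addSubgroupOf K := fun i =>
    (QuotientAddGroup.mk (⟨f i, hC i i.2⟩ : K) : K ⧸ K0.addSubgroupOf K)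
  let M : AddSubgroup (K ⧸ K0.addSubgroupOf K) :=
    (K'.addSubgroupOf K).map (QuotientAddGroup.mk' (K0.addSubgroupOf K))
  have hM : ∀ i : C, f' i ∈ M ↔ f i ∈ K' := by
    intro i
    constructor
    · intro hi
      obtain ⟨w, hw, hwi⟩ := AddSubgroup.mem_map.1 hi
      have h1 : (QuotientAddGroup.mk w : K ⧸ K0.addSubgroupOf K) =
        QuotientAddGroup.mk (⟨f i, hC i i.2⟩ : K) := hwi
      rw [QuotientAddGroup.eq, AddSubgroup.mem_addSubgroupOf] at h1
      have h2 : (w : G) ∈ K' := AddSubgroup.mem_addSubgroupOf.1 hw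
      have h3 := K'.add_mem h2 (hle0 h1)
      simpa using h3
    · intro hi
      exact AddSubgroup.mem_map.2 ⟨⟨f i, hC i i.2⟩, AddSubgroup.mem_addSubgroupOf.2 hi, rfl⟩
  have hne : ∀ i : C, f' i ≠ 0 := by
    rintro ⟨i, hi⟩
    apply quot_ne
    rcases hCc i hi with rfl | rfl | rfl
    · exact fun h => hx (hle0 h)
    · exact fun h => hy (hle0 h)
    · exact hz
  have g0 : GSub f' ⊥ := by
    have : IsEmpty {l // f' l ∈ (⊥ : AddSubgroup (K ⧸ K0.addSubgroupOf K))} :=
      ⟨fun l => hne _ (AddSubgroup.mem_bot.1 l.2)⟩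
    exact GS.of_isEmpty _
  have hcz : Nat.card {l // f' l ∈ M} = 1 := by
    rw [Nat.card_eq_one_iff_unique]
    refine ⟨⟨?_⟩, ⟨⟨⟨z, hzC⟩, (hM _).2 hzK⟩⟩⟩
    have : ∀ l : {l // f' l ∈ M}, (l : C) = ⟨z, hzC⟩ := by
      rintro ⟨⟨i, hi⟩, hl⟩
      have hl := (hM _).1 hl
      rcases hCc i hi with rfl | rfl | rfl
      · exact absurd hl hx
      · exact absurd hl hy
      · rfl
    intro a b
    exact Subtype.ext ((this a).trans (this b).symm)
  have g1 : GSub f' M := by
    refine gsub_step f' bot_le g0 (Or.inl ?_)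
    have h1 : Nat.card {l // f' l ∈ M ∧ f' l ∉ (⊥ : AddSubgroup (K ⧸ K0.addSubgroupOf K))} ≤
        Nat.card {l // f' l ∈ M} :=
      Nat.card_le_card_of_injective (fun l => ⟨l.1, l.2.1⟩) (by
        rintro ⟨a, ha⟩ ⟨b, hb⟩ hab
        have := congrArg Subtype.val hab
        exact Subtype.ext this)
    omega
  have g2 : GSub f' ⊤ := by
    have : Finite (⊤ : AddSubgroup (K ⧸ K0.addSubgroupOf K)) :=
      Finite.of_injective _ Subtype.val_injective
    refine gsub_step f' (K' := M) (K := ⊤) le_top g1 (Or.inl ?_)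
    rw [hcz]
    have h1 : Nat.card {l // f' l ∈ (⊤ : AddSubgroup (K ⧸ K0.addSubgroupOf K)) ∧ f' l ∉ M} ≤
        Nat.card ({x, y} : Finset I) := by
      refine Nat.card_le_card_of_injective (fun l => ⟨l.1.1, ?_⟩) ?_
      · rcases hCc _ l.1.2 with h | h | h
        · simp [h]
        · simp [h]
        · exact absurd ((hM l.1).2 (h ▸ hzK)) l.2.2
      · rintro ⟨a, ha⟩ ⟨b, hb⟩ hab
        have := congrArg Subtype.val hab
        exact Subtype.ext (Subtype.ext this)
    have h2 : Nat.card ({x, y} : Finset I) = 2 := by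
      rw [Nat.card_eq_fintype_card, Fintype.card_coe, Finset.card_pair hxy]
    omega
  have g3 := GS.congr_group (K' := K ⧸ K0.addSubgroupOf K) AddSubgroup.topEquiv
    (a' := fun l => f' l.1) (fun l => rfl) g2
  exact hasFD_of_GS _ (g3.congr_label (Equiv.subtypeUnivEquiv (by simp)).symm (fun l => rfl))

/-- the span of the members with index in `B` -/
def sp (f : I → G) (B : Finset I) : AddSubgroup G := B.sup fun i => AddSubgroup.zmultiples (f i)

theorem sp_insert (y : I) (B : Finset I) :
    sp f (insert y B) = sp f B ⊔ AddSubgroup.zmultiples (f y) := by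
  rw [sp, Finset.sup_insert, sup_comm]
  rfl

omit [DecidableEq I] in
theorem mem_sp {B : Finset I} {i : I} (hi : i ∈ B) : f i ∈ sp f B :=
  (Finset.le_sup (f := fun i => AddSubgroup.zmultiples (f i)) hi) (AddSubgroup.mem_zmultiples _)

omit [DecidableEq I] in
theorem sp_finite {B : Finset I} (hord : ∀ i ∈ B, IsOfFinAddOrder (f i)) : Finite (sp f B) := by
  classical
  have h1 := (closure_torsion (P := f '' B) (B.finite_toSet.image f) (by
    rintro _ ⟨i, hi, rfl⟩
    exact hord i hi)).2
  have hle : sp f B ≤ AddSubgroup.closure (f '' B) := by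
    refine Finset.sup_le fun i hi => ?_
    rw [AddSubgroup.zmultiples_le]
    exact AddSubgroup.subset_closure ⟨i, hi, rfl⟩
  exact Finite.of_injective _ (AddSubgroup.inclusion_injective hle)

/-- chain independent families have forest data -/
theorem ci_fd {B : Finset I} (h : Part.CI (fun i => AddSubgroup.zmultiples (f i)) ⊥ B)
    (hord : ∀ i ∈ B, IsOfFinAddOrder (f i)) : FDIn f B (sp f B) := by
  induction h with
  | empty => exact FDIn.empty f _
  | @insert y B hB hy ih =>
    have hy' : f y ∉ sp f B := by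
      intro h
      apply hy
      rw [bot_sup_eq, AddSubgroup.zmultiples_le]
      exact h
    have := sp_finite hord
    exact (ih fun i hi => hord i (Finset.mem_insert_of_mem hi)).one hy' (sp_insert y B).symm

theorem ci_fd_insert_aux {B : Finset I} (h : Part.CI (fun i => AddSubgroup.zmultiples (f i)) ⊥ B)
    {x : I} (hx0 : f x ≠ 0) (hord : ∀ i ∈ B, IsOfFinAddOrder (f i)) (h2 : ∀ i ∈ B, f i + f i ≠ 0)
    (hxB : x ∉ B) (hxK : f x ∈ sp f B) : FDIn f (insert x B) (sp f B) := by
  induction h with
  | empty =>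
    exfalso
    apply hx0
    have : sp f (∅ : Finset I) = ⊥ := rfl
    rw [this] at hxK
    exact AddSubgroup.mem_bot.1 hxK
  | @insert y B hB hy ih =>
    have hy' : f y ∉ sp f B := by
      intro h
      apply hy
      rw [bot_sup_eq, AddSubgroup.zmultiples_le]
      exact h
    have hordB : ∀ i ∈ B, IsOfFinAddOrder (f i) := fun i hi => hord i (Finset.mem_insert_of_mem hi)
    have h2B : ∀ i ∈ B, f i + f i ≠ 0 := fun i hi => h2 i (Finset.mem_insert_of_mem hi)
    have hxB' : x ∉ B := fun h => hxB (Finset.mem_insert_of_mem h)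
    have hxy : x ≠ y := fun h => hxB (h ▸ Finset.mem_insert_self _ _)
    have hfin := sp_finite hord
    by_cases hxK' : f x ∈ sp f B
    · have h3 := (ih hordB h2B hxB' hxK').one (K := sp f (insert y B)) hy' (sp_insert y B).symm
      rwa [Finset.insert_comm] at h3
    by_cases hgen : sp f B ⊔ AddSubgroup.zmultiples (f x) = sp f (insert y B)
    · by_cases hi : 3 ≤ (sp f B).relIndex (sp f (insert y B))
      · exact (ci_fd hB hordB).two hxy hxK' hy' hgen (sp_insert y B).symm hi
      · cases hB with
        | empty =>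
          exfalso
          have e1 : sp f (∅ : Finset I) = ⊥ := rfl
          rw [e1, AddSubgroup.relIndex_bot_left] at hi
          have e2 : sp f (insert y (∅ : Finset I)) = AddSubgroup.zmultiples (f y) := by
            rw [sp_insert, e1, bot_sup_eq]
          rw [e2, Nat.card_zmultiples] at hi
          have h3 : addOrderOf (f y) ∣ 2 := by
            have h4 : 0 < addOrderOf (f y) :=
              (hord y (Finset.mem_insert_self _ _)).addOrderOf_pos
            have : addOrderOf (f y) = 1 ∨ addOrderOf (f y) = 2 := by omega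
            rcases this with h | h <;> rw [h]
            exact one_dvd _
          refine h2 y (Finset.mem_insert_self _ _) ?_
          have := addOrderOf_dvd_iff_nsmul_eq_zero.1 h3
          rwa [two_nsmul] at this
        | @insert z B0 hB0 hz =>
          have hz' : f z ∉ sp f B0 := by
            intro h
            apply hz
            rw [bot_sup_eq, AddSubgroup.zmultiples_le]
            exact h
          have hxz : x ≠ z := fun h => hxB' (h ▸ Finset.mem_insert_self _ _)
          have hyz : y ≠ z := by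
            rintro rfl
            exact hy' (mem_sp (Finset.mem_insert_self _ _))
          refine (ci_fd hB0 fun i hi => hordB i (Finset.mem_insert_of_mem hi)).ladder
            (K' := sp f (insert z B0)) hxy hxz hyz ?_ ?_ (mem_sp (Finset.mem_insert_self _ _))
            hz' hxK hxK' (mem_sp (Finset.mem_insert_self _ _)) hy'
          · rw [sp_insert]; exact le_sup_left
          · rw [sp_insert y]; exact le_sup_left
    · set K1 := sp f B ⊔ AddSubgroup.zmultiples (f x) with hK1
      have hle : K1 ≤ sp f (insert y B) := by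
        rw [hK1, sup_le_iff]
        refine ⟨by rw [sp_insert]; exact le_sup_left, ?_⟩
        rw [AddSubgroup.zmultiples_le]
        exact hxK
      have : Finite K1 := Finite.of_injective _ (AddSubgroup.inclusion_injective hle)
      have h3 := (ci_fd hB hordB).one (K := K1) hxK' rfl
      have hyK1 : f y ∉ K1 := by
        intro h
        apply hgen
        refine le_antisymm hle ?_
        rw [sp_insert, sup_le_iff]
        refine ⟨le_sup_left, ?_⟩
        rw [AddSubgroup.zmultiples_le]
        exact h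
      have h4 := h3.one (K := sp f (insert y B)) hyK1 (by
        apply le_antisymm
        · rw [sup_le_iff]
          refine ⟨hle, ?_⟩
          rw [AddSubgroup.zmultiples_le]
          exact mem_sp (Finset.mem_insert_self _ _)
        · rw [sp_insert]
          exact sup_le_sup_right le_sup_left _)
      rwa [Finset.insert_comm] at h4

/-- a chain independent family together with one further nonzero element has forest data -/
theorem ci_fd_insert {B : Finset I} (h : Part.CI (fun i => AddSubgroup.zmultiples (f i)) ⊥ B)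
    {x : I} (hx0 : f x ≠ 0) (hx : IsOfFinAddOrder (f x)) (hord : ∀ i ∈ B, IsOfFinAddOrder (f i))
    (h2 : ∀ i ∈ B, f i + f i ≠ 0) (hxB : x ∉ B) :
    ∃ K : AddSubgroup G, Finite K ∧ FDIn f (insert x B) K := by
  by_cases hxK : f x ∈ sp f B
  · exact ⟨_, sp_finite hord, ci_fd_insert_aux h hx0 hord h2 hxB hxK⟩
  · have hfin : Finite (sp f (insert x B)) := sp_finite (by
      intro i hi
      rcases Finset.mem_insert.1 hi with rfl | hi
      · exact hx
      · exact hord i hi)
    exact ⟨_, hfin, (ci_fd h hord).one hxK (sp_insert x B).symm⟩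

end

end Pool.Agent.Helper43.LA
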