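import Pool.Agent.Helper43.LA.ColStep
import Pool.Agent.Helper43.LA.CIFD

/-!
# Forest data of chain independent families with connected tails
-/

namespace Pool.Agent.Helper43.LA

open Equiv Pool.Agent.Helper39.HD Pool.Agent.Helper82 Relation

section

variable {X Y L L' C : Type} {act : L → Perm X} {act' : L' → Perm Y}

/-- one step with a label -/
def Stp (act : L → Perm X) (x y : X) : Prop := ∃ l, y = stp act l x

/-- all points are joined by labels -/
def Conn (act : L → Perm X) : Prop := ∀ x y, ReflTransGen (Stp act) x y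

/-- the tails of every class are joined by labels -/
def TC (D : ForestData X L C act) : Prop :=
  ∀ c x y, D.pv c x = none → D.pv c y = none →
    ReflTransGen (fun x y => D.pv c y = none ∧ Stp act x y) x y

theorem Stp.symm {x y : X} (h : Stp act x y) : Stp act y x := by
  obtain ⟨⟨l, β⟩, rfl⟩ := h
  exact ⟨(l, !β), (stp_stp act l β x).symm⟩

theorem stp_equiv (π : Y ≃ X) (e : L' ≃ L) (hπ : ∀ l y, π (act' l y) = act (e l) (π y))
    (l : L × Bool) (x : X) : π.symm (stp act l x) = stp act' (e.symm l.1, l.2) (π.symm x) := by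
  rw [Equiv.symm_apply_eq]
  rcases l with ⟨l, β⟩
  cases β
  · simp only [stp, Bool.false_eq_true, if_false]
    rw [Perm.inv_eq_iff_eq]
    have := hπ (e.symm l) ((act' (e.symm l))⁻¹ (π.symm x))
    rw [Equiv.apply_symm_apply] at this
    rw [← this]
    have h2 : act' (e.symm l) ((act' (e.symm l))⁻¹ (π.symm x)) = π.symm x :=
      (act' (e.symm l)).apply_symm_apply _
    rw [h2, Equiv.apply_symm_apply]
  · simp only [stp, if_true]
    rw [hπ]
    simp

theorem Stp.map (π : Y ≃ X) (e : L' ≃ L) (hπ : ∀ l y, π (act' l y) = act (e l) (π y))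
    {x x' : X} (h : Stp act x x') : Stp act' (π.symm x) (π.symm x') := by
  obtain ⟨l, rfl⟩ := h
  exact ⟨_, stp_equiv π e hπ l x⟩

/-- forest data with connected tails -/
def HasTC (X : Type) {L : Type} (act : L → Perm X) : Prop :=
  Conn act ∧ ∃ C : Type, Countable C ∧ ∃ D : ForestData X L C act, TC D

theorem HasTC.comap (h : HasTC X act) (π : Y ≃ X) (e : L' ≃ L)
    (hπ : ∀ l y, π (act' l y) = act (e l) (π y)) : HasTC Y act' := by
  obtain ⟨h1, C, hC, D, hD⟩ := h
  refine ⟨fun x y => ?_, C, hC, D.pullback π e hπ, ?_⟩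
  · have := (h1 (π x) (π y)).lift π.symm (p := Stp act')
      (fun a b hab => hab.map π e hπ)
    simpa [Function.onFun] using this
  · intro c x y hx hy
    have hx' : D.pv c (π x) = none := by
      simpa [ForestData.pullback] using hx
    have hy' : D.pv c (π y) = none := by
      simpa [ForestData.pullback] using hy
    have := (hD c (π x) (π y) hx' hy').lift π.symm
      (p := fun x y => (D.pullback π e hπ).pv c y = none ∧ Stp act' x y)
      (fun a b hab => ⟨by simpa [ForestData.pullback] using hab.1, hab.2.map π e hπ⟩)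
    simpa only [Function.onFun, Equiv.symm_apply_apply] using this

/-! ### the step -/

section

variable (τ : Perm X) (m : ℕ)

theorem stpS_old {x y : X} (k : Fin (m + 1)) (h : Stp act x y) :
    Stp (actS act τ m) (x, k) (y, k) := by
  obtain ⟨⟨l, β⟩, rfl⟩ := h
  exact ⟨(some l, β), (stp_actS_some act τ m l β x k).symm⟩

theorem stpS_up (v : X) {k : Fin (m + 1)} (hk : k ≠ Fin.last m) :
    Stp (actS act τ m) (v, k) (v, k + 1) :=
  ⟨(none, true), (stp_actS_up act τ m hk).symm⟩

theorem stpS_down (v : X) {k : Fin (m + 1)} (hk : k ≠ 0) :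
    Stp (actS act τ m) (v, k) (v, k - 1) :=
  ⟨(none, false), (stp_actS_down act τ m hk).symm⟩

/-- down to the layer `j` -/
theorem stpS_downs (v : X) (j : Fin (m + 1)) : ∀ (n : ℕ) (k : Fin (m + 1)), k.val = j.val + n →
    ReflTransGen (fun p q : X × Fin (m + 1) => j ≤ q.2 ∧ Stp (actS act τ m) p q) (v, k) (v, j) := by
  intro n
  induction n with
  | zero =>
    intro k hk
    have : k = j := Fin.ext (by simpa using hk)
    rw [this]
  | succ n ih =>
    intro k hk
    have hk0 : k ≠ 0 := by
      rintro rfl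
      simp at hk
    have h1 : (k - 1).val = k.val - 1 := Fin.val_sub_one_of_ne_zero hk0
    refine ReflTransGen.head ⟨?_, stpS_down τ m v hk0⟩ (ih _ (by omega))
    rw [Fin.le_def, h1]
    omega

/-- up from the layer `j` -/
theorem stpS_ups (v : X) (j : Fin (m + 1)) : ∀ (n : ℕ) (k : Fin (m + 1)), k.val = j.val + n →
    ReflTransGen (fun p q : X × Fin (m + 1) => j ≤ q.2 ∧ Stp (actS act τ m) p q) (v, j) (v, k) := by
  intro n
  induction n with
  | zero =>
    intro k hk
    have : k = j := Fin.ext (by simpa using hk)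
    rw [this]
  | succ n ih =>
    intro k hk
    have hk0 : k ≠ 0 := by
      rintro rfl
      simp at hk
    have h1 : (k - 1).val = k.val - 1 := Fin.val_sub_one_of_ne_zero hk0
    refine ReflTransGen.tail (ih (k - 1) (by omega)) ⟨?_, (stpS_down τ m v hk0).symm⟩
    rw [Fin.le_def]
    simp only
    omega

theorem stpS_join (hconn : Conn act) (j : Fin (m + 1)) {p q : X × Fin (m + 1)} (hp : j ≤ p.2)
    (hq : j ≤ q.2) :
    ReflTransGen (fun p q : X × Fin (m + 1) => j ≤ q.2 ∧ Stp (actS act τ m) p q) p q := by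
  obtain ⟨v, k⟩ := p
  obtain ⟨w, k'⟩ := q
  have h1 := stpS_downs (act := act) τ m v j (k.val - j.val) k (by
    have : j.val ≤ k.val := hp
    omega)
  have h2 := stpS_ups (act := act) τ m w j (k'.val - j.val) k' (by
    have : j.val ≤ k'.val := hq
    omega)
  have h3 := (hconn v w).lift (fun x => (x, j))
    (p := fun p q : X × Fin (m + 1) => j ≤ q.2 ∧ Stp (actS act τ m) p q)
    (fun a b hab => ⟨le_rfl, stpS_old τ m j hab⟩)
  exact (h1.trans h3).trans h2

theorem conn_actS (hconn : Conn act) : Conn (actS act τ m) := fun _ _ =>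
  ReflTransGen.mono (fun _ _ h => h.2) _ _
    (stpS_join τ m hconn 0 (Fin.zero_le _) (Fin.zero_le _))

theorem tc_stepData (hm : 1 ≤ m) (D : ForestData X L C act) (hconn : Conn act) (hD : TC D) :
    TC (stepData D τ m hm) := by
  have hv1 : (1 : Fin (m + 1)).val = 1 := by
    rw [Fin.val_one']
    exact Nat.mod_eq_of_lt (by omega)
  intro c p q hp hq
  rcases c with _ | c
  · have hn : ∀ r : X × Fin (m + 1), (stepData D τ m hm).pv none r = none ↔ (1 : Fin (m + 1)) ≤ r.2 := by
      intro r
      change (if r.2 = 0 then some (none, false) else none) = none ↔ _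
      by_cases h : r.2 = 0
      · simp only [h, if_true, reduceCtorEq, false_iff]
        intro h'
        rw [Fin.le_def, hv1] at h'
        simp at h'
      · simp only [h, if_false, true_iff]
        rw [Fin.le_def, hv1]
        have : r.2.val ≠ 0 := fun h' => h (Fin.ext h')
        omega
    exact ReflTransGen.mono (fun a b h => ⟨(hn b).2 h.1, h.2⟩) _ _
      (stpS_join τ m hconn 1 ((hn p).1 hp) ((hn q).1 hq))
  · have hn : ∀ r : X × Fin (m + 1), (stepData D τ m hm).pv (some c) r = none ↔
        r.2 = 0 ∧ D.pv c r.1 = none := by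
      intro r
      change pvS D m (some c) r = none ↔ _
      simp only [pvS]
      rw [ext_none]
      by_cases h : r.2 = 0
      · simp [h, od_zero, mv]
      · simp [h]
    obtain ⟨v, k⟩ := p
    obtain ⟨w, k'⟩ := q
    obtain ⟨h1, h2⟩ := (hn _).1 hp
    obtain ⟨h3, h4⟩ := (hn _).1 hq
    simp only at h1 h2 h3 h4
    subst h1
    subst h3
    exact (hD c v w h2 h4).lift (fun x => (x, (0 : Fin (m + 1))))
      (fun a b hab => ⟨(hn _).2 ⟨rfl, hab.1⟩, stpS_old τ m 0 hab.2⟩)

theorem HasTC.step (hm : 1 ≤ m) (h : HasTC X act) : HasTC (X × Fin (m + 1)) (actS act τ m) := by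
  obtain ⟨h1, C, hC, D, hD⟩ := h
  exact ⟨conn_actS τ m h1, Option C, inferInstance, stepData D τ m hm, tc_stepData τ m hm D h1 hD⟩

end

end

section

variable {G : Type} [AddCommGroup G]

/-- `K' × {0, ..., q - 1} ≃ K` -/
theorem exists_layers {K' K : AddSubgroup G} {b : G} (hb : IsOfFinAddOrder b) (hbK : b ∉ K')
    (hK : K' ⊔ AddSubgroup.zmultiples b = K) :
    ∃ (m : ℕ) (_ : 1 ≤ m) (_ : (m + 1) • b ∈ K') (ψ : K' × Fin (m + 1) ≃ K),
      ∀ u k, (ψ (u, k) : G) = u + (k : ℕ) • b := by
  classical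
  set q := addOrderOf (QuotientAddGroup.mk b : G ⧸ K') with hq
  have hqn : ∀ n : ℤ, n • b ∈ K' ↔ (q : ℤ) ∣ n := by
    intro n
    rw [addOrderOf_dvd_iff_zsmul_eq_zero, ← QuotientAddGroup.mk_zsmul,
      QuotientAddGroup.eq_zero_iff]
  have hq0 : q ≠ 0 := by
    intro h
    obtain ⟨n, hn, h1⟩ := isOfFinAddOrder_iff_zsmul_eq_zero.1 hb
    have h2 := (hqn n).1 (by rw [h1]; exact K'.zero_mem)
    rw [h] at h2
    exact hn (by simpa using h2)
  have hq1 : q ≠ 1 := by
    intro h
    apply hbK
    have := (hqn 1).2 (by rw [h]; simp)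
    rwa [one_zsmul] at this
  obtain ⟨m, hm⟩ : ∃ m, q = m + 1 := ⟨q - 1, by omega⟩
  have hle : K' ≤ K := hK ▸ le_sup_left
  have hbK2 : b ∈ K := hK ▸ (le_sup_right : AddSubgroup.zmultiples b ≤ _)
    (AddSubgroup.mem_zmultiples _)
  have hmb : (m + 1) • b ∈ K' := by
    have := (hqn ((m + 1 : ℕ) : ℤ)).2 (by rw [hm])
    rwa [natCast_zsmul] at this
  let F : K' × Fin (m + 1) → K := fun p =>
    ⟨p.1 + (p.2 : ℕ) • b, K.add_mem (hle p.1.2) (K.nsmul_mem hbK2 _)⟩
  have hF : Function.Bijective F := by
    constructor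
    · rintro ⟨u, k⟩ ⟨u', k'⟩ h
      have h1 : (u : G) + (k : ℕ) • b = u' + (k' : ℕ) • b := congrArg Subtype.val h
      have h2 : ((k : ℤ) - (k' : ℤ)) • b ∈ K' := by
        have : ((k : ℤ) - (k' : ℤ)) • b = (u' : G) - u := by
          rw [sub_smul, natCast_zsmul, natCast_zsmul, sub_eq_sub_iff_add_eq_add, add_comm, h1,
            add_comm]
        rw [this]
        exact K'.sub_mem u'.2 u.2
      have h3 := (hqn _).1 h2
      have h4 : (k : ℤ) - (k' : ℤ) = 0 := by
        apply Int.eq_zero_of_abs_lt_dvd h3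
        have := k.is_lt
        have := k'.is_lt
        rw [abs_lt]
        constructor <;> omega
      have h5 : k = k' := Fin.ext (by omega)
      subst h5
      have h6 : (u : G) = u' := add_right_cancel h1
      rw [Subtype.ext h6]
    · rintro ⟨x, hx⟩
      have hx' := hx
      rw [← hK, AddSubgroup.mem_sup] at hx'
      obtain ⟨y, hy, z, hz, hyz⟩ := hx'
      obtain ⟨n, rfl⟩ := AddSubgroup.mem_zmultiples_iff.1 hz
      have hq' : (0 : ℤ) < q := by omega
      have hr0 := Int.emod_nonneg n hq'.ne'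
      have hr1 := Int.emod_lt_of_pos n hq'
      have hd := Int.emod_add_mul_ediv n q
      refine ⟨(⟨y + (q * (n / q)) • b, K'.add_mem hy ((hqn _).2 (Dvd.intro _ rfl))⟩,
        ⟨(n % q).toNat, by omega⟩), Subtype.ext ?_⟩
      change y + ((q : ℤ) * (n / q)) • b + (n % q).toNat • b = x
      rw [← hyz, ← natCast_zsmul b, Int.toNat_of_nonneg hr0, add_assoc, ← add_smul]
      congr 2
      omega
  exact ⟨m, by omega, hmb, Equiv.ofBijective F hF, fun u k => rfl⟩

variable {I : Type} [DecidableEq I] {f : I → G}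

/-- chain independent families have forest data with connected tails -/
theorem ci_tc {B : Finset I} (h : Part.CI (fun i => AddSubgroup.zmultiples (f i)) ⊥ B)
    (hord : ∀ i ∈ B, IsOfFinAddOrder (f i)) :
    HasTC (sp f B) (fun i : B => Equiv.addRight (⟨f i, mem_sp i.2⟩ : sp f B)) := by
  induction h with
  | empty =>
    have hsub : Subsingleton (sp f (∅ : Finset I)) := by
      have : sp f (∅ : Finset I) = ⊥ := rfl
      rw [this]
      infer_instance
    obtain ⟨D⟩ := forestData_empty (sp f (∅ : Finset I)) (fun _ => 1)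
    have h0 : HasTC (sp f (∅ : Finset I)) (fun _ : Empty => 1) := by
      refine ⟨fun x y => by rw [Subsingleton.elim x y], Unit, inferInstance, D, ?_⟩
      intro c x y _ _
      rw [Subsingleton.elim x y]
    have : IsEmpty (∅ : Finset I) := ⟨fun i => Finset.notMem_empty _ i.2⟩
    exact h0.comap (Equiv.refl _) (Equiv.equivOfIsEmpty _ _) (fun l => isEmptyElim l)
  | @insert y B hB hy ih =>
    have hy' : f y ∉ sp f B := by
      intro h
      apply hy
      rw [bot_sup_eq, AddSubgroup.zmultiples_le]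
      exact h
    have hyB : y ∉ B := fun h => hy' (mem_sp h)
    have ih := ih fun i hi => hord i (Finset.mem_insert_of_mem hi)
    obtain ⟨m, hm, hmb, ψ, hψ⟩ := exists_layers (hord y (Finset.mem_insert_self _ _)) hy'
      (sp_insert y B).symm
    have h1 := ih.step (Equiv.addRight (⟨(m + 1) • f y, hmb⟩ : sp f B)) m hm
    refine h1.comap ψ.symm (Finset.subtypeInsertEquivOption hyB) ?_
    intro l x
    obtain ⟨l, rfl⟩ := (Finset.subtypeInsertEquivOption hyB).symm.surjective l
    obtain ⟨⟨u, k⟩, rfl⟩ := ψ.surjective x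
    rw [Equiv.apply_symm_apply, Equiv.symm_apply_apply, Equiv.symm_apply_eq]
    apply Subtype.ext
    rcases l with _ | l
    · change (ψ (u, k) : G) + f y = ψ (rot _ m (u, k))
      rw [hψ]
      by_cases hk : k = Fin.last m
      · subst hk
        have e1 : rot (Equiv.addRight (⟨(m + 1) • f y, hmb⟩ : sp f B)) m (u, Fin.last m) =
            (u + ⟨(m + 1) • f y, hmb⟩, 0) := by
          change (if Fin.last m = Fin.last m then _ else _, Fin.last m + 1) = _
          rw [if_pos rfl, Fin.last_add_one]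
          rfl
        rw [e1, hψ]
        simp only [AddSubgroup.coe_add, Fin.val_last, Fin.val_zero, zero_smul, add_zero]
        rw [add_smul, one_smul, add_assoc]
      · have e1 : rot (Equiv.addRight (⟨(m + 1) • f y, hmb⟩ : sp f B)) m (u, k) = (u, k + 1) := by
          change (if k = Fin.last m then _ else _, k + 1) = _
          rw [if_neg hk]
        rw [e1, hψ, Fin.val_add_one_of_lt (Fin.lt_last_iff_ne_last.2 hk), add_smul, one_smul,
          add_assoc]
    · change (ψ (u, k) : G) + f l = ψ (u + ⟨f l, _⟩, k)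
      rw [hψ, hψ]
      simp only [AddSubgroup.coe_add]
      abel

end

/-! ### spreading over the cosets -/

section

variable {T : Type} [AddCommGroup T] {L : Type}

/-- forest data in `K`, tails joined by labels or elements of `P` -/
def Spr (a : L → T) (P : Set T) (K : AddSubgroup T) : Prop :=
  ∃ (h : ∀ l, a l ∈ K) (C : Type) (_ : Countable C)
    (D : ForestData K L C (fun l => Equiv.addRight (⟨a l, h l⟩ : K))),
    ∀ c x y, D.pv c x = none → D.pv c y = none → ReflTransGen (fun x y : K => D.pv c y = none ∧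
      (Stp (fun l => Equiv.addRight (⟨a l, h l⟩ : K)) x y ∨
        ∃ s ∈ P, (y : T) = x + s ∨ (x : T) = y + s)) x y

theorem Spr.step {a : L → T} {P : Set T} {K' K : AddSubgroup T} (h : Spr a P K') {b : T}
    (hbP : b ∈ P) (hb : IsOfFinAddOrder b) (hK : K' ⊔ AddSubgroup.zmultiples b = K) :
    Spr a P K := by
  classical
  by_cases hbK : b ∈ K'
  · have : K' = K := by
      rw [← hK, eq_comm, sup_eq_left, AddSubgroup.zmultiples_le]
      exact hbK
    rwa [← this]
  obtain ⟨hL, C, hC, D, hD⟩ := h
  obtain ⟨m, hm, hmb, ψ, hψ⟩ := exists_layers hb hbK hK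
  have hle : K' ≤ K := hK ▸ le_sup_left
  have hL' : ∀ l, a l ∈ K := fun l => hle (hL l)
  let π : K → K' := fun x => (ψ.symm x).1
  have hπ : ∀ (l : L) (x : K), π (Equiv.addRight (⟨a l, hL' l⟩ : K) x) =
      Equiv.addRight (⟨a l, hL l⟩ : K') (π x) := by
    intro l x
    obtain ⟨⟨u, k⟩, rfl⟩ := ψ.surjective x
    have e1 : Equiv.addRight (⟨a l, hL' l⟩ : K) (ψ (u, k)) = ψ (u + ⟨a l, hL l⟩, k) := by
      apply Subtype.ext
      change (ψ (u, k) : T) + a l = _
      rw [hψ, hψ]
      simp only [AddSubgroup.coe_add]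
      abel
    simp only [π, e1, Equiv.symm_apply_apply]
    rfl
  refine ⟨hL', C, hC, D.pullback π (Equiv.refl L) hπ, ?_⟩
  set D' := D.pullback π (Equiv.refl L) hπ with hD'
  have hpv : ∀ c x, D'.pv c x = none ↔ D.pv c (π x) = none := by
    intro c x
    simp [hD', ForestData.pullback]
  set R : C → K → K → Prop := fun c x y => D'.pv c y = none ∧
      (Stp (fun l => Equiv.addRight (⟨a l, hL' l⟩ : K)) x y ∨
        ∃ s ∈ P, (y : T) = x + s ∨ (x : T) = y + s) with hR
  -- inside one layer
  have h1 : ∀ c (k : Fin (m + 1)) (u v : K'), D.pv c u = none → D.pv c v = none →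
      ReflTransGen (R c) (ψ (u, k)) (ψ (v, k)) := by
    intro c k u v hu hv
    refine (hD c u v hu hv).lift (fun u => ψ (u, k)) ?_
    rintro u v ⟨hv, h⟩
    refine ⟨?_, ?_⟩
    · rw [hpv]
      simpa [π] using hv
    · rcases h with ⟨⟨l, β⟩, rfl⟩ | ⟨s, hs, h⟩
      · left
        refine ⟨(l, β), ?_⟩
        apply Subtype.ext
        cases β
        · change (ψ (u + -⟨a l, hL l⟩, k) : T) = ψ (u, k) + -a l
          rw [hψ, hψ]
          simp only [AddSubgroup.coe_add, AddSubgroup.coe_neg]
          abel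
        · change (ψ (u + ⟨a l, hL l⟩, k) : T) = ψ (u, k) + a l
          rw [hψ, hψ]
          simp only [AddSubgroup.coe_add]
          abel
      · right
        refine ⟨s, hs, ?_⟩
        rw [hψ, hψ]
        rcases h with h | h
        · left
          rw [h]
          abel
        · right
          rw [h]
          abel
  -- between the layers
  have h2 : ∀ c (u : K'), D.pv c u = none → ∀ (n : ℕ) (k : Fin (m + 1)), k.val = n →
      ReflTransGen (R c) (ψ (u, k)) (ψ (u, 0)) ∧ ReflTransGen (R c) (ψ (u, 0)) (ψ (u, k)) := by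
    intro c u hu n
    induction n with
    | zero =>
      intro k hk
      have : k = 0 := Fin.ext hk
      rw [this]
      exact ⟨ReflTransGen.refl, ReflTransGen.refl⟩
    | succ n ih =>
      intro k hk
      have hk0 : k ≠ 0 := by
        rintro rfl
        simp at hk
      have h3 : (k - 1).val = k.val - 1 := Fin.val_sub_one_of_ne_zero hk0
      have h4 : (ψ (u, k) : T) = ψ (u, k - 1) + b := by
        rw [hψ, hψ, h3, hk, Nat.add_sub_cancel, add_smul, one_smul, add_assoc]
      obtain ⟨i1, i2⟩ := ih (k - 1) (by omega)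
      refine ⟨ReflTransGen.head ⟨?_, Or.inr ⟨b, hbP, Or.inr h4⟩⟩ i1,
        ReflTransGen.tail i2 ⟨?_, Or.inr ⟨b, hbP, Or.inl h4⟩⟩⟩
      · rw [hpv]
        simpa [π] using hu
      · rw [hpv]
        simpa [π] using hu
  intro c x y hx hy
  obtain ⟨⟨u, k⟩, rfl⟩ := ψ.surjective x
  obtain ⟨⟨v, k'⟩, rfl⟩ := ψ.surjective y
  have hu : D.pv c u = none := by
    rw [hpv] at hx
    simpa [π] using hx
  have hv : D.pv c v = none := by
    rw [hpv] at hy
    simpa [π] using hy
  exact ((h2 c u hu _ k rfl).1.trans (h1 c 0 u v hu hv)).trans (h2 c v hv _ k' rfl).2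

theorem Spr.all {a : L → T} {P : Set T} {K : AddSubgroup T} (h : Spr a P K)
    (hP : P.Finite) (hord : ∀ s ∈ P, IsOfFinAddOrder s) :
    Spr a P (K ⊔ AddSubgroup.closure P) := by
  classical
  have key : ∀ Q : Finset T, (Q : Set T) ⊆ P → Spr a P (K ⊔ AddSubgroup.closure Q) := by
    intro Q
    induction Q using Finset.induction_on with
    | empty =>
      intro _
      simpa using h
    | @insert s Q _ ih =>
      intro hQ
      have h1 := ih fun x hx => hQ (by simp [Finset.mem_coe.1 hx])
      have hs : s ∈ P := hQ (by simp)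
      refine h1.step hs (hord s hs) ?_
      rw [Finset.coe_insert, Set.insert_eq, AddSubgroup.closure_union, AddSubgroup.zmultiples_eq_closure,
        sup_assoc, sup_comm (AddSubgroup.closure (Q : Set T))]
  have := key hP.toFinset (by simp)
  simpa using this

/-- the elementary links of the class `k` -/
def PLink {C : Type} (a : L → T) (P : Set T) (D : ForestData T L C (fun l => Equiv.addRight (a l)))
    (k : C) (x y : T) : Prop :=
  (∃ l, D.nx k x = some l ∧ y = stp (fun l => Equiv.addRight (a l)) l x) ∨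
  (∃ l, D.pv k x = some l ∧ y = stp (fun l => Equiv.addRight (a l)) l x) ∨
  ((D.nx k x = none ∨ D.pv k x = none) ∧ (D.nx k y = none ∨ D.pv k y = none) ∧
    ∃ l, y = stp (fun l => Equiv.addRight (a l)) l x) ∨
  (((D.nx k x = none ∧ D.nx k y = none) ∨ (D.pv k x = none ∧ D.pv k y = none)) ∧
    ∃ s ∈ P, y = x + s ∨ x = y + s)

theorem plink_of_spr [Finite T] {a : L → T} {P : Set T} (h : Spr a P ⊤) :
    ∃ (C : Type) (_ : Countable C) (D : ForestData T L C (fun l => Equiv.addRight (a l))),
      ∀ k x y, ReflTransGen (PLink a P D k) x y := by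
  obtain ⟨hL, C, hC, D, hD⟩ := h
  let e : T ≃ (⊤ : AddSubgroup T) := AddSubgroup.topEquiv.symm.toEquiv
  let D' : ForestData T L C (fun l => Equiv.addRight (a l)) :=
    D.pullback e (Equiv.refl L) (fun l y => rfl)
  have hpv : ∀ c x, D'.pv c x = none ↔ D.pv c (e x) = none := by
    intro c x
    simp [D', ForestData.pullback]
  refine ⟨C, hC, D', ?_⟩
  have hsymm : ∀ k x y, PLink a P D' k x y → PLink a P D' k y x := by
    rintro k x y (⟨⟨l, β⟩, hl, rfl⟩ | ⟨⟨l, β⟩, hl, rfl⟩ | ⟨h1, h2, ⟨l, β⟩, rfl⟩ | ⟨h1, s, hs, h2⟩)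
    · right; left
      exact ⟨(l, !β), (D'.inv k x l β).1 hl, (stp_stp _ l β x).symm⟩
    · left
      refine ⟨(l, !β), ?_, (stp_stp _ l β x).symm⟩
      rw [D'.inv, stp_stp, Bool.not_not]
      exact hl
    · right; right; left
      exact ⟨h2, h1, ⟨(l, !β), (stp_stp _ l β x).symm⟩⟩
    · right; right; right
      exact ⟨h1.imp (fun h => ⟨h.2, h.1⟩) (fun h => ⟨h.2, h.1⟩), s, hs, h2.symm⟩
  have hsymm' : ∀ k x y, ReflTransGen (PLink a P D' k) x y → ReflTransGen (PLink a P D' k) y x := by
    intro k x y h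
    induction h with
    | refl => exact ReflTransGen.refl
    | tail _ hbc ih => exact ReflTransGen.head (hsymm k _ _ hbc) ih
  -- to the tail
  have htail : ∀ k x, ∃ t, D'.pv k t = none ∧ ReflTransGen (PLink a P D' k) x t := by
    intro k x
    induction x using (D'.wf_pv k).induction with
    | _ x ih =>
      rcases hx : D'.pv k x with _ | l
      · exact ⟨x, hx, ReflTransGen.refl⟩
      · obtain ⟨t, ht, h⟩ := ih _ ⟨l, hx, rfl⟩
        exact ⟨t, ht, ReflTransGen.head (Or.inr (Or.inl ⟨l, hx, rfl⟩)) h⟩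
  have htt : ∀ k x y, D'.pv k x = none → D'.pv k y = none → ReflTransGen (PLink a P D' k) x y := by
    intro k x y hx hy
    have h1 := hD k (e x) (e y) ((hpv k x).1 hx) ((hpv k y).1 hy)
    have h2 : ∀ z, ReflTransGen (fun x y : (⊤ : AddSubgroup T) => D.pv k y = none ∧
      (Stp (fun l => Equiv.addRight (⟨a l, hL l⟩ : (⊤ : AddSubgroup T))) x y ∨
        ∃ s ∈ P, (y : T) = x + s ∨ (x : T) = y + s)) (e x) z → D'.pv k (z : T) = none ∧
        ReflTransGen (PLink a P D' k) x (z : T) := by
      intro z hz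
      induction hz with
      | refl => exact ⟨hx, ReflTransGen.refl⟩
      | @tail b c _ hbc ih =>
        obtain ⟨ih1, ih2⟩ := ih
        have hc : D'.pv k (c : T) = none := (hpv k c).2 hbc.1
        refine ⟨hc, ih2.tail ?_⟩
        rcases hbc.2 with ⟨⟨l, β⟩, rfl⟩ | ⟨s, hs, h⟩
        · right; right; left
          refine ⟨Or.inr ih1, Or.inr hc, (l, β), ?_⟩
          cases β
          · rfl
          · rfl
        · right; right; right
          exact ⟨Or.inr ⟨ih1, hc⟩, s, hs, h⟩
    exact (h2 (e y) h1).2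
  intro k x y
  obtain ⟨t, ht, h1⟩ := htail k x
  obtain ⟨t', ht', h2⟩ := htail k y
  exact (h1.trans (htt k t t' ht ht')).trans (hsymm' _ _ _ h2)

/-- **Column theorem.** A chain independent family `f` on `B` in a finite group `T` which is
generated by `P` has forest data on `T` all of whose classes are linked. -/
theorem exists_col [Finite T] {I : Type} [DecidableEq I] {f : I → T} {B : Finset I}
    (h : Part.CI (fun i => AddSubgroup.zmultiples (f i)) ⊥ B) (P : Set T)
    (hP : AddSubgroup.closure P = ⊤) :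
    ∃ (C : Type) (_ : Countable C)
      (D : ForestData T B C (fun l : B => Equiv.addRight (f l))),
      ∀ k x y, ReflTransGen (PLink (fun l : B => f l) P D k) x y := by
  have hord : ∀ x : T, IsOfFinAddOrder x := fun x => isOfFinAddOrder_of_finite x
  obtain ⟨-, C, hC, D, hD⟩ := ci_tc h fun i _ => hord _
  have h1 : Spr (fun l : B => f l) P (sp f B) := by
    refine ⟨fun l => mem_sp l.2, C, hC, D, fun c x y hx hy => ?_⟩
    exact ReflTransGen.mono (fun a b hab => ⟨hab.1, Or.inl hab.2⟩) _ _ (hD c x y hx hy)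
  have h2 := h1.all P.toFinite fun s _ => hord s
  rw [hP, sup_top_eq] at h2
  exact plink_of_spr h2

end

end Pool.Agent.Helper43.LA
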