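import Pool.Agent.Helper43.LA.Blocks
import Pool.Agent.Helper43.LA.Main

/-!
# At least three generators of infinite order
-/

namespace Pool.Agent.Helper43.LA

open Equiv Pool.Agent.Helper39.HD Pool.Agent.Helper82

section

variable {Γ : Type} [AddCommGroup Γ]

theorem sp_map {G G' I : Type} [AddCommGroup G] [AddCommGroup G'] [DecidableEq I] (ψ : G →+ G')
    (f : I → G) (B : Finset I) : sp (fun i => ψ (f i)) B = (sp f B).map ψ := by
  induction B using Finset.induction_on with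
  | empty =>
    have e1 : sp f (∅ : Finset I) = ⊥ := rfl
    have e2 : sp (fun i => ψ (f i)) (∅ : Finset I) = ⊥ := rfl
    rw [e1, e2, AddSubgroup.map_bot]
  | insert x B _ ih =>
    rw [sp_insert, sp_insert, AddSubgroup.map_sup, ih, AddMonoidHom.map_zmultiples]

theorem ci_map {G G' I : Type} [AddCommGroup G] [AddCommGroup G'] [DecidableEq I] (ψ : G →+ G')
    (hψ : ∀ x, IsOfFinAddOrder x → ψ x = 0 → x = 0) {f : I → G} {B : Finset I}
    (h : Part.CI (fun i => AddSubgroup.zmultiples (f i)) ⊥ B)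
    (hord : ∀ i ∈ B, IsOfFinAddOrder (f i)) :
    Part.CI (fun i => AddSubgroup.zmultiples (ψ (f i))) ⊥ B := by
  induction h with
  | empty => exact Part.CI.empty
  | @insert x B hB hx ih =>
    refine Part.CI.insert (ih fun i hi => hord i (Finset.mem_insert_of_mem hi)) ?_
    intro hle
    apply hx
    rw [bot_sup_eq, AddSubgroup.zmultiples_le] at hle ⊢
    have h1 : ψ (f x) ∈ sp (fun i => ψ (f i)) B := hle
    rw [sp_map] at h1
    obtain ⟨m, hm, hmx⟩ := AddSubgroup.mem_map.1 h1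
    have hfin := sp_finite (f := f) (B := B) fun i hi => hord i (Finset.mem_insert_of_mem hi)
    have hm1 : IsOfFinAddOrder m := by
      obtain ⟨n, hn, h⟩ := isOfFinAddOrder_iff_nsmul_eq_zero.1
        (isOfFinAddOrder_of_finite (⟨m, hm⟩ : sp f B))
      exact isOfFinAddOrder_iff_nsmul_eq_zero.2 ⟨n, hn, by simpa using congrArg Subtype.val h⟩
    have h2 : f x - m = 0 := by
      apply hψ
      · rw [sub_eq_add_neg]
        exact (hord x (Finset.mem_insert_self _ _)).add hm1.neg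
      · rw [map_sub, hmx, sub_self]
    rw [sub_eq_zero.1 h2]
    exact hm

theorem blockData_fdin {b a : Γ} {B : Finset Γ} {K : AddSubgroup (Γ ⧸ AddSubgroup.zmultiples b)}
    [Finite K] (h : FDIn (fun s : Γ => (QuotientAddGroup.mk s : Γ ⧸ AddSubgroup.zmultiples b)) B K)
    (hab : ∀ i j : ℤ, i • a = j • b → i = 0) : Nonempty (BlockData b a (B : Set Γ)) := by
  obtain ⟨h1, h2⟩ := h
  refine blockData_near K (fun s hs => h1 s hs) ?_ hab
  exact h2.comap id (Equiv.refl _) (fun l y => rfl)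

theorem top_aux [Countable Γ] (S : Set Γ) (hfin : S.Finite)
    (hS : ∀ s ∈ S, -s ∉ S) (hgen : AddSubgroup.closure S = ⊤)
    (hrank : ∃ x y : Γ, ∀ i j : ℤ, i • x = j • y → i = 0 ∧ j = 0)
    {b : Γ} (hb : b ∈ Sinf S) (hbmult : ∀ s ∈ S, s ≠ b → ∀ j : ℤ, s ≠ j • b)
    (P : Set Γ) (B : Finset Γ) (hPB : Disjoint P (B : Set Γ)) (hP : P ⊆ Sfin S)
    (hcov : Sfin S ⊆ P ∪ B) (hB : ∀ s ∈ B, s ∈ S ∧ s ≠ b ∧ s ∈ near b)
    (K : AddSubgroup Γ) (hK : Finite K) (hPK : P ⊆ K) (hFD : HasFD K (fam P K))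
    (hFB : ∃ K' : AddSubgroup (Γ ⧸ AddSubgroup.zmultiples b), Finite K' ∧
      FDIn (fun s : Γ => (QuotientAddGroup.mk s : Γ ⧸ AddSubgroup.zmultiples b)) B K')
    (hcard : {s ∈ Sinf S | (s ≠ b ∧ Par s b) ∧ s ∉ B}.ncard + 2 ≤
      {s ∈ Sinf S | ¬ Par s b}.ncard) :
    HasHamiltonDecomposition (SimpleGraph.circulantGraph S) := by
  classical
  have hIfin : (Sinf S).Finite := hfin.subset (Set.sep_subset _ _)
  set SB : Set Γ := {s ∈ Sinf S | (s ≠ b ∧ Par s b) ∧ s ∉ B} with hSB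
  have hSBfin : SB.Finite := hIfin.subset (Set.sep_subset _ _)
  have : Finite SB := hSBfin
  let Q : SB ⊕ Bool → Set Γ := fun i => match i with
    | Sum.inl s => {(s : Γ)}
    | Sum.inr true => P
    | Sum.inr false => (B : Set Γ)
  have hab : ∀ a ∈ Sinf S, ¬ Par a b → ∀ (i j : ℤ), i • a = j • b → i = 0 := by
    intro a ha hpa i j h
    by_contra hi
    by_cases hj : j = 0
    · rw [hj, zero_smul] at h
      exact zsmul_ne_zero_of_inf ha.2 hi h
    · exact hpa ⟨i, j, hi, hj, h⟩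
  have hb0 : ∀ j : ℤ, j • b = 0 → j = 0 := by
    intro j hj
    by_contra h
    exact zsmul_ne_zero_of_inf hb.2 h hj
  have htor : ∀ s, IsOfFinAddOrder s → s ∈ near b := by
    intro s h
    obtain ⟨n, hn', hnx⟩ := isOfFinAddOrder_iff_zsmul_eq_zero.1 h
    exact mem_near.2 ⟨n, 0, hn', by rw [zero_smul]; exact hnx⟩
  have hpar : ∀ s, Par s b → s ∈ near b := by
    rintro s ⟨i, j, hi, -, hij⟩
    exact mem_near.2 ⟨i, j, hi, hij⟩
  refine main_of_blocks S hfin hS hgen hrank hb Q ?_ ?_ ?_ ?_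
  · intro s
    constructor
    · rintro ⟨i, hi⟩
      rcases i with i | _ | _
      · obtain rfl : s = i := hi
        exact ⟨i.2.1.1, i.2.2.1.1, hpar _ i.2.2.1.2⟩
      · exact hB s hi
      · have hs := hP (show s ∈ P from hi)
        exact ⟨hs.1, fun h => hb.2 (h ▸ hs.2), htor _ hs.2⟩
    · rintro ⟨hs, hsb, hn⟩
      by_cases hsB : s ∈ B
      · exact ⟨Sum.inr false, hsB⟩
      by_cases hf : IsOfFinAddOrder s
      · rcases hcov ⟨hs, hf⟩ with h | h
        · exact ⟨Sum.inr true, h⟩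
        · exact absurd h hsB
      · have hp : Par s b := by
          obtain ⟨N, m, hN, h⟩ := mem_near.1 hn
          refine ⟨N, m, hN, ?_, h⟩
          rintro rfl
          rw [zero_smul] at h
          exact zsmul_ne_zero_of_inf hf hN h
        exact ⟨Sum.inl ⟨s, ⟨hs, hf⟩, ⟨hsb, hp⟩, hsB⟩, rfl⟩
  · have d1 : ∀ (i : SB), (i : Γ) ∉ P := fun i h => i.2.1.2 (hP h).2
    have d2 : ∀ (i : SB), (i : Γ) ∉ B := fun i h => i.2.2.2 h
    have d3 : ∀ s, s ∈ P → s ∉ B := fun s h h' => Set.disjoint_left.1 hPB h h'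
    intro i j s hi hj
    rcases i with i | _ | _ <;> rcases j with j | _ | _
    · obtain rfl : s = i := hi
      have : (i : Γ) = j := hj
      rw [Subtype.ext this]
    · obtain rfl : s = i := hi
      exact absurd hj (d2 i)
    · obtain rfl : s = i := hi
      exact absurd hj (d1 i)
    · obtain rfl : s = j := hj
      exact absurd hi (d2 j)
    · rfl
    · exact absurd hi (d3 s hj)
    · obtain rfl : s = j := hj
      exact absurd hi (d1 j)
    · exact absurd hj (d3 s hi)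
    · rfl
  · rw [Nat.card_sum, Nat.card_coe_set_eq]
    have : Nat.card Bool = 2 := by simp
    rw [this]
    exact hcard
  · intro i a ha hpa
    rcases i with i | _ | _
    · exact blockData_single i.2.2.1.2 (hbmult i i.2.1.1 i.2.2.1.1) (hab a ha hpa)
    · obtain ⟨K', hK', h⟩ := hFB
      exact blockData_fdin h (hab a ha hpa)
    · exact blockData_subgroup K hPK hFD (hab a ha hpa) hb0

theorem top3 [Countable Γ] [DecidableEq Γ] (S : Set Γ) (hfin : S.Finite)
    (hS : ∀ s ∈ S, -s ∉ S) (hgen : AddSubgroup.closure S = ⊤)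
    (hrank : ∃ x y : Γ, ∀ i j : ℤ, i • x = j • y → i = 0 ∧ j = 0)
    (h3 : 3 ≤ (Sinf S).ncard) (P : Set Γ) (L : Finset Γ) (hPL : P ∪ L = Sfin S)
    (hdisj : Disjoint P (L : Set Γ)) (K : AddSubgroup Γ) (hK : Finite K) (hPK : P ⊆ K)
    (hFD : HasFD K (fam P K)) (hL : Part.CI (fun s : Γ => AddSubgroup.zmultiples s) ⊥ L) :
    HasHamiltonDecomposition (SimpleGraph.circulantGraph S) := by
  classical
  obtain ⟨b, hb, hbmult, hcard⟩ := group_theory S hfin hS hgen hrank
  obtain ⟨e1, e2⟩ := sinf_split hfin hb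
  have hIfin : (Sinf S).Finite := hfin.subset (Set.sep_subset _ _)
  have hLS : ∀ s ∈ L, s ∈ Sfin S := fun s hs => hPL ▸ Or.inr hs
  have htor : ∀ s, IsOfFinAddOrder s → s ∈ near b := by
    intro s h
    obtain ⟨n, hn', hnx⟩ := isOfFinAddOrder_iff_zsmul_eq_zero.1 h
    exact mem_near.2 ⟨n, 0, hn', by rw [zero_smul]; exact hnx⟩
  let ψ : Γ →+ Γ ⧸ AddSubgroup.zmultiples b := QuotientAddGroup.mk' _
  have hψ : ∀ x, IsOfFinAddOrder x → ψ x = 0 → x = 0 := by
    intro x hx h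
    obtain ⟨j, rfl⟩ := AddSubgroup.mem_zmultiples_iff.1 ((QuotientAddGroup.eq_zero_iff _).1 h)
    obtain ⟨n, hn, h1⟩ := isOfFinAddOrder_iff_zsmul_eq_zero.1 hx
    rw [smul_smul] at h1
    have h2 : n * j = 0 := by
      by_contra hne
      exact zsmul_ne_zero_of_inf hb.2 hne h1
    rw [(mul_eq_zero.1 h2).resolve_left hn, zero_smul]
  have hCI : Part.CI (fun s : Γ => AddSubgroup.zmultiples
      (QuotientAddGroup.mk s : Γ ⧸ AddSubgroup.zmultiples b)) ⊥ L :=
    ci_map (f := fun s : Γ => s) ψ hψ hL fun s hs => (hLS s hs).2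
  have hordψ : ∀ s, IsOfFinAddOrder s →
      IsOfFinAddOrder (QuotientAddGroup.mk s : Γ ⧸ AddSubgroup.zmultiples b) := by
    intro s hs
    exact ψ.isOfFinAddOrder hs
  have hB1 : ∀ s ∈ L, s ∈ S ∧ s ≠ b ∧ s ∈ near b := fun s hs =>
    ⟨(hLS s hs).1, fun h => hb.2 (h ▸ (hLS s hs).2), htor _ (hLS s hs).2⟩
  have hcov : Sfin S ⊆ P ∪ L := hPL.ge
  have hPS : P ⊆ Sfin S := fun s hs => hPL ▸ Or.inl hs
  by_cases hc : {s ∈ Sinf S | s ≠ b ∧ Par s b}.ncard + 2 ≤ {s ∈ Sinf S | ¬ Par s b}.ncard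
  · refine top_aux S hfin hS hgen hrank hb hbmult P L hdisj hPS hcov hB1 K hK hPK hFD ?_ ?_
    · exact ⟨_, sp_finite fun s hs => hordψ s (hLS s hs).2,
        ci_fd hCI fun s hs => hordψ s (hLS s hs).2⟩
    · refine le_trans (Nat.add_le_add_right (Set.ncard_le_ncard ?_ ?_) 2) hc
      · rintro s ⟨h1, h2, -⟩
        exact ⟨h1, h2⟩
      · exact hIfin.subset (Set.sep_subset _ _)
  · -- equal classes: one further element of the class of `b` is put to `L`
    have hpos : 0 < {s ∈ Sinf S | s ≠ b ∧ Par s b}.ncard := by omega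
    obtain ⟨b2, hb2⟩ := (Set.ncard_pos (hIfin.subset (Set.sep_subset _ _))).1 hpos
    have hb2L : b2 ∉ L := fun h => hb2.1.2 (hLS b2 h).2
    have hb2n : b2 ∈ near b := by
      obtain ⟨i, j, hi, -, hij⟩ := hb2.2.2
      exact mem_near.2 ⟨i, j, hi, hij⟩
    refine top_aux S hfin hS hgen hrank hb hbmult P (insert b2 L) ?_ hPS ?_ ?_ K hK hPK hFD ?_ ?_
    · rw [Set.disjoint_left]
      intro s hs hs'
      rcases Finset.mem_insert.1 (Finset.mem_coe.1 hs') with rfl | h
      · exact hb2.1.2 (hPS hs).2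
      · exact Set.disjoint_left.1 hdisj hs h
    · intro s hs
      rcases hcov hs with h | h
      · exact Or.inl h
      · exact Or.inr (Finset.mem_coe.2 (Finset.mem_insert_of_mem h))
    · intro s hs
      rcases Finset.mem_insert.1 hs with rfl | h
      · exact ⟨hb2.1.1, hb2.2.1, hb2n⟩
      · exact hB1 s h
    · refine ci_fd_insert hCI ?_ ?_ (fun s hs => hordψ s (hLS s hs).2) ?_ hb2L
      · intro h
        obtain ⟨j, hj⟩ := AddSubgroup.mem_zmultiples_iff.1 ((QuotientAddGroup.eq_zero_iff _).1 h)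
        exact hbmult b2 hb2.1.1 hb2.2.1 j hj.symm
      · obtain ⟨i, j, hi, -, hij⟩ := hb2.2.2
        refine isOfFinAddOrder_iff_zsmul_eq_zero.2 ⟨i, hi, ?_⟩
        rw [← QuotientAddGroup.mk_zsmul, QuotientAddGroup.eq_zero_iff, hij]
        exact AddSubgroup.mem_zmultiples_iff.2 ⟨j, rfl⟩
      · intro s hs h
        have h1 : s + s = 0 := by
          apply hψ
          · exact (hLS s hs).2.add (hLS s hs).2
          · rw [map_add]; exact h
        have h2 : -s = s := neg_eq_of_add_eq_zero_left h1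
        exact hS s (hLS s hs).1 (by rw [h2]; exact (hLS s hs).1)
    · have h5 : {s ∈ Sinf S | (s ≠ b ∧ Par s b) ∧ s ∉ insert b2 L} ⊆
          {s ∈ Sinf S | s ≠ b ∧ Par s b} \ {b2} := by
        rintro s ⟨h1, h2, h3⟩
        exact ⟨⟨h1, h2⟩, fun h => h3 (Finset.mem_insert.2 (Or.inl h))⟩
      have h6 := Set.ncard_le_ncard h5 ((hIfin.subset (Set.sep_subset _ _)).sdiff)
      have h7 := Set.ncard_sdiff_singleton_add_one hb2 (hIfin.subset (Set.sep_subset _ _))
      omega

end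

end Pool.Agent.Helper43.LA
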