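import Pool.Agent.Helper43.LA.Defs
import Pool.Agent.Helper39.HD.Orient

namespace Pool.Agent.Helper43.LA

open Equiv Pool.Agent.Helper39.HD

/-! ### LA-PETERSEN: equivariant 2-factorisation -/

private theorem pet_matching {E W : Type} [Finite E] {m : ℕ} (a b : E → W)
    (ha : ∀ w, Nat.card {e // a e = w} = m + 1) (hb : ∀ w, Nat.card {e // b e = w} = m + 1) :
    ∃ g : W → E, (∀ w, a (g w) = w) ∧ Function.Bijective (fun w => b (g w)) := by
  classical
  have hsurj : Function.Surjective a := by
    intro w
    have h1 : 0 < Nat.card {e // a e = w} := by rw [ha]; omega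
    obtain ⟨e⟩ := (Nat.card_pos_iff.1 h1).1
    exact ⟨e.1, e.2⟩
  have hW : Finite W := Finite.of_surjective a hsurj
  have := Fintype.ofFinite W
  have := Fintype.ofFinite E
  let t : W → Finset W := fun w => (Finset.univ.filter (fun e => a e = w)).image b
  have cardfib : ∀ (f : E → W) (hf : ∀ w, Nat.card {e // f e = w} = m + 1) (s : Finset W),
      (Finset.univ.filter (fun e => f e ∈ s)).card = s.card * (m + 1) := by
    intro f hf s
    have h1 : (Finset.univ.filter (fun e => f e ∈ s)).card =
        ∑ w ∈ s, (Finset.univ.filter (fun e => f e = w)).card := by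
      rw [Finset.card_eq_sum_card_fiberwise (f := f) (t := s)]
      · refine Finset.sum_congr rfl fun w hw => ?_
        congr 1
        ext e
        simp only [Finset.mem_filter, Finset.mem_univ, true_and]
        constructor
        · exact fun h => h.2
        · rintro rfl; exact ⟨hw, rfl⟩
      · intro e he
        simpa using he
    rw [h1]
    have h2 : ∀ w ∈ s, (Finset.univ.filter (fun e => f e = w)).card = m + 1 := by
      intro w _
      rw [← hf w, Nat.card_eq_fintype_card, Fintype.card_subtype]
    rw [Finset.sum_congr rfl h2, Finset.sum_const, smul_eq_mul]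
  have hall : ∀ s : Finset W, s.card ≤ (s.biUnion t).card := by
    intro s
    have h1 : (Finset.univ.filter (fun e => a e ∈ s)).card ≤
        (Finset.univ.filter (fun e => b e ∈ s.biUnion t)).card := by
      apply Finset.card_le_card
      intro e he
      simp only [Finset.mem_filter, Finset.mem_univ, true_and] at he ⊢
      rw [Finset.mem_biUnion]
      refine ⟨a e, he, ?_⟩
      simp only [t, Finset.mem_image, Finset.mem_filter, Finset.mem_univ, true_and]
      exact ⟨e, rfl, rfl⟩
    rw [cardfib a ha, cardfib b hb] at h1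
    exact Nat.le_of_mul_le_mul_right h1 (Nat.succ_pos m)
  obtain ⟨f, hf, hft⟩ := (Finset.all_card_le_biUnion_card_iff_exists_injective t).1 hall
  have h1 : ∀ w, ∃ e, a e = w ∧ b e = f w := by
    intro w
    have := hft w
    simp only [t, Finset.mem_image, Finset.mem_filter, Finset.mem_univ, true_and] at this
    exact this
  choose g hg1 hg2 using h1
  refine ⟨g, hg1, ?_⟩
  have h2 : (fun w => b (g w)) = f := funext hg2
  rw [h2]
  exact hf.bijective_of_finite

private theorem pet_koenig {W : Type} : ∀ (m : ℕ) {E : Type} [Finite E] (a b : E → W)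
    (_ : ∀ w, Nat.card {e // a e = w} = m) (_ : ∀ w, Nat.card {e // b e = w} = m),
    ∃ F : E → Fin m, (∀ w q, ∃! e, a e = w ∧ F e = q) ∧ ∀ w q, ∃! e, b e = w ∧ F e = q := by
  intro m
  induction m with
  | zero =>
    intro E _ a b ha hb
    have hE : IsEmpty E := by
      constructor
      intro e
      have h1 := ha (a e)
      rw [Nat.card_eq_zero] at h1
      rcases h1 with h1 | h1
      · exact h1.false ⟨e, rfl⟩
      · exact h1.not_finite inferInstance
    exact ⟨fun e => hE.elim e, fun w q => q.elim0, fun w q => q.elim0⟩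
  | succ m ih =>
    intro E _ a b ha hb
    classical
    obtain ⟨g, hg1, hg2⟩ := pet_matching a b ha hb
    let E' := {e : E // ∀ w, g w ≠ e}
    have hcard : ∀ (f : E → W) (c : W → W) (hf : ∀ w, Nat.card {e // f e = w} = m + 1)
        (hc : ∀ w w', f (g w') = w ↔ w' = c w), ∀ w, Nat.card {e : E' // f e.1 = w} = m := by
      intro f c hf hc w
      have e1 : {e // f e = w} ≃ Option {e : E' // f e.1 = w} :=
        { toFun := fun e => if h : ∀ w', g w' ≠ e.1 then some ⟨⟨e.1, h⟩, e.2⟩ else none
          invFun := fun o => match o with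
            | some e => ⟨e.1.1, e.2⟩
            | none => ⟨g (c w), (hc w (c w)).2 rfl⟩
          left_inv := by
            intro e
            by_cases h : ∀ w', g w' ≠ e.1
            · simp only [dif_pos h]
            · simp only [dif_neg h]
              push Not at h
              obtain ⟨w', hw'⟩ := h
              apply Subtype.ext
              simp only
              rw [← hw']
              congr 1
              have := (hc w w').1 (by rw [hw']; exact e.2)
              exact this.symm
          right_inv := by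
            intro o
            match o with
            | some e =>
              simp only [dif_pos e.1.2]
              rfl
            | none =>
              have h : ¬ ∀ w', g w' ≠ g (c w) := by
                push Not; exact ⟨c w, rfl⟩
              simp only [dif_neg h] }
      have h1 := Nat.card_congr e1
      rw [hf, Finite.card_option] at h1
      omega
    let fe := Equiv.ofBijective _ hg2
    obtain ⟨F', hF1, hF2⟩ := ih (fun e : E' => a e.1) (fun e : E' => b e.1)
      (hcard a id ha (fun w w' => by rw [hg1]; exact Iff.rfl))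
      (hcard b fe.symm hb (fun w w' => by
        rw [Equiv.eq_symm_apply]; exact Iff.rfl))
    let F : E → Fin (m + 1) := fun e => if h : ∀ w', g w' ≠ e then (F' ⟨e, h⟩).castSucc
      else Fin.last m
    have hFg : ∀ w, F (g w) = Fin.last m := by
      intro w
      have h : ¬ ∀ w', g w' ≠ g w := by push Not; exact ⟨w, rfl⟩
      simp only [F, dif_neg h]
    have hFn : ∀ e (h : ∀ w', g w' ≠ e), F e = (F' ⟨e, h⟩).castSucc := by
      intro e h
      simp only [F, dif_pos h]
    have key : ∀ (f : E → W) (c : W → W) (hc : ∀ w w', f (g w') = w ↔ w' = c w)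
        (hF : ∀ w q, ∃! e : E', f e.1 = w ∧ F' e = q), ∀ w q, ∃! e, f e = w ∧ F e = q := by
      intro f c hc hF w q
      refine Fin.lastCases ?_ (fun q => ?_) q
      · refine ⟨g (c w), ⟨(hc w (c w)).2 rfl, hFg _⟩, ?_⟩
        rintro e ⟨he1, he2⟩
        by_cases h : ∀ w', g w' ≠ e
        · rw [hFn e h] at he2
          exact absurd he2 (Fin.castSucc_lt_last _).ne
        · push Not at h
          obtain ⟨w', rfl⟩ := h
          rw [(hc w w').1 he1]
      · obtain ⟨e, ⟨he1, he2⟩, he3⟩ := hF w q
        refine ⟨e.1, ⟨he1, by rw [hFn e.1 e.2, he2]⟩, ?_⟩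
        rintro e' ⟨h1, h2⟩
        by_cases h : ∀ w', g w' ≠ e'
        · rw [hFn e' h] at h2
          have h3 := he3 ⟨e', h⟩ ⟨h1, Fin.castSucc_injective _ h2⟩
          rw [← h3]
        · push Not at h
          obtain ⟨w', rfl⟩ := h
          rw [hFg] at h2
          exact absurd h2.symm (Fin.castSucc_lt_last _).ne
    exact ⟨F, key a id (fun w w' => by rw [hg1]; exact Iff.rfl) hF1,
      key b fe.symm (fun w w' => by rw [Equiv.eq_symm_apply]; exact Iff.rfl) hF2⟩

private theorem pet_main {E W : Type} [Finite E] {m : ℕ} (v : E → W) (ι : E → E)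
    (hι : ∀ e, ι (ι e) = e) (hne : ∀ e, ι e ≠ e) (hc : ∀ w, Nat.card {e // v e = w} = 2 * m) :
    ∃ F : E → Fin m × Bool, (∀ e, F (ι e) = ((F e).1, !(F e).2)) ∧
      ∀ w q, ∃! e, v e = w ∧ F e = q := by
  classical
  have h1 : ∀ w, Nonempty ({e // v e = w} ≃ Fin m × Bool) := by
    intro w
    have : Finite {e // v e = w} := inferInstance
    refine Finite.card_eq.1 ?_
    rw [hc, Nat.card_prod, Nat.card_fin, Nat.card_eq_fintype_card, Fintype.card_bool, mul_comm]
  let φ : ∀ w, {e // v e = w} ≃ Fin m × Bool := fun w => (h1 w).some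
  let Ψ : E ≃ W × (Fin m × Bool) :=
    ((Equiv.sigmaFiberEquiv v).symm.trans (Equiv.sigmaCongrRight φ)).trans
      (Equiv.sigmaEquivProd _ _)
  have hΨ : ∀ e, (Ψ e).1 = v e := fun e => rfl
  have hΨs : ∀ x, v (Ψ.symm x) = x.1 := by
    intro x
    rw [← hΨ, Equiv.apply_symm_apply]
  let fl : Perm (W × (Fin m × Bool)) :=
    Equiv.prodCongr (Equiv.refl W) (Equiv.prodCongr (Equiv.refl (Fin m)) Equiv.boolNot)
  let M : Perm E := (Ψ.trans fl).trans Ψ.symm
  let I : Perm E := ⟨ι, ι, hι, hι⟩
  have hM : ∀ e, M e = Ψ.symm ((Ψ e).1, (Ψ e).2.1, !(Ψ e).2.2) := fun e => rfl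
  obtain ⟨o, ho1, ho2⟩ := Orient.orient_two I M (by
      ext e; exact hι e) (by
      ext e
      show M (M e) = e
      rw [hM, hM, Equiv.apply_symm_apply]
      simp) (fun e => hne e) (by
      intro e he
      rw [hM] at he
      have := congrArg Ψ he
      rw [Equiv.apply_symm_apply] at this
      have h2 := congrArg (fun x => x.2.2) this
      simp at h2)
  have hoι : ∀ e, o (ι e) = !o e := ho1
  have hoM : ∀ w i β, o (Ψ.symm (w, i, !β)) = !o (Ψ.symm (w, i, β)) := by
    intro w i β
    rw [← ho2, hM, Equiv.apply_symm_apply]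
  -- fibres of given orientation
  have hfib : ∀ (β : Bool) (w : W), Nat.card {e // v e = w ∧ o e = β} = m := by
    intro β w
    have e1 : Fin m ≃ {e // v e = w ∧ o e = β} :=
      { toFun := fun i => ⟨Ψ.symm (w, i, o (Ψ.symm (w, i, true)) == β), hΨs _, by
          cases h : o (Ψ.symm (w, i, true)) <;> cases β
          · simp [h]
          · have := hoM w i true
            simp only [Bool.not_true] at this
            simp [this, h]
          · have := hoM w i true
            simp only [Bool.not_true] at this
            simp [this, h]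
          · simp [h]⟩
        invFun := fun e => (Ψ e.1).2.1
        left_inv := by
          intro i
          simp
        right_inv := by
          rintro ⟨e, he1, he2⟩
          apply Subtype.ext
          simp only
          rw [Equiv.symm_apply_eq]
          have h2 : Ψ e = (w, (Ψ e).2.1, (Ψ e).2.2) := by
            rw [← he1, ← hΨ e]
          conv_rhs => rw [h2]
          have h3 : e = Ψ.symm (w, (Ψ e).2.1, (Ψ e).2.2) := by
            rw [← h2, Equiv.symm_apply_apply]
          have h4 : o (Ψ.symm (w, (Ψ e).2.1, (Ψ e).2.2)) = β := by rw [← h3]; exact he2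
          congr 2
          cases h5 : (Ψ e).2.2
          · rw [h5] at h4
            have := hoM w (Ψ e).2.1 false
            simp only [Bool.not_false] at this
            rw [this, h4]
            cases β <;> rfl
          · rw [h5] at h4
            rw [h4]
            cases β <;> rfl }
    rw [← Nat.card_congr e1, Nat.card_fin]
  let E1 := {e // o e = true}
  obtain ⟨F1, hF1, hF2⟩ := pet_koenig m (fun e : E1 => v e.1) (fun e : E1 => v (ι e.1)) (by
      intro w
      rw [← hfib true w]
      exact Nat.card_congr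
        { toFun := fun e => ⟨e.1.1, e.2, e.1.2⟩
          invFun := fun e => ⟨⟨e.1, e.2.2⟩, e.2.1⟩
          left_inv := fun _ => rfl
          right_inv := fun _ => rfl }) (by
      intro w
      rw [← hfib false w]
      exact Nat.card_congr
        { toFun := fun e => ⟨ι e.1.1, e.2, by rw [hoι, e.1.2]; rfl⟩
          invFun := fun e => ⟨⟨ι e.1, by rw [hoι, e.2.2]; rfl⟩, by rw [hι]; exact e.2.1⟩
          left_inv := fun e => by
            apply Subtype.ext; apply Subtype.ext; exact hι _
          right_inv := fun e => by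
            apply Subtype.ext; exact hι _ })
  let F : E → Fin m × Bool := fun e => if h : o e = true then (F1 ⟨e, h⟩, true)
    else (F1 ⟨ι e, by rw [hoι]; simpa using h⟩, false)
  have hFt : ∀ e (h : o e = true), F e = (F1 ⟨e, h⟩, true) := fun e h => by
    simp only [F, dif_pos h]
  have hFf : ∀ e (h : o e = false), F e = (F1 ⟨ι e, by rw [hoι, h]; rfl⟩, false) := fun e h => by
    have h' : ¬ o e = true := by rw [h]; simp
    simp only [F, dif_neg h']
  refine ⟨F, ?_, ?_⟩
  · intro e
    cases h : o e
    · rw [hFf e h, hFt (ι e) (by rw [hoι, h]; rfl)]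
      rfl
    · rw [hFt e h, hFf (ι e) (by rw [hoι, h]; rfl)]
      simp only [hι]
      rfl
  · rintro w ⟨i, β⟩
    cases β
    · obtain ⟨e, ⟨h1, h2⟩, h3⟩ := hF2 w i
      have hoe : o (ι e.1) = false := by rw [hoι, e.2]; rfl
      refine ⟨ι e.1, ⟨h1, ?_⟩, ?_⟩
      · rw [hFf _ hoe]
        have : (⟨ι (ι e.1), by rw [hoι, hoe]; rfl⟩ : E1) = e := Subtype.ext (hι _)
        rw [this, h2]
      · rintro e' ⟨h4, h5⟩
        cases h6 : o e'
        · rw [hFf e' h6] at h5
          have h7 := h3 ⟨ι e', by rw [hoι, h6]; rfl⟩ ⟨by simp only [hι]; exact h4,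
            (Prod.ext_iff.1 h5).1⟩
          rw [← h7]
          exact (hι e').symm
        · rw [hFt e' h6] at h5
          exact absurd (Prod.ext_iff.1 h5).2 (by simp)
    · obtain ⟨e, ⟨h1, h2⟩, h3⟩ := hF1 w i
      refine ⟨e.1, ⟨h1, ?_⟩, ?_⟩
      · rw [hFt _ e.2, h2]
      · rintro e' ⟨h4, h5⟩
        cases h6 : o e'
        · rw [hFf e' h6] at h5
          exact absurd (Prod.ext_iff.1 h5).2 (by simp)
        · rw [hFt e' h6] at h5
          have h7 := h3 ⟨e', h6⟩ ⟨h4, (Prod.ext_iff.1 h5).1⟩
          rw [← h7]

theorem exists_factorization {K : Type} [AddCommGroup K] {m : ℕ} (B : Bundle K m) :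
    ∃ F : B.H → Fin m × Bool, (∀ (k : K) h, F (k +ᵥ h) = F h) ∧
      (∀ h, F (B.ι h) = ((F h).1, !(F h).2)) ∧ ∀ x q, ∃! h, B.v h = x ∧ F h = q := by
  classical
  let E := Quotient (AddAction.orbitRel K B.H)
  let W := Quotient (AddAction.orbitRel K B.V)
  have : Finite E := inferInstance
  let vb : E → W := Quotient.map' B.v (by
    rintro h h' ⟨k, hk⟩
    refine ⟨k, ?_⟩
    simp only at hk ⊢
    rw [← B.v_vadd, hk])
  let ιb : E → E := Quotient.map' B.ι (by
    rintro h h' ⟨k, hk⟩
    refine ⟨k, ?_⟩
    simp only at hk ⊢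
    rw [← B.ι_vadd, hk])
  have hvb : ∀ h, vb (Quotient.mk'' h) = Quotient.mk'' (B.v h) := fun h => rfl
  have hιb : ∀ h, ιb (Quotient.mk'' h) = Quotient.mk'' (B.ι h) := fun h => rfl
  have hsame : ∀ (x : B.V) (h h' : B.H), B.v h = x → B.v h' = x →
      (Quotient.mk'' h : E) = Quotient.mk'' h' → h = h' := by
    intro x h h' hx hx' he
    obtain ⟨k, hk⟩ : ∃ k : K, k +ᵥ h' = h := Quotient.exact' he
    have h1 : k +ᵥ x = x := by
      rw [← hx', ← B.v_vadd, hk, hx, hx']
    rw [← hk, B.free k x h1, zero_vadd]
  have hlift : ∀ (x : B.V) (e : E), vb e = Quotient.mk'' x → ∃ h, B.v h = x ∧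
      Quotient.mk'' h = e := by
    intro x e he
    induction e using Quotient.inductionOn' with
    | h h =>
      obtain ⟨k, hk⟩ : ∃ k : K, k +ᵥ x = B.v h := Quotient.exact' he
      refine ⟨(-k) +ᵥ h, ?_, ?_⟩
      · rw [B.v_vadd, ← hk, neg_vadd_vadd]
      · apply Quotient.sound'
        exact ⟨-k, rfl⟩
  obtain ⟨F, hF1, hF2⟩ := pet_main vb ιb (by
      intro e
      induction e using Quotient.inductionOn' with
      | h h => rw [hιb, hιb, B.ι_ι]) (by
      intro e
      induction e using Quotient.inductionOn' with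
      | h h =>
        intro he
        rw [hιb] at he
        obtain ⟨k, hk⟩ : ∃ k : K, k +ᵥ h = B.ι h := Quotient.exact' he
        exact B.ι_ne k h hk.symm) (m := m) (by
      intro w
      induction w using Quotient.inductionOn' with
      | h x =>
        rw [← B.card x]
        symm
        refine Nat.card_congr (Equiv.ofBijective
          (fun h : {h : B.H // B.v h = x} => (⟨Quotient.mk'' h.1, by rw [hvb, h.2]⟩ :
            {e : E // vb e = Quotient.mk'' x})) ⟨?_, ?_⟩)
        · intro h h' he
          exact Subtype.ext (hsame x h.1 h'.1 h.2 h'.2 (congrArg Subtype.val he))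
        · rintro ⟨e, he⟩
          obtain ⟨h, h1, h2⟩ := hlift x e he
          exact ⟨⟨h, h1⟩, Subtype.ext h2⟩)
  refine ⟨fun h => F (Quotient.mk'' h), ?_, ?_, ?_⟩
  · intro k h
    have : (Quotient.mk'' (k +ᵥ h) : E) = Quotient.mk'' h := by
      apply Quotient.sound'
      exact ⟨k, rfl⟩
    show F (Quotient.mk'' (k +ᵥ h)) = _
    rw [this]
  · intro h
    exact hF1 (Quotient.mk'' h)
  · intro x q
    obtain ⟨e, ⟨h1, h2⟩, h3⟩ := hF2 (Quotient.mk'' x) q
    obtain ⟨h, h4, h5⟩ := hlift x e h1
    refine ⟨h, ⟨h4, by show F (Quotient.mk'' h) = q; rw [h5]; exact h2⟩, ?_⟩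
    rintro h' ⟨h6, h7⟩
    apply hsame x h' h h6 h4
    rw [h5]
    exact h3 _ ⟨by rw [hvb, h6], h7⟩

end Pool.Agent.Helper43.LA
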