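import Pool.Agent.Helper43.LA.Defs
import Pool.Agent.Helper43.LA.Petersen
import Pool.Agent.Helper39.HD.Blocks

namespace Pool.Agent.Helper43.LA

open Equiv Pool.Agent.Helper39.HD

private lemma al_val_add_one {r : ℕ} (hr : 2 ≤ r) (t : ZMod r) :
    (t + 1).val = if t.val + 1 = r then 0 else t.val + 1 := by
  have : NeZero r := ⟨by omega⟩
  have : Fact (1 < r) := ⟨by omega⟩
  have h := ZMod.val_lt t
  rw [ZMod.val_add, ZMod.val_one]
  split_ifs with h1
  · rw [h1, Nat.mod_self]
  · exact Nat.mod_eq_of_lt (by omega)

private lemma al_exists_unique {P : Fin 3 → Prop}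
    (h : (P 0 ∧ ¬ P 1 ∧ ¬ P 2) ∨ (¬ P 0 ∧ P 1 ∧ ¬ P 2) ∨ (¬ P 0 ∧ ¬ P 1 ∧ P 2)) : ∃! i, P i := by
  rcases h with ⟨h0, h1, h2⟩ | ⟨h0, h1, h2⟩ | ⟨h0, h1, h2⟩
  · exact ⟨0, h0, fun i hi => by fin_cases i <;> simp_all⟩
  · exact ⟨1, h1, fun i hi => by fin_cases i <;> simp_all⟩
  · exact ⟨2, h2, fun i hi => by fin_cases i <;> simp_all⟩

private lemma al_if_some {p q : Prop} [Decidable p] [Decidable q] (β : Bool) :
    ((if p then some true else if q then some false else none) = some β) ↔
      (β = true ∧ p) ∨ (β = false ∧ ¬ p ∧ q) := by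
  by_cases hp : p <;> by_cases hq : q <;> cases β <;> simp [hp, hq]

private lemma al_if_none {p q : Prop} [Decidable p] [Decidable q] (β : Bool) :
    ((if p then some true else if q then none else some false) = some β) ↔
      (β = true ∧ p) ∨ (β = false ∧ ¬ p ∧ ¬ q) := by
  by_cases hp : p <;> by_cases hq : q <;> cases β <;> simp [hp, hq]

private lemma al_pure {r : ℕ} (hr : 2 ≤ r) :
    ∃ f : Fin 3 → ZMod r → ZMod r → Option Bool,
      (∀ i g t, f i g t = some true → f i g (t + 1) = some false) ∧
      (∀ i g t, f i g (t + 1) = some false → f i g t = some true) ∧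
      (∀ g t β, ∃! i, f i g t = some β) ∧
      (∀ g t β, f 1 g t = some β → f 0 g (t + g) = some true → f 1 g (t + 1) = none) ∧
      (∀ g t β, f 1 g (t + 1) = some β → f 0 g (t + 1 + g) = some false → f 1 g t = none) ∧
      (∀ g g' t, f 0 g t = f 0 g' t) := by
  have hne : NeZero r := ⟨by omega⟩
  have hf : Fact (1 < r) := ⟨by omega⟩
  rcases Nat.even_or_odd r with he | ho
  · -- even order
    refine ⟨![fun _ t => if t.val % 2 = 1 then some true else some false,
      fun _ _ => none, fun _ t => if t.val % 2 = 1 then some false else some true],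
      ?_, ?_, ?_, ?_, ?_, fun _ _ _ => rfl⟩
    · intro i g t
      have h1 := al_val_add_one hr t
      have h2 := ZMod.val_lt t
      obtain ⟨s, hs⟩ := he
      fin_cases i
      · simp only [Fin.zero_eta, Matrix.cons_val_zero]
        intro h
        have h3 : t.val % 2 = 1 := by by_contra h4; simp [h4] at h
        have h5 : ¬ ((t + 1).val % 2 = 1) := by split_ifs at h1 <;> omega
        simp [h5]
      · simp
      · simp only [Fin.reduceFinMk, Matrix.cons_val]
        intro h
        have h3 : ¬ (t.val % 2 = 1) := by intro h4; simp [h4] at h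
        have h5 : ((t + 1).val % 2 = 1) := by split_ifs at h1 <;> omega
        simp [h5]
    · intro i g t
      have h1 := al_val_add_one hr t
      have h2 := ZMod.val_lt t
      obtain ⟨s, hs⟩ := he
      fin_cases i
      · simp only [Fin.zero_eta, Matrix.cons_val_zero]
        intro h
        have h3 : ¬ ((t + 1).val % 2 = 1) := by intro h4; simp [h4] at h
        have h5 : t.val % 2 = 1 := by split_ifs at h1 <;> omega
        simp [h5]
      · simp
      · simp only [Fin.reduceFinMk, Matrix.cons_val]
        intro h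
        have h3 : ((t + 1).val % 2 = 1) := by by_contra h4; simp [h4] at h
        have h5 : ¬ (t.val % 2 = 1) := by split_ifs at h1 <;> omega
        simp [h5]
    · intro g t β
      apply al_exists_unique
      by_cases h : t.val % 2 = 1 <;> cases β <;> simp [h]
    · intro g t β h
      simp at h
    · intro g t β h
      simp at h
  · -- odd order
    have hr3 : 3 ≤ r := by
      obtain ⟨s, hs⟩ := ho
      omega
    set q : ZMod r → ZMod r := fun g => if g.val % 2 = 0 then 0 else -1 with hq
    have hm1 : (-1 : ZMod r).val = r - 1 := by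
      have h1 := al_val_add_one hr (-1 : ZMod r)
      have h2 := ZMod.val_lt (-1 : ZMod r)
      rw [neg_add_cancel, ZMod.val_zero] at h1
      split_ifs at h1 <;> omega
    have hqv : ∀ g, (q g).val % 2 = 0 := by
      intro g
      obtain ⟨s, hs⟩ := ho
      by_cases h : g.val % 2 = 0
      · simp [hq, h]
      · simp only [hq, h, if_false, hm1]
        omega
    have hqe : ∀ g, (q g).val = 0 ∨ (q g).val = r - 1 := by
      intro g
      by_cases h : g.val % 2 = 0
      · simp [hq, h]
      · right
        simp only [hq, h, if_false, hm1]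
    have hqg : ∀ g, (q g + g).val % 2 = 0 := by
      intro g
      by_cases h : g.val % 2 = 0
      · simp [hq, h]
      · simp only [hq, h, if_false]
        have h1 := al_val_add_one hr (-1 + g)
        have h2 : (-1 + g) + 1 = g := by ring
        rw [h2] at h1
        split_ifs at h1 <;> omega
    have hne1 : ∀ x : ZMod r, x + 1 ≠ x := by
      intro x hx
      have : (1 : ZMod r) = 0 := by linear_combination hx
      have h1 := congrArg ZMod.val this
      rw [ZMod.val_one, ZMod.val_zero] at h1
      omega
    have hne2 : ∀ x : ZMod r, x + 1 + 1 ≠ x := by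
      intro x hx
      have : (-1 : ZMod r) = 1 := by linear_combination -hx
      have h1 := congrArg ZMod.val this
      rw [ZMod.val_one, hm1] at h1
      omega
    have hval : ∀ x y : ZMod r, x = y ↔ x.val = y.val := fun x y =>
      ⟨fun h => by rw [h], fun h => ZMod.val_injective r h⟩
    refine ⟨![fun _ t => if t.val % 2 = 1 then some true else if t.val = 0 then none
        else some false,
      fun g t => if t = q g then some true else if t = q g + 1 then some false else none,
      fun g t => if t.val % 2 = 0 ∧ t ≠ q g then some true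
        else if (t - 1).val % 2 = 0 ∧ t ≠ q g + 1 then some false else none],
      ?_, ?_, ?_, ?_, ?_, fun _ _ _ => rfl⟩
    · intro i g t
      have h1 := al_val_add_one hr t
      have h2 := ZMod.val_lt t
      obtain ⟨s, hs⟩ := ho
      fin_cases i
      · simp only [Fin.zero_eta, Matrix.cons_val_zero]
        intro h
        have h3 : t.val % 2 = 1 := by
          by_contra h4
          rw [if_neg h4] at h
          split_ifs at h <;> simp at h
        have h5 : ¬ ((t + 1).val % 2 = 1) := by split_ifs at h1 <;> omega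
        have h6 : ¬ ((t + 1).val = 0) := by split_ifs at h1 <;> omega
        rw [if_neg h5, if_neg h6]
      · simp only [Fin.mk_one, Matrix.cons_val_one, Matrix.cons_val_zero]
        intro h
        have h3 : t = q g := by
          by_contra h4
          rw [if_neg h4] at h
          split_ifs at h <;> simp at h
        rw [h3, if_neg (hne1 _), if_pos rfl]
      · simp only [Fin.reduceFinMk, Matrix.cons_val]
        intro h
        have h3 : t.val % 2 = 0 ∧ t ≠ q g := by
          by_contra h4
          rw [if_neg h4] at h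
          split_ifs at h <;> simp at h
        obtain ⟨h4, h5⟩ := h3
        have h6 : ¬ ((t + 1).val % 2 = 0 ∧ t + 1 ≠ q g) := by
          rintro ⟨h7, h8⟩
          rw [Ne, hval] at h5 h8
          have := hqe g
          split_ifs at h1 <;> omega
        have h7 : (t + 1 - 1).val % 2 = 0 ∧ t + 1 ≠ q g + 1 := by
          rw [add_sub_cancel_right]
          exact ⟨h4, fun h => h5 (by simpa using h)⟩
        rw [if_neg h6, if_pos h7]
    · intro i g t
      have h1 := al_val_add_one hr t
      have h2 := ZMod.val_lt t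
      obtain ⟨s, hs⟩ := ho
      fin_cases i
      · simp only [Fin.zero_eta, Matrix.cons_val_zero]
        intro h
        have h3 : ¬ ((t + 1).val % 2 = 1) := by
          intro h4
          rw [if_pos h4] at h
          simp at h
        rw [if_neg h3] at h
        have h4 : ¬ ((t + 1).val = 0) := by
          intro h4
          rw [if_pos h4] at h
          simp at h
        have h5 : t.val % 2 = 1 := by split_ifs at h1 <;> omega
        rw [if_pos h5]
      · simp only [Fin.mk_one, Matrix.cons_val_one, Matrix.cons_val_zero]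
        intro h
        have h3 : t + 1 = q g + 1 := by
          by_contra h4
          rw [if_neg h4] at h
          split_ifs at h <;> simp at h
        rw [if_pos (by simpa using h3)]
      · simp only [Fin.reduceFinMk, Matrix.cons_val]
        intro h
        have h3 : ¬ ((t + 1).val % 2 = 0 ∧ t + 1 ≠ q g) := by
          intro h4
          rw [if_pos h4] at h
          simp at h
        rw [if_neg h3] at h
        have h4 : (t + 1 - 1).val % 2 = 0 ∧ t + 1 ≠ q g + 1 := by
          by_contra h4
          rw [if_neg h4] at h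
          simp at h
        rw [add_sub_cancel_right] at h4
        rw [if_pos ⟨h4.1, fun h5 => h4.2 (by rw [h5])⟩]
    · intro g t β
      apply al_exists_unique
      simp only [Matrix.cons_val_zero, Matrix.cons_val_one, Matrix.cons_val]
      have h1 := al_val_add_one hr (t - 1)
      rw [sub_add_cancel] at h1
      have h2 := ZMod.val_lt t
      have h2' := ZMod.val_lt (t - 1)
      have h3 := hqv g
      have h4 := hqe g
      have h6 := hval t (q g)
      have h8 : t = q g + 1 ↔ (t - 1).val = (q g).val := by
        rw [← hval]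
        constructor
        · intro h; rw [h]; ring
        · intro h; rw [← h]; ring
      obtain ⟨s, hs⟩ := ho
      rw [al_if_none, al_if_some, al_if_some, Ne, Ne, h6, h8]
      clear_value q
      cases β
      · simp only [Bool.false_eq_true, false_and, true_and, false_or]
        split_ifs at h1 <;> omega
      · simp only [Bool.true_eq_false, false_and, true_and, or_false]
        omega
    · intro g t β
      simp only [Matrix.cons_val_zero, Matrix.cons_val_one]
      intro h h'
      have h3 : t ≠ q g := by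
        rintro rfl
        rw [if_neg (by rw [hqg]; omega)] at h'
        split_ifs at h' <;> simp at h'
      rw [if_neg h3] at h
      have h4 : t = q g + 1 := by
        by_contra h4
        rw [if_neg h4] at h
        simp at h
      rw [h4, if_neg (hne2 _), if_neg (hne1 _)]
    · intro g t β
      simp only [Matrix.cons_val_zero, Matrix.cons_val_one]
      intro h h'
      have h3 : t ≠ q g := by
        rintro rfl
        have h1 := al_val_add_one hr (q g + g)
        have h2 : q g + g + 1 = q g + 1 + g := by ring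
        rw [h2] at h1
        have h4 := hqg g
        have h5 : ¬ ((q g + 1 + g).val % 2 = 1) := by
          intro h5
          rw [if_pos h5] at h'
          simp at h'
        rw [if_neg h5] at h'
        have h6 : ¬ ((q g + 1 + g).val = 0) := by
          intro h6
          rw [if_pos h6] at h'
          simp at h'
        split_ifs at h1 <;> omega
      have h4 : t + 1 = q g := by
        by_contra h4
        rw [if_neg h4, if_neg (by simpa using h3)] at h
        simp at h
      have h5 : t ≠ q g + 1 := by
        intro h5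
        rw [h5] at h4
        exact hne2 _ h4
      rw [if_neg h3, if_neg h5]

private lemma al_orbit {K V : Type} [AddCommGroup K] [AddAction K V]
    (free : ∀ (k : K) (x : V), k +ᵥ x = x → k = 0) :
    ∃ κ : V → K, ∀ (k : K) (x : V), κ (k +ᵥ x) = k + κ x := by
  classical
  let rep : V → V := fun x => (Quotient.mk (AddAction.orbitRel K V) x).out
  have hrep : ∀ x, ∃ k : K, k +ᵥ rep x = x := by
    intro x
    have h1 : (AddAction.orbitRel K V) (rep x) x := Quotient.mk_out (s := AddAction.orbitRel K V) x
    rw [AddAction.orbitRel_apply] at h1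
    obtain ⟨k, hk⟩ := h1
    refine ⟨-k, ?_⟩
    change k +ᵥ x = rep x at hk
    rw [← hk, neg_vadd_vadd]
  have hrepk : ∀ (k : K) x, rep (k +ᵥ x) = rep x := by
    intro k x
    have : Quotient.mk (AddAction.orbitRel K V) (k +ᵥ x) = Quotient.mk (AddAction.orbitRel K V) x := by
      apply Quotient.sound
      change (AddAction.orbitRel K V) (k +ᵥ x) x
      rw [AddAction.orbitRel_apply]
      exact ⟨k, rfl⟩
    simp only [rep, this]
  choose κ hκ using hrep
  refine ⟨κ, fun k x => ?_⟩
  have h1 := hκ (k +ᵥ x)
  rw [hrepk] at h1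
  have h2 : (-(k + κ x) + κ (k +ᵥ x)) +ᵥ rep x = rep x := by
    rw [← vadd_vadd, h1, neg_vadd_eq_iff, ← vadd_vadd, hκ]
  have h3 := free _ _ h2
  have h4 : κ (k +ᵥ x) = k + κ x := by
    have := neg_add_eq_zero.1 h3
    exact this.symm
  exact h4

private lemma al_local {K V : Type} [AddCommGroup K] [Finite K] [AddAction K V]
    (free : ∀ (k : K) (x : V), k +ᵥ x = x → k = 0) (K' : AddSubgroup K) (a : K) (ha : a ∉ K')
    (π : V → V) (hπ : ∀ (k : K) x, π (k +ᵥ x) = k +ᵥ π x) :
    ∃ f : Fin 3 → V → Option Bool,
      (∀ i, ∀ k ∈ K', ∀ x, f i (k +ᵥ x) = f i x) ∧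
      (∀ i x β, f i x = some β → f i ((if β then a else -a) +ᵥ x) = some (!β)) ∧
      (∀ x β, ∃! i, f i x = some β) ∧
      (∀ x β β', f 1 x = some β → f 0 (π x) = some β' →
        f 1 ((if β' then a else -a) +ᵥ x) = none) := by
  classical
  obtain ⟨κ, hκ⟩ := al_orbit free
  let r : ℕ := addOrderOf (QuotientAddGroup.mk a : K ⧸ K')
  have hr0 : 0 < r := addOrderOf_pos _
  have hr1 : r ≠ 1 := by
    intro h
    rw [AddMonoid.addOrderOf_eq_one_iff, QuotientAddGroup.eq_zero_iff] at h
    exact ha h
  have hr : 2 ≤ r := by omega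
  obtain ⟨p, hpa, hpK⟩ := exists_cocycle K' a r (by
    intro n hn
    have : n • (QuotientAddGroup.mk a : K ⧸ K') = 0 := by
      rw [← QuotientAddGroup.mk_zsmul, QuotientAddGroup.eq_zero_iff]
      exact hn
    exact addOrderOf_dvd_iff_zsmul_eq_zero.2 this)
  obtain ⟨f, hf1, hf2, hf3, hf4, hf5, hf6⟩ := al_pure hr
  let P : V → ZMod r := fun x => p (κ x)
  have hPa : ∀ x, P (a +ᵥ x) = P x + 1 := by
    intro x
    simp only [P]
    rw [hκ, add_comm, hpa]
  have hPna : ∀ x, P (-a +ᵥ x) + 1 = P x := by
    intro x
    rw [← hPa, vadd_neg_vadd]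
  have hPK : ∀ k ∈ K', ∀ x, P (k +ᵥ x) = P x := by
    intro k hk x
    simp only [P]
    rw [hκ, add_comm, hpK _ _ hk]
  let g : V → ZMod r := fun x => P (π x) - P x
  have hga : ∀ x, g (a +ᵥ x) = g x := by
    intro x
    simp only [g]
    rw [hπ, hPa, hPa]
    ring
  have hgna : ∀ x, g (-a +ᵥ x) = g x := by
    intro x
    have := hga (-a +ᵥ x)
    rw [vadd_neg_vadd] at this
    exact this.symm
  have hgK : ∀ k ∈ K', ∀ x, g (k +ᵥ x) = g x := by
    intro k hk x
    simp only [g]
    rw [hπ, hPK k hk, hPK k hk]
  have hPπ : ∀ x, P (π x) = P x + g x := by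
    intro x
    simp only [g]
    ring
  refine ⟨fun i x => f i (g x) (P x), ?_, ?_, ?_, ?_⟩
  · intro i k hk x
    simp only [hgK k hk, hPK k hk]
  · intro i x β h
    cases β
    · simp only [Bool.false_eq_true, if_false, Bool.not_false]
      rw [hgna]
      apply hf2
      rw [hPna]
      exact h
    · simp only [if_true, Bool.not_true]
      rw [hga, hPa]
      exact hf1 _ _ _ h
  · intro x β
    exact hf3 _ _ _
  · intro x β β' h h'
    change f 1 (g x) (P x) = some β at h
    change f 0 (g (π x)) (P (π x)) = some β' at h'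
    rw [hf6 _ (g x), hPπ] at h'
    cases β'
    · simp only [Bool.false_eq_true, if_false]
      rw [hgna]
      rw [← hPna x] at h h'
      exact hf5 _ _ _ h h'
    · simp only [if_true]
      rw [hga, hPa]
      exact hf4 _ _ _ h h'

/-! ### LA-ALPHA: general factor, at most `b` labels -/

theorem step_alpha {K : Type} [AddCommGroup K] [Finite K] (K' : AddSubgroup K) {L : Type}
    [Finite L] (a : L → K) (h : ∀ l, a l ∉ K') {m : ℕ} (hm : 2 * Nat.card L ≤ m)
    (B : Bundle K m) : StepSol K' B a := by
  classical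
  obtain ⟨F, hFK, hFι, hFu⟩ := exists_factorization B
  -- classes of half-edges
  obtain ⟨e, he⟩ : ∃ e : L ⊕ L → Fin m, Function.Injective e := by
    have h1 : Nat.card (L ⊕ L) ≤ Nat.card (Fin m) := by
      rw [Nat.card_sum, Nat.card_fin]
      omega
    have := Fintype.ofFinite L
    rw [Nat.card_eq_fintype_card, Nat.card_eq_fintype_card] at h1
    obtain ⟨e⟩ := Function.Embedding.nonempty_of_card_le h1
    exact ⟨e, e.injective⟩
  let cls : L → Fin 3 → Fin m × Bool := fun l =>
    ![(e (Sum.inl l), true), (e (Sum.inl l), false), (e (Sum.inr l), true)]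
  have hcls : ∀ l i l' i', cls l i = cls l' i' → l = l' ∧ i = i' := by
    intro l i l' i' h
    fin_cases i <;> fin_cases i' <;> simp [cls, he.eq_iff] at h ⊢ <;> exact h
  -- the partner function
  have hpi : ∀ (l : L) (x : B.V), ∃ h, (B.v h = x ∧ F h = cls l 1) ∧
      ∀ h', B.v h' = x ∧ F h' = cls l 1 → h' = h := fun l x => hFu x _
  choose hf hhf hhf' using hpi
  have hfK : ∀ l (k : K) x, hf l (k +ᵥ x) = k +ᵥ hf l x := by
    intro l k x
    symm
    apply hhf'
    rw [B.v_vadd, (hhf l x).1, hFK]
    exact ⟨rfl, (hhf l x).2⟩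
  have hloc := fun l => al_local B.free K' (a l) (h l) (fun x => B.v (B.ι (hf l x))) (by
    intro k x
    simp only [hfK, B.ι_vadd, B.v_vadd])
  choose f hfinv hflab hfdart hfacyc using hloc
  -- the labelling
  let lab : B.H → Option (L × Bool) := fun h =>
    if hh : ∃ l i, F h = cls l i then (f hh.choose hh.choose_spec.choose (B.v h)).map
      (fun β => (hh.choose, β)) else none
  have hlab : ∀ h l β, lab h = some (l, β) ↔ ∃ i, F h = cls l i ∧ f l i (B.v h) = some β := by
    intro h l β
    simp only [lab]
    split_ifs with hh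
    · have h1 := hh.choose_spec.choose_spec
      set l' := hh.choose
      set i' := hh.choose_spec.choose
      constructor
      · intro h2
        rw [Option.map_eq_some_iff] at h2
        obtain ⟨β', h3, h4⟩ := h2
        rw [Prod.mk.injEq] at h4
        obtain ⟨h4, h5⟩ := h4
        refine ⟨i', ?_, ?_⟩
        · rw [← h4]; exact h1
        · rw [← h4, ← h5]; exact h3
      · rintro ⟨i, h2, h3⟩
        obtain ⟨h4, h5⟩ := hcls _ _ _ _ (h1.symm.trans h2)
        rw [Option.map_eq_some_iff]
        refine ⟨β, ?_, ?_⟩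
        · rw [h4, h5]; exact h3
        · rw [h4]
    · constructor
      · intro h2
        simp at h2
      · rintro ⟨i, h2, -⟩
        exact absurd ⟨l, i, h2⟩ hh
  have hv : ∀ l β h, B.v (st a (l, β) h) = (if β then a l else -a l) +ᵥ B.v h := by
    intro l β h
    simp only [st, B.v_vadd]
  have hFs : ∀ p h, F (st a p h) = F h := by
    intro p h
    simp only [st, hFK]
  have hιs : ∀ p h, B.ι (st a p h) = st a p (B.ι h) := by
    intro p h
    simp only [st, B.ι_vadd]
  have hc0 : ∀ l, cls l 0 = (e (Sum.inl l), true) := fun l => rfl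
  have hc1 : ∀ l, cls l 1 = (e (Sum.inl l), false) := fun l => rfl
  have hc2 : ∀ l, cls l 2 = (e (Sum.inr l), true) := fun l => rfl
  have hι0 : ∀ x l, F x = cls l 0 → F (B.ι x) = cls l 1 := by
    intro x l hx
    rw [hFι, hx]
    rfl
  have hι1 : ∀ x l, F x = cls l 1 → F (B.ι x) = cls l 0 := by
    intro x l hx
    rw [hFι, hx]
    rfl
  have hι2 : ∀ x l, F x = cls l 2 → ∀ l' i', F (B.ι x) ≠ cls l' i' := by
    intro x l hx l' i' h1
    rw [hFι, hx] at h1
    fin_cases i' <;> simp [cls, he.eq_iff] at h1
  have hinv : ∀ h l β, lab h = some (l, β) → lab (st a (l, β) h) = some (l, !β) := by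
    intro h l β h1
    rw [hlab] at h1 ⊢
    obtain ⟨i, h2, h3⟩ := h1
    refine ⟨i, by rw [hFs, h2], ?_⟩
    rw [hv]
    exact hflab l i _ β h3
  let R : B.H → B.H → Prop := fun y x => ∃ p, lab (B.ι x) = some p ∧ y = st a p (B.ι x)
  have claim1 : ∀ y l, F y = cls l 1 → (∃ β, f l 1 (B.v y) = some β) → Acc R y := by
    rintro y l hy ⟨β, hβ⟩
    constructor
    rintro z ⟨⟨l', β'⟩, h1, rfl⟩
    constructor
    rintro w ⟨⟨l'', β''⟩, h2, -⟩
    exfalso
    rw [hlab] at h1
    obtain ⟨i', h3, h4⟩ := h1
    obtain ⟨rfl, rfl⟩ := hcls _ _ _ _ ((hι1 y l hy).symm.trans h3)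
    rw [hιs, B.ι_ι, hlab] at h2
    obtain ⟨i'', h5, h6⟩ := h2
    rw [hFs] at h5
    obtain ⟨rfl, rfl⟩ := hcls _ _ _ _ (hy.symm.trans h5)
    have h7 : y = hf l (B.v y) := hhf' l (B.v y) y ⟨rfl, hy⟩
    have h8 := hfacyc l (B.v y) β β' hβ (by
      rw [← h7]
      exact h4)
    rw [hv, h8] at h6
    simp at h6
  have claim2 : ∀ x l, F x = cls l 0 → Acc R x := by
    intro x l hx
    constructor
    rintro y ⟨⟨l', β'⟩, h1, rfl⟩
    have h2 := hinv _ _ _ h1
    rw [hlab] at h1 h2
    obtain ⟨i', h3, h4⟩ := h1
    obtain ⟨rfl, rfl⟩ := hcls _ _ _ _ ((hι0 x l hx).symm.trans h3)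
    obtain ⟨i'', h5, h6⟩ := h2
    rw [hFs, h3] at h5
    obtain ⟨-, rfl⟩ := hcls _ _ _ _ h5
    exact claim1 _ l (by rw [hFs, h3]) ⟨_, h6⟩
  have claim3 : ∀ x l, F x = cls l 1 → Acc R x := by
    intro x l hx
    constructor
    rintro y ⟨⟨l', β'⟩, h1, rfl⟩
    exact claim2 _ l (by rw [hFs, hι1 x l hx])
  refine ⟨⟨lab, hinv, ?_, ⟨?_⟩⟩, ?_⟩
  · rintro x ⟨l, β⟩
    obtain ⟨i, hi, hi'⟩ := hfdart l x β
    obtain ⟨h1, ⟨h2, h3⟩, h4⟩ := hFu x (cls l i)
    refine ⟨h1, ⟨h2, ?_⟩, ?_⟩
    · change lab h1 = some (l, β)
      rw [hlab]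
      exact ⟨i, h3, by rw [h2]; exact hi⟩
    · rintro h' ⟨h5, h6⟩
      rw [hlab] at h6
      obtain ⟨i', h7, h8⟩ := h6
      rw [h5] at h8
      have h9 : i' = i := hi' i' h8
      subst h9
      exact h4 h' ⟨h5, h7⟩
  · intro x
    constructor
    rintro y ⟨⟨l, β⟩, h1, rfl⟩
    rw [hlab] at h1
    obtain ⟨i, h2, h3⟩ := h1
    have hy : F (st a (l, β) (B.ι x)) = cls l i := by rw [hFs, h2]
    fin_cases i
    · exact claim2 _ l hy
    · exact claim3 _ l hy
    · constructor
      rintro z ⟨⟨l', β'⟩, h4, rfl⟩
      rw [hlab] at h4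
      obtain ⟨i', h5, -⟩ := h4
      exact absurd h5 (hι2 _ l hy l' i')
  · intro k hk h'
    change lab (k +ᵥ h') = lab h'
    apply Option.ext
    rintro ⟨l, β⟩
    rw [hlab, hlab, hFK, B.v_vadd]
    simp only [hfinv l _ k hk]

end Pool.Agent.Helper43.LA
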