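import Pool.Agent.Helper43.LA.CIFD
import Pool.Agent.Helper39.HD.Final

/-!
# Hamilton decompositions from block data
-/

namespace Pool.Agent.Helper43.LA

open Equiv Pool.Agent.Helper39.HD Pool.Agent.Helper82

section

variable {Γ : Type} [AddCommGroup Γ]

theorem main_of_blocks [Countable Γ] (S : Set Γ) (hfin : S.Finite)
    (hS : ∀ s ∈ S, -s ∉ S) (hgen : AddSubgroup.closure S = ⊤)
    (hrank : ∃ x y : Γ, ∀ i j : ℤ, i • x = j • y → i = 0 ∧ j = 0)
    {b : Γ} (hb : b ∈ Sinf S) {I : Type} [Finite I] (P : I → Set Γ)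
    (hP : ∀ s, (∃ i, s ∈ P i) ↔ s ∈ S ∧ s ≠ b ∧ s ∈ near b)
    (hdisj : ∀ i j s, s ∈ P i → s ∈ P j → i = j)
    (hcard : Nat.card I ≤ {s ∈ Sinf S | ¬ Par s b}.ncard)
    (hBD : ∀ i, ∀ a ∈ Sinf S, ¬ Par a b → Nonempty (BlockData b a (P i))) :
    HasHamiltonDecomposition (SimpleGraph.circulantGraph S) := by
  classical
  have h00 : (0 : Γ) ∉ S := fun h => hS 0 h (by rwa [neg_zero])
  have hIfin : (Sinf S).Finite := hfin.subset (Set.sep_subset _ _)
  set SA : Set Γ := {s ∈ Sinf S | ¬ Par s b} with hSA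
  have hSAfin : SA.Finite := hIfin.subset (Set.sep_subset _ _)
  have : Finite SA := hSAfin
  obtain ⟨φ⟩ : Nonempty (I ↪ SA) := by
    have := Fintype.ofFinite I
    have := Fintype.ofFinite SA
    apply Function.Embedding.nonempty_of_card_le
    rw [← Nat.card_eq_fintype_card, ← Nat.card_eq_fintype_card, Nat.card_coe_set_eq]
    exact hcard
  have hPn : ∀ i, ∀ s ∈ P i, s ∈ S ∧ s ≠ b ∧ s ∈ near b := fun i s hs => (hP s).1 ⟨i, hs⟩
  let Sg : SA → Set Γ := fun α => {s | ∃ i, φ i = α ∧ s ∈ P i}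
  have hab : ∀ (α : SA) (i j : ℤ), i • (α : Γ) = j • b → i = 0 := by
    intro α i j h
    by_contra hi
    by_cases hj : j = 0
    · rw [hj, zero_smul] at h
      exact zsmul_ne_zero_of_inf α.2.1.2 hi h
    · exact α.2.2 ⟨i, j, hi, hj, h⟩
  have hb0 : ∀ j : ℤ, j • b = 0 → j = 0 := by
    intro j hj
    by_contra h
    exact zsmul_ne_zero_of_inf hb.2 h hj
  have hblock : ∀ α : SA, Nonempty (BlockData b (α : Γ) (Sg α)) := by
    intro α
    by_cases h1 : ∃ i : I, φ i = α
    · obtain ⟨i, rfl⟩ := h1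
      have : Sg (φ i) = P i := by
        ext x
        constructor
        · rintro ⟨j, h', h''⟩
          have := φ.injective h'
          rwa [← this]
        · intro hx
          exact ⟨i, rfl, hx⟩
      rw [this]
      exact hBD i _ (φ i).2.1 (φ i).2.2
    · have : Sg α = ∅ := by
        rw [Set.eq_empty_iff_forall_notMem]
        rintro x ⟨i, h', -⟩
        exact h1 ⟨i, h'⟩
      rw [this]
      exact blockData_empty _ _
  let BD := fun α => (hblock α).some
  -- levels
  have hlev : ∀ α : SA, ∃ lev : Γ → Bool, (∀ x, lev (x + α) = !lev x) ∧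
      ∀ x, ∀ g ∈ near b, lev (x + g) = lev x := by
    intro α
    obtain ⟨p, hp1, hp2⟩ := exists_cocycle (near b) (α : Γ) 2 (by
      intro n hn
      obtain ⟨N, k, hN, h⟩ := mem_near.1 hn
      rw [smul_smul] at h
      have := hab α _ _ h
      have : n = 0 := (mul_eq_zero.1 this).resolve_left hN
      rw [this]
      exact dvd_zero _)
    refine ⟨fun x => decide (p x = 0), fun x => ?_, fun x g hg => ?_⟩
    · simp only [hp1]
      revert x
      have : ∀ z : ZMod 2, decide (z + 1 = 0) = !decide (z = 0) := by decide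
      intro x
      exact this (p x)
    · simp only [hp2 x g hg]
  choose lev lev_a lev_n using hlev
  have hbn : b ∈ near b := mem_near.2 ⟨1, 1, one_ne_zero, rfl⟩
  have hSgP : ∀ (α : SA) (l : Sg α), (l : Γ) ∈ S ∧ (l : Γ) ≠ b ∧ (l : Γ) ∈ near b := by
    rintro α ⟨l, i, -, h⟩
    exact hPn i l h
  let aa : SA → Γ := fun α => α
  let lab : ∀ α : SA, Sg α → Γ := fun α l => l
  have hgS : ∀ j, gen b aa lab j ∈ S := by
    rintro (_ | ⟨α, _ | l⟩)
    · exact hb.1
    · exact α.2.1.1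
    · exact (hSgP α l).1
  have hnotnear : ∀ α : SA, (α : Γ) ∉ near b := by
    intro α h
    obtain ⟨N, k, hN, h⟩ := mem_near.1 h
    exact hN (hab α _ _ h)
  have hinj : Function.Injective (gen b aa lab) := by
    have n1 : ∀ (α : SA), (α : Γ) ≠ b := fun α h => α.2.2 (h ▸ Par.refl _)
    have n2 : ∀ (α : SA) (l : Sg α), (l : Γ) ≠ b := fun α l => (hSgP α l).2.1
    have n3 : ∀ (α α' : SA) (l : Sg α'), (α : Γ) ≠ l := by
      intro α α' l h
      exact hnotnear α (h ▸ (hSgP α' l).2.2)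
    have n4 : ∀ (α α' : SA) (l : Sg α) (l' : Sg α'), (l : Γ) = l' → α = α' := by
      rintro α α' ⟨l, i, hi, hl⟩ ⟨l', i', hi', hl'⟩ h
      have h : l = l' := h
      subst h
      rw [← hi, ← hi', hdisj i i' l hl hl']
    rintro (_ | ⟨α, _ | l⟩) (_ | ⟨α', _ | l'⟩) h
    · rfl
    · exact absurd (show b = (α' : Γ) from h).symm (n1 α')
    · exact absurd (show b = (l' : Γ) from h).symm (n2 α' l')
    · exact absurd (show (α : Γ) = b from h) (n1 α)
    · have : α = α' := Subtype.ext (show (α : Γ) = α' from h)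
      rw [this]
    · exact absurd (show (α : Γ) = l' from h) (n3 α α' l')
    · exact absurd (show (l : Γ) = b from h) (n2 α l)
    · exact absurd (show (l : Γ) = α' from h).symm (n3 α' α l)
    · have h : (l : Γ) = l' := h
      obtain rfl := n4 α α' l l' h
      rw [Subtype.ext h]
  have hrange : Set.range (gen b aa lab) = S := by
    apply Set.Subset.antisymm
    · rintro _ ⟨j, rfl⟩
      exact hgS j
    · intro s hs
      by_cases hsb : s = b
      · exact ⟨none, hsb.symm⟩
      by_cases hn : s ∈ near b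
      · obtain ⟨i, hi⟩ := (hP s).2 ⟨hs, hsb, hn⟩
        exact ⟨some ⟨φ i, some ⟨s, i, rfl, hi⟩⟩, rfl⟩
      · have hf : ¬ IsOfFinAddOrder s := by
          intro h
          obtain ⟨n, hn', hnx⟩ := isOfFinAddOrder_iff_zsmul_eq_zero.1 h
          exact hn (mem_near.2 ⟨n, 0, hn', by rw [zero_smul]; exact hnx⟩)
        have hp : ¬ Par s b := by
          rintro ⟨i, j, hi, -, hij⟩
          exact hn (mem_near.2 ⟨i, j, hi, hij⟩)
        exact ⟨some ⟨⟨s, ⟨hs, hf⟩, hp⟩, none⟩, rfl⟩
  have hne : Nonempty SA := by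
    obtain ⟨s, hs, hs'⟩ := exists_not_near S hgen hrank b
    exact ⟨⟨s, hs, hs'⟩⟩
  have hcount : ∀ α, Countable (BD α).K := fun α => (BD α).countable
  have key := cayley_assembly (A := SA) (L := fun α => Sg α) (K := fun α => (BD α).K) b aa lab
    hinj (fun i j h => hS _ (hgS j) (h ▸ hgS i)) (fun i h => h00 (h ▸ hgS i))
    (by rw [hrange]; exact hgen) (fun α => (BD α).D) lev lev_a (fun α x => lev_n α x b hbn)
    (fun α x l => lev_n α x l (hSgP α l).2.2) (fun α => (BD α).nx_a) (fun α => (BD α).pv_a)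
    (fun α => (BD α).nx_b) (fun α => (BD α).pv_b) hab hb0
  rwa [hrange] at key

/-- block data from forest data in a finite subgroup of `Γ / ⟨b⟩` -/
theorem blockData_near {b a : Γ} {P : Set Γ} (K : AddSubgroup (Γ ⧸ AddSubgroup.zmultiples b))
    [Finite K] (hPK : ∀ s ∈ P, (QuotientAddGroup.mk s : Γ ⧸ AddSubgroup.zmultiples b) ∈ K)
    (h : HasFD K (fun s : P => (⟨QuotientAddGroup.mk (s : Γ), hPK s s.2⟩ : K)))
    (hab : ∀ i j : ℤ, i • a = j • b → i = 0) : Nonempty (BlockData b a P) := by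
  obtain ⟨C, hC, ⟨D⟩⟩ := h
  obtain ⟨π, hπ1, hπ2⟩ := exists_proj
    (AddSubgroup.zmultiples (QuotientAddGroup.mk a : Γ ⧸ AddSubgroup.zmultiples b)) K (by
    intro x hx hxK
    obtain ⟨i, rfl⟩ := AddSubgroup.mem_zmultiples_iff.1 hx
    obtain ⟨n, hn, h⟩ := isOfFinAddOrder_iff_nsmul_eq_zero.1
      (isOfFinAddOrder_of_finite (⟨_, hxK⟩ : K))
    have h1 := congrArg Subtype.val h
    simp only [AddSubgroup.coe_nsmul, ZeroMemClass.coe_zero] at h1
    rw [← natCast_zsmul, smul_smul, ← QuotientAddGroup.mk_zsmul, QuotientAddGroup.eq_zero_iff,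
      AddSubgroup.mem_zmultiples_iff] at h1
    obtain ⟨j, hj⟩ := h1
    have h2 := hab _ _ hj.symm
    have h3 : i = 0 := (mul_eq_zero.1 h2).resolve_left (by exact_mod_cast hn.ne')
    rw [h3, zero_smul])
  refine blockData_of_pullback D (fun x => π (QuotientAddGroup.mk x)) (Equiv.refl _) ?_ ?_ ?_
  · intro s x
    exact hπ2 (QuotientAddGroup.mk x) ⟨QuotientAddGroup.mk (s : Γ), hPK s s.2⟩
  · intro x
    exact hπ1 (QuotientAddGroup.mk x) (QuotientAddGroup.mk a) (AddSubgroup.mem_zmultiples _)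
  · intro x
    have : (QuotientAddGroup.mk (x + b) : Γ ⧸ AddSubgroup.zmultiples b) = QuotientAddGroup.mk x := by
      rw [eq_comm, QuotientAddGroup.eq]
      simp
    simp only [this]

end

end Pool.Agent.Helper43.LA
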