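import Pool.Agent.Helper43.LA.ColConn
import Pool.Agent.Helper39.HD2.Top2

/-!
# The column theorem, in the form needed for the merging theorem
-/

namespace Pool.Agent.Helper43.LA

open Equiv Pool.Agent.Helper39.HD Pool.Agent.Helper39.HD.Block Pool.Agent.Helper82 Relation

section

variable {T : Type} [AddCommGroup T] {L : Type}

theorem stp_eq_step (a : L → T) (l : L × Bool) (x : T) :
    stp (fun l => Equiv.addRight (a l)) l x = x + step a l := by
  rcases l with ⟨l, β⟩
  cases β
  · rfl
  · rfl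

theorem PLink.cRel {C : Type} {a : L → T} {P : Set T}
    {D : ForestData T L C (fun l => Equiv.addRight (a l))} {k : C} {x y : T}
    (h : PLink a P D k x y) : CRel D (fun p : P => (p : T)) k x y := by
  rcases h with ⟨l, hl, rfl⟩ | ⟨l, hl, rfl⟩ | ⟨h1, h2, l, rfl⟩ | ⟨h1, s, hs, h2⟩
  · exact Or.inl ⟨true, l, hl, stp_eq_step a l x⟩
  · exact Or.inl ⟨false, l, hl, stp_eq_step a l x⟩
  · right; right
    refine ⟨l, stp_eq_step a l x, ?_⟩
    obtain ⟨β, hβ⟩ : ∃ β, dd D β k x = none := by
      rcases h1 with h | h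
      · exact ⟨true, h⟩
      · exact ⟨false, h⟩
    obtain ⟨γ, hγ⟩ : ∃ γ, dd D γ k (stp (fun l => Equiv.addRight (a l)) l x) = none := by
      rcases h2 with h | h
      · exact ⟨true, h⟩
      · exact ⟨false, h⟩
    exact ⟨β, γ, hβ, hγ⟩
  · right; left
    obtain ⟨β, hβ⟩ : ∃ β, dd D β k x = none ∧ dd D β k y = none := by
      rcases h1 with h | h
      · exact ⟨true, h⟩
      · exact ⟨false, h⟩
    rcases h2 with h | h
    · exact ⟨(⟨s, hs⟩, true), h, β, hβ⟩
    · refine ⟨(⟨s, hs⟩, false), ?_, β, hβ⟩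
      change y = x + -s
      rw [h]
      abel

/-- **Column theorem** -/
theorem exists_col' [Finite T] {I : Type} [DecidableEq I] {f : I → T} {B : Finset I}
    (h : Part.CI (fun i => AddSubgroup.zmultiples (f i)) ⊥ B) (P : Set T)
    (hP : AddSubgroup.closure P = ⊤) :
    ∃ (C : Type) (_ : Countable C)
      (D : ForestData T B C (fun l : B => Equiv.addRight (f l))),
      ∀ k x y, ReflTransGen (CRel D (fun p : P => (p : T)) k) x y := by
  obtain ⟨C, hC, D, hD⟩ := exists_col h P hP
  exact ⟨C, hC, D, fun k x y => ReflTransGen.mono (fun _ _ h => h.cRel) _ _ (hD k x y)⟩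

end

end Pool.Agent.Helper43.LA
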