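import Pool.Agent.Helper39.HD.Blocks

/-!
# Adding one label to forest data: layers
-/

namespace Pool.Agent.Helper43.LA

open Equiv Pool.Agent.Helper39.HD

section

variable {X L C : Type} {act : L → Perm X}

/-- next (`β = false`) or previous (`β = true`) arc -/
def mv (D : ForestData X L C act) (β : Bool) (c : C) (v : X) : Option (L × Bool) :=
  if β then D.pv c v else D.nx c v

theorem stp_stp (act : L → Perm X) (l : L) (β : Bool) (v : X) :
    stp act (l, !β) (stp act (l, β) v) = v := by
  cases β
  · simp only [stp, Bool.not_false, if_true, Bool.false_eq_true, if_false]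
    exact (act l).apply_symm_apply v
  · simp only [stp, Bool.not_true, if_true, Bool.false_eq_true, if_false]
    exact (act l).symm_apply_apply v

theorem mv_inv (D : ForestData X L C act) (γ : Bool) (c : C) (v : X) (l : L) (β : Bool) :
    mv D γ c v = some (l, β) ↔ mv D (!γ) c (stp act (l, β) v) = some (l, !β) := by
  cases γ
  · exact D.inv c v l β
  · simp only [mv, if_true, Bool.not_true, Bool.false_eq_true, if_false]
    rw [D.inv, stp_stp, Bool.not_not]

theorem mv_dart (D : ForestData X L C act) (γ : Bool) (x : X) (l : L × Bool) :
    ∃! p : C × Bool, mv D (xor γ (!p.2)) p.1 x = some l := by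
  obtain ⟨p, hp, hu⟩ := D.dart x l
  cases γ
  · refine ⟨p, ?_, ?_⟩
    · rcases p with ⟨c, _ | _⟩
      · simpa [mv] using hp
      · simpa [mv] using hp
    · intro q hq
      apply hu
      rcases q with ⟨c, _ | _⟩
      · simpa [mv] using hq
      · simpa [mv] using hq
  · refine ⟨(p.1, !p.2), ?_, ?_⟩
    · rcases p with ⟨c, _ | _⟩
      · simpa [mv] using hp
      · simpa [mv] using hp
    · intro q hq
      have h1 : (q.1, !q.2) = p := by
        apply hu
        rcases q with ⟨c, _ | _⟩
        · simpa [mv] using hq
        · simpa [mv] using hq
      rw [← h1]
      simp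

theorem mv_none (D : ForestData X L C act) (γ : Bool) (x : X) : ∃! c, mv D γ c x = none := by
  cases γ
  · exact D.nx_none x
  · exact D.pv_none x

theorem mv_wf (D : ForestData X L C act) (γ : Bool) (c : C) :
    WellFounded (fun y x => ∃ l, mv D γ c x = some l ∧ y = stp act l x) := by
  cases γ
  · exact D.wf_nx c
  · exact D.wf_pv c

/-- the new label: one layer up, from the last layer to the first one by `τ` -/
def rot (τ : Perm X) (m : ℕ) : Perm (X × Fin (m + 1)) where
  toFun p := (if p.2 = Fin.last m then τ p.1 else p.1, p.2 + 1)
  invFun p := (if p.2 = 0 then τ.symm p.1 else p.1, p.2 - 1)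
  left_inv := by
    rintro ⟨v, k⟩
    simp only [add_sub_cancel_right, Prod.mk.injEq, and_true]
    by_cases hk : k = Fin.last m
    · subst hk
      simp
    · have : k + 1 ≠ 0 := by
        intro h
        apply hk
        rw [← Fin.last_add_one] at h
        exact add_right_cancel h
      simp [hk, this]
  right_inv := by
    rintro ⟨v, k⟩
    simp only [sub_add_cancel, Prod.mk.injEq, and_true]
    by_cases hk : k = 0
    · subst hk
      have : (0 : Fin (m + 1)) - 1 = Fin.last m := by
        rw [sub_eq_iff_eq_add, Fin.last_add_one]
      simp [this]
    · have : k - 1 ≠ Fin.last m := by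
        intro h
        apply hk
        rw [sub_eq_iff_eq_add, Fin.last_add_one] at h
        exact h
      simp [hk, this]

/-- the actions of the labels on the layers -/
def actS (act : L → Perm X) (τ : Perm X) (m : ℕ) : Option L → Perm (X × Fin (m + 1))
  | none => rot τ m
  | some l => (act l).prodCongr (Equiv.refl _)

/-- parity of the layer -/
def od {m : ℕ} (k : Fin (m + 1)) : Bool := decide (k.val % 2 = 1)

theorem od_succ {m : ℕ} {k : Fin (m + 1)} (hk : k ≠ Fin.last m) : od (k + 1) = !od k := by
  have h1 : (k + 1).val = k.val + 1 := Fin.val_add_one_of_lt (Fin.lt_last_iff_ne_last.2 hk)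
  simp only [od, h1]
  by_cases h : k.val % 2 = 1
  · have : ¬ (k.val + 1) % 2 = 1 := by omega
    simp [h, this]
  · have : (k.val + 1) % 2 = 1 := by omega
    simp [h, this]

theorem od_zero {m : ℕ} : od (0 : Fin (m + 1)) = false := by simp [od]

/-- put an old arc, or else `o` -/
def ext (a : Option (L × Bool)) (o : Option (Option L × Bool)) : Option (Option L × Bool) :=
  match a with
  | some l => some (some l.1, l.2)
  | none => o

theorem ext_some {a : Option (L × Bool)} {o : Option (Option L × Bool)} {l : L} {β : Bool}
    (ho : o ≠ some (some l, β)) : ext a o = some (some l, β) ↔ a = some (l, β) := by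
  rcases a with _ | ⟨l', β'⟩
  · simp [ext, ho]
  · simp [ext]

theorem ext_none_some {a : Option (L × Bool)} {o : Option (Option L × Bool)} {β : Bool} :
    ext a o = some (none, β) ↔ a = none ∧ o = some (none, β) := by
  rcases a with _ | ⟨l', β'⟩
  · simp [ext]
  · simp [ext]

theorem ext_none {a : Option (L × Bool)} {o : Option (Option L × Bool)} :
    ext a o = none ↔ a = none ∧ o = none := by
  rcases a with _ | ⟨l', β'⟩
  · simp [ext]
  · simp [ext]

theorem stp_actS_some (act : L → Perm X) (τ : Perm X) (m : ℕ) (l : L) (β : Bool)
    (v : X) (k : Fin (m + 1)) : stp (actS act τ m) (some l, β) (v, k) = (stp act (l, β) v, k) := by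
  cases β
  · rfl
  · rfl

theorem stp_actS_up (act : L → Perm X) (τ : Perm X) (m : ℕ) {v : X} {k : Fin (m + 1)}
    (hk : k ≠ Fin.last m) : stp (actS act τ m) (none, true) (v, k) = (v, k + 1) := by
  change (if k = Fin.last m then τ v else v, k + 1) = _
  rw [if_neg hk]

theorem stp_actS_top (act : L → Perm X) (τ : Perm X) (m : ℕ) (v : X) :
    stp (actS act τ m) (none, true) (v, Fin.last m) = (τ v, 0) := by
  change (if Fin.last m = Fin.last m then τ v else v, Fin.last m + 1) = _
  rw [if_pos rfl, Fin.last_add_one]

theorem stp_actS_down (act : L → Perm X) (τ : Perm X) (m : ℕ) {v : X} {k : Fin (m + 1)}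
    (hk : k ≠ 0) : stp (actS act τ m) (none, false) (v, k) = (v, k - 1) := by
  change (if k = 0 then τ.symm v else v, k - 1) = _
  rw [if_neg hk]

/-- arcs of the new data -/
def nxS (D : ForestData X L C act) (m : ℕ) (c : Option C) (p : X × Fin (m + 1)) :
    Option (Option L × Bool) :=
  match c with
  | none => if p.2 = Fin.last m then some (none, true) else none
  | some c => ext (mv D (od p.2) c p.1) (if p.2 = Fin.last m then none else some (none, true))

def pvS (D : ForestData X L C act) (m : ℕ) (c : Option C) (p : X × Fin (m + 1)) :
    Option (Option L × Bool) :=
  match c with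
  | none => if p.2 = 0 then some (none, false) else none
  | some c => ext (mv D (!od p.2) c p.1) (if p.2 = 0 then none else some (none, false))

theorem stepData_inv (D : ForestData X L C act) (τ : Perm X) (m : ℕ) (c : Option C)
    (p : X × Fin (m + 1)) (l : Option L) (β : Bool) :
    nxS D m c p = some (l, β) ↔
      pvS D m c (stp (actS act τ m) (l, β) p) = some (l, !β) := by
  obtain ⟨v, k⟩ := p
  rcases c with _ | c
  · -- the new class
    rcases l with _ | l
    · cases β
      · simp only [nxS, pvS]
        constructor
        · intro h
          split_ifs at h
          simp at h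
        · intro h
          split_ifs at h
          simp at h
      · simp only [nxS, pvS]
        by_cases hk : k = Fin.last m
        · subst hk
          rw [stp_actS_top]
          simp
        · rw [stp_actS_up _ _ _ hk]
          have : k + 1 ≠ 0 := by
            intro h
            apply hk
            rw [← Fin.last_add_one] at h
            exact add_right_cancel h
          simp [hk, this]
    · rw [stp_actS_some]
      simp only [nxS, pvS]
      constructor
      · intro h
        split_ifs at h
        simp at h
      · intro h
        split_ifs at h
        simp at h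
  · rcases l with _ | l
    · cases β
      · simp only [nxS, pvS]
        rw [ext_none_some, ext_none_some]
        constructor
        · rintro ⟨-, h⟩
          split_ifs at h
          simp at h
        · rintro ⟨-, h⟩
          split_ifs at h
          simp at h
      · simp only [nxS, pvS]
        rw [ext_none_some, ext_none_some]
        by_cases hk : k = Fin.last m
        · subst hk
          rw [stp_actS_top]
          simp
        · rw [stp_actS_up _ _ _ hk]
          have : k + 1 ≠ 0 := by
            intro h
            apply hk
            rw [← Fin.last_add_one] at h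
            exact add_right_cancel h
          simp only [hk, this, if_false, od_succ hk, Bool.not_not, Bool.not_true, and_true]
    · rw [stp_actS_some]
      simp only [nxS, pvS]
      rw [ext_some (by split_ifs <;> simp), ext_some (by split_ifs <;> simp)]
      exact mv_inv D (od k) c v l β

theorem stepData_dart (D : ForestData X L C act) (m : ℕ) (hm : 1 ≤ m) (p : X × Fin (m + 1))
    (l : Option L × Bool) :
    ∃! q : Option C × Bool, (if q.2 then nxS D m q.1 p else pvS D m q.1 p) = some l := by
  obtain ⟨v, k⟩ := p
  obtain ⟨l, β⟩ := l
  rcases l with _ | l
  · cases β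
    · -- the arc to the lower layer
      by_cases hk : k = 0
      · subst hk
        refine ⟨(none, false), by simp [pvS], ?_⟩
        rintro ⟨c, γ⟩ h
        rcases c with _ | c <;> cases γ
        · rfl
        · simp only [if_true, nxS] at h
          split_ifs at h
          simp at h
        · simp only [Bool.false_eq_true, if_false, pvS] at h
          rw [ext_none_some] at h
          simp at h
        · simp only [if_true, nxS] at h
          rw [ext_none_some] at h
          have h := h.2
          split_ifs at h
          simp at h
      · obtain ⟨c, hc, hu⟩ := mv_none D (!od k) v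
        refine ⟨(some c, false), ?_, ?_⟩
        · simp only [Bool.false_eq_true, if_false, pvS]
          rw [ext_none_some]
          exact ⟨hc, by simp [hk]⟩
        · rintro ⟨c', γ⟩ h
          rcases c' with _ | c' <;> cases γ
          · simp only [Bool.false_eq_true, if_false, pvS, hk] at h
            simp at h
          · simp only [if_true, nxS] at h
            split_ifs at h
            simp at h
          · simp only [Bool.false_eq_true, if_false, pvS] at h
            rw [ext_none_some] at h
            rw [hu c' h.1]
          · simp only [if_true, nxS] at h
            rw [ext_none_some] at h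
            have h := h.2
            split_ifs at h
            simp at h
    · by_cases hk : k = Fin.last m
      · subst hk
        have hl : Fin.last m ≠ 0 := by
          intro h
          have := congrArg Fin.val h
          simp at this
          omega
        refine ⟨(none, true), by simp [nxS], ?_⟩
        rintro ⟨c, γ⟩ h
        rcases c with _ | c <;> cases γ
        · simp only [Bool.false_eq_true, if_false, pvS, hl] at h
          simp at h
        · rfl
        · simp only [Bool.false_eq_true, if_false, pvS] at h
          rw [ext_none_some] at h
          have h := h.2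
          split_ifs at h
          simp at h
        · simp only [if_true, nxS] at h
          rw [ext_none_some] at h
          simp at h
      · obtain ⟨c, hc, hu⟩ := mv_none D (od k) v
        refine ⟨(some c, true), ?_, ?_⟩
        · simp only [if_true, nxS]
          rw [ext_none_some]
          exact ⟨hc, by simp [hk]⟩
        · rintro ⟨c', γ⟩ h
          rcases c' with _ | c' <;> cases γ
          · simp only [Bool.false_eq_true, if_false, pvS] at h
            split_ifs at h
            simp at h
          · simp only [if_true, nxS, hk, if_false] at h
            simp at h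
          · simp only [Bool.false_eq_true, if_false, pvS] at h
            rw [ext_none_some] at h
            have h := h.2
            split_ifs at h
            simp at h
          · simp only [if_true, nxS] at h
            rw [ext_none_some] at h
            rw [hu c' h.1]
  · obtain ⟨⟨c, γ⟩, hc, hu⟩ := mv_dart D (od k) v (l, β)
    refine ⟨(some c, γ), ?_, ?_⟩
    · cases γ
      · simp only [Bool.false_eq_true, if_false, pvS]
        rw [ext_some (by split_ifs <;> simp)]
        simpa using hc
      · simp only [if_true, nxS]
        rw [ext_some (by split_ifs <;> simp)]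
        simpa using hc
    · rintro ⟨c', γ'⟩ h
      rcases c' with _ | c'
      · exfalso
        cases γ'
        · simp only [Bool.false_eq_true, if_false, pvS] at h
          split_ifs at h
          simp at h
        · simp only [if_true, nxS] at h
          split_ifs at h
          simp at h
      · have h1 : (c', γ') = (c, γ) := by
          apply hu
          cases γ'
          · simp only [Bool.false_eq_true, if_false, pvS] at h
            rw [ext_some (by split_ifs <;> simp)] at h
            simpa using h
          · simp only [if_true, nxS] at h
            rw [ext_some (by split_ifs <;> simp)] at h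
            simpa using h
        simp only [Prod.mk.injEq] at h1
        rw [h1.1, h1.2]

theorem stepData_nx_none (D : ForestData X L C act) (m : ℕ) (p : X × Fin (m + 1)) :
    ∃! c, nxS D m c p = none := by
  obtain ⟨v, k⟩ := p
  by_cases hk : k = Fin.last m
  · obtain ⟨c, hc, hu⟩ := mv_none D (od k) v
    refine ⟨some c, ?_, ?_⟩
    · simp only [nxS]
      rw [ext_none]
      exact ⟨hc, by simp [hk]⟩
    · rintro (_ | c') h
      · simp [nxS, hk] at h
      · simp only [nxS] at h
        rw [ext_none] at h
        rw [hu c' h.1]
  · refine ⟨none, by simp [nxS, hk], ?_⟩
    rintro (_ | c') h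
    · rfl
    · simp only [nxS] at h
      rw [ext_none] at h
      simp [hk] at h

theorem stepData_pv_none (D : ForestData X L C act) (m : ℕ) (p : X × Fin (m + 1)) :
    ∃! c, pvS D m c p = none := by
  obtain ⟨v, k⟩ := p
  by_cases hk : k = 0
  · obtain ⟨c, hc, hu⟩ := mv_none D (!od k) v
    refine ⟨some c, ?_, ?_⟩
    · simp only [pvS]
      rw [ext_none]
      exact ⟨hc, by simp [hk]⟩
    · rintro (_ | c') h
      · simp [pvS, hk] at h
      · simp only [pvS] at h
        rw [ext_none] at h
        rw [hu c' h.1]
  · refine ⟨none, by simp [pvS, hk], ?_⟩
    rintro (_ | c') h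
    · rfl
    · simp only [pvS] at h
      rw [ext_none] at h
      simp [hk] at h

theorem ext_eq_some {a : Option (L × Bool)} {o : Option (Option L × Bool)}
    {l : Option L × Bool} (h : ext a o = some l) :
    (∃ l', a = some l' ∧ l = (some l'.1, l'.2)) ∨ (a = none ∧ o = some l) := by
  rcases a with _ | l'
  · exact Or.inr ⟨rfl, h⟩
  · refine Or.inl ⟨l', rfl, ?_⟩
    simpa [ext] using h.symm

theorem stepData_wf_nx (D : ForestData X L C act) (τ : Perm X) (m : ℕ) (hm : 1 ≤ m)
    (c : Option C) : WellFounded (fun q p : X × Fin (m + 1) =>
      ∃ l, nxS D m c p = some l ∧ q = stp (actS act τ m) l p) := by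
  rcases c with _ | c
  · -- the new class: paths with one arc
    have hl : Fin.last m ≠ 0 := by
      intro h
      have := congrArg Fin.val h
      simp at this
      omega
    refine ⟨?_⟩
    have h0 : ∀ p : X × Fin (m + 1), p.2 ≠ Fin.last m → Acc (fun q p : X × Fin (m + 1) =>
        ∃ l, nxS D m none p = some l ∧ q = stp (actS act τ m) l p) p := by
      intro p hp
      refine Acc.intro p ?_
      rintro q ⟨l, hl, -⟩
      simp [nxS, hp] at hl
    rintro ⟨v, k⟩
    by_cases hk : k = Fin.last m
    · subst hk
      refine Acc.intro _ ?_
      rintro q ⟨l, hl', rfl⟩
      simp only [nxS, if_true] at hl'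
      obtain rfl := (Option.some.inj hl').symm
      rw [stp_actS_top]
      exact h0 _ (fun h => hl h.symm)
    · exact h0 _ hk
  · refine ⟨?_⟩
    have key : ∀ (n : ℕ) (k : Fin (m + 1)), m - k.val = n → ∀ v, Acc (fun q p : X × Fin (m + 1) =>
        ∃ l, nxS D m (some c) p = some l ∧ q = stp (actS act τ m) l p) (v, k) := by
      intro n
      induction n with
      | zero =>
        intro k hk v
        induction v using (mv_wf D (od k) c).induction with
        | _ v ih =>
          refine Acc.intro _ ?_
          rintro q ⟨l, hl, rfl⟩
          simp only [nxS] at hl
          rcases ext_eq_some hl with ⟨l', h1, rfl⟩ | ⟨h1, h2⟩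
          · rw [stp_actS_some]
            exact ih _ ⟨l', h1, rfl⟩
          · exfalso
            have : k = Fin.last m := by
              apply Fin.ext
              have := k.is_lt
              simp only [Fin.val_last]
              omega
            simp [this] at h2
      | succ n ihn =>
        intro k hk v
        induction v using (mv_wf D (od k) c).induction with
        | _ v ih =>
          refine Acc.intro _ ?_
          rintro q ⟨l, hl, rfl⟩
          simp only [nxS] at hl
          rcases ext_eq_some hl with ⟨l', h1, rfl⟩ | ⟨h1, h2⟩
          · rw [stp_actS_some]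
            exact ih _ ⟨l', h1, rfl⟩
          · have hkl : k ≠ Fin.last m := by
              rintro rfl
              simp at h2
            simp only [hkl, if_false] at h2
            obtain rfl := (Option.some.inj h2).symm
            rw [stp_actS_up _ _ _ hkl]
            apply ihn
            have h1 : (k + 1).val = k.val + 1 :=
              Fin.val_add_one_of_lt (Fin.lt_last_iff_ne_last.2 hkl)
            omega
    rintro ⟨v, k⟩
    exact key _ k rfl v

theorem stepData_wf_pv (D : ForestData X L C act) (τ : Perm X) (m : ℕ) (hm : 1 ≤ m)
    (c : Option C) : WellFounded (fun q p : X × Fin (m + 1) =>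
      ∃ l, pvS D m c p = some l ∧ q = stp (actS act τ m) l p) := by
  rcases c with _ | c
  · have hl : Fin.last m ≠ 0 := by
      intro h
      have := congrArg Fin.val h
      simp at this
      omega
    refine ⟨?_⟩
    have h0 : ∀ p : X × Fin (m + 1), p.2 ≠ 0 → Acc (fun q p : X × Fin (m + 1) =>
        ∃ l, pvS D m none p = some l ∧ q = stp (actS act τ m) l p) p := by
      intro p hp
      refine Acc.intro p ?_
      rintro q ⟨l, hl, -⟩
      simp [pvS, hp] at hl
    rintro ⟨v, k⟩
    by_cases hk : k = 0
    · subst hk
      refine Acc.intro _ ?_
      rintro q ⟨l, hl', rfl⟩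
      simp only [pvS, if_true] at hl'
      obtain rfl := (Option.some.inj hl').symm
      refine h0 _ ?_
      change (0 : Fin (m + 1)) - 1 ≠ 0
      intro h
      rw [sub_eq_iff_eq_add, zero_add] at h
      have := congrArg Fin.val h
      simp only [Fin.val_zero] at this
      have h1 : (1 : Fin (m + 1)).val = 1 := by
        rw [Fin.val_one']
        exact Nat.mod_eq_of_lt (by omega)
      omega
    · exact h0 _ hk
  · refine ⟨?_⟩
    have key : ∀ (n : ℕ) (k : Fin (m + 1)), k.val = n → ∀ v, Acc (fun q p : X × Fin (m + 1) =>
        ∃ l, pvS D m (some c) p = some l ∧ q = stp (actS act τ m) l p) (v, k) := by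
      intro n
      induction n with
      | zero =>
        intro k hk v
        induction v using (mv_wf D (!od k) c).induction with
        | _ v ih =>
          refine Acc.intro _ ?_
          rintro q ⟨l, hl, rfl⟩
          simp only [pvS] at hl
          rcases ext_eq_some hl with ⟨l', h1, rfl⟩ | ⟨h1, h2⟩
          · rw [stp_actS_some]
            exact ih _ ⟨l', h1, rfl⟩
          · exfalso
            have : k = 0 := Fin.ext hk
            simp [this] at h2
      | succ n ihn =>
        intro k hk v
        induction v using (mv_wf D (!od k) c).induction with
        | _ v ih =>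
          refine Acc.intro _ ?_
          rintro q ⟨l, hl, rfl⟩
          simp only [pvS] at hl
          rcases ext_eq_some hl with ⟨l', h1, rfl⟩ | ⟨h1, h2⟩
          · rw [stp_actS_some]
            exact ih _ ⟨l', h1, rfl⟩
          · have hkl : k ≠ 0 := by
              rintro rfl
              simp at h2
            simp only [hkl, if_false] at h2
            obtain rfl := (Option.some.inj h2).symm
            rw [stp_actS_down _ _ _ hkl]
            apply ihn
            have h1 : (k - 1).val = k.val - 1 := Fin.val_sub_one_of_ne_zero hkl
            omega
    rintro ⟨v, k⟩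
    exact key _ k rfl v

/-- the data on the layers -/
def stepData (D : ForestData X L C act) (τ : Perm X) (m : ℕ) (hm : 1 ≤ m) :
    ForestData (X × Fin (m + 1)) (Option L) (Option C) (actS act τ m) where
  nx := nxS D m
  pv := pvS D m
  inv := stepData_inv D τ m
  dart := stepData_dart D m hm
  nx_none := stepData_nx_none D m
  pv_none := stepData_pv_none D m
  wf_nx := stepData_wf_nx D τ m hm
  wf_pv := stepData_wf_pv D τ m hm

end

end Pool.Agent.Helper43.LA
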