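import Pool.Agent.Helper43.LA.Main

/-!
# Special cases
-/

namespace Pool.Agent.Helper43.LA

open Equiv Pool.Agent.Helper39.HD

variable {Γ : Type} [AddCommGroup Γ]

/-- sets of elements of order three -/
theorem layered_of_three (S : Set Γ) (hS : ∀ s ∈ S, -s ∉ S) (h3 : ∀ s ∈ S, 3 • s = 0) :
    Layered S (AddSubgroup.closure S) := by
  refine Layered.ladder ⊥ _ Layered.bot (Ladder.start _ bot_le ?_ ?_)
  · intro x hx
    rw [AddSubgroup.mem_bot]
    induction hx using AddSubgroup.closure_induction with
    | mem s hs => exact h3 s hs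
    | zero => simp
    | add y z _ _ h1 h2 => rw [nsmul_add, h1, h2, add_zero]
    | neg y _ h1 => rw [smul_neg, h1, neg_zero]
  · intro s hs t ht _ _ hst _
    refine ⟨fun h => hst (sub_eq_zero.1 (AddSubgroup.mem_bot.1 h)), fun h => ?_⟩
    have := eq_neg_of_add_eq_zero_right (AddSubgroup.mem_bot.1 h)
    exact hS s hs (this ▸ ht)

/-- sets which generate a group of prime order -/
theorem layered_of_prime (S : Set Γ) (hS : ∀ s ∈ S, -s ∉ S)
    (hp : (Nat.card (AddSubgroup.closure S)).Prime) :
    Layered S (AddSubgroup.closure S) := by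
  classical
  have hfin : Finite (AddSubgroup.closure S) := Nat.finite_of_card_ne_zero hp.ne_zero
  set K := AddSubgroup.closure S with hK
  refine Layered.gen ⊥ K Layered.bot bot_le ?_ ?_
  · intro s hs hsK hs0
    rw [bot_sup_eq]
    have hle : AddSubgroup.zmultiples s ≤ K := by
      rw [AddSubgroup.zmultiples_le]; exact hsK
    have hdvd := AddSubgroup.card_dvd_of_le hle
    rcases (Nat.dvd_prime hp).1 hdvd with h1 | h1
    · exfalso
      apply hs0
      rw [AddSubgroup.card_eq_one] at h1
      rw [← h1]
      exact AddSubgroup.mem_zmultiples s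
    · exact AddSubgroup.eq_of_le_of_card_ge hle h1.ge
  · rw [AddSubgroup.relIndex_bot_left]
    have hfS : S.Finite := by
      have : (K : Set Γ).Finite := hfin
      exact this.subset AddSubgroup.subset_closure
    let g : {s ∈ S | s ∈ K ∧ s ∉ (⊥ : AddSubgroup Γ)} × Bool → K := fun p =>
      if p.2 then ⟨p.1.1, p.1.2.2.1⟩ else ⟨- p.1.1, K.neg_mem p.1.2.2.1⟩
    have hg : Function.Injective g := by
      rintro ⟨⟨s, hs1, hs2, hs3⟩, _ | _⟩ ⟨⟨t, ht1, ht2, ht3⟩, _ | _⟩ h
      · have h := congrArg Subtype.val h
        simp only [g, Bool.false_eq_true, if_false, neg_inj] at h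
        subst h
        rfl
      · have h := congrArg Subtype.val h
        simp only [g, Bool.false_eq_true, if_false, if_true] at h
        exact absurd (h ▸ ht1) (hS s hs1)
      · have h := congrArg Subtype.val h
        simp only [g, Bool.false_eq_true, if_false, if_true] at h
        exact absurd (h ▸ hs1) (hS t ht1)
      · have h := congrArg Subtype.val h
        simp only [g, if_true] at h
        subst h
        rfl
    have hc := Nat.card_le_card_of_injective g hg
    rw [Nat.card_prod, Nat.card_coe_set_eq, Nat.card_eq_fintype_card (α := Bool),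
      Fintype.card_bool] at hc
    omega

end Pool.Agent.Helper43.LA
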