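import Pool.Agent.Helper43.LA.Defs
import Pool.Agent.Helper39.HD.Two

namespace Pool.Agent.Helper43.LA

open Equiv Pool.Agent.Helper39.HD

/-! ### LA-GEN -/

namespace Gen

/-- reversing the direction of some labels -/
theorem flip_labels {X L C : Type*} {act act' : L → Perm X} (D : ForestData X L C act)
    (fl : L → Bool) (h : ∀ l β x, stp act' (l, β) x = stp act (l, xor β (fl l)) x) :
    Nonempty (ForestData X L C act') := by
  classical
  let φ : L × Bool → L × Bool := fun p => (p.1, xor p.2 (fl p.1))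
  have φφ : ∀ p, φ (φ p) = p := by rintro ⟨l, β⟩; simp [φ]
  have hφ : ∀ (o : Option (L × Bool)) p, o.map φ = some p ↔ o = some (φ p) := by
    intro o p
    cases o with
    | none => simp
    | some q =>
      simp only [Option.map_some, Option.some.injEq]
      constructor
      · intro h; rw [← h, φφ]
      · intro h; rw [h, φφ]
  have hn : ∀ (o : Option (L × Bool)), o.map φ = none ↔ o = none := by
    intro o; cases o <;> simp
  refine ⟨{
    nx := fun k x => (D.nx k x).map φ
    pv := fun k x => (D.pv k x).map φ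
    inv := ?_
    dart := ?_
    nx_none := ?_
    pv_none := ?_
    wf_nx := ?_
    wf_pv := ?_ }⟩
  · intro k x l β
    rw [hφ, hφ, h l β x]
    have h2 := D.inv k x l (xor β (fl l))
    change D.nx k x = some (l, xor β (fl l)) ↔ D.pv k _ = some (l, xor (!β) (fl l))
    rw [h2]
    have h3 : (!(xor β (fl l))) = xor (!β) (fl l) := by cases β <;> cases fl l <;> rfl
    rw [h3]
  · intro x p
    obtain ⟨q, hq, hu⟩ := D.dart x (φ p)
    refine ⟨q, ?_, ?_⟩
    · try dsimp only at hq ⊢
      split_ifs at hq ⊢ with h1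
      · exact (hφ _ _).2 hq
      · exact (hφ _ _).2 hq
    · intro r hr
      apply hu
      try dsimp only at hr ⊢
      split_ifs at hr ⊢ with h1
      · exact (hφ _ _).1 hr
      · exact (hφ _ _).1 hr
  · intro x
    simp only [hn]
    exact D.nx_none x
  · intro x
    simp only [hn]
    exact D.pv_none x
  · intro k
    refine Subrelation.wf ?_ (D.wf_nx k)
    rintro y x ⟨⟨l, β⟩, hl, hy⟩
    exact ⟨φ (l, β), (hφ _ _).1 hl, by rw [hy, h l β x]⟩
  · intro k
    refine Subrelation.wf ?_ (D.wf_pv k)
    rintro y x ⟨⟨l, β⟩, hl, hy⟩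
    exact ⟨φ (l, β), (hφ _ _).1 hl, by rw [hy, h l β x]⟩

variable {Q : Type} [AddCommGroup Q] {L : Type}

/-- a directed rainbow linear forest using the labels in `A` -/
structure State (a : L → Q) (A : Finset L) where
  c : Q → Q
  p : Q → ℤ
  x : L → Q
  y : L → Q
  arc : ∀ l ∈ A, y l = x l + a l ∨ y l = x l - a l
  comp : ∀ l ∈ A, c (y l) = c (x l)
  pos : ∀ l ∈ A, p (y l) = p (x l) + 1
  xinj : ∀ l ∈ A, ∀ l' ∈ A, x l = x l' → l = l'
  yinj : ∀ l ∈ A, ∀ l' ∈ A, y l = y l' → l = l'
  triv : ∀ v w, c v = c w → v ≠ w → (∃ l ∈ A, x l = v) ∨ (∃ l ∈ A, y l = v)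

/-- reversal of the component of `w` -/
theorem rev {a : L → Q} {A : Finset L} (S : State a A) (w : Q) : ∃ S' : State a A,
    (∀ v, S'.c v = S.c v) ∧
    (∀ v, S.c v = S.c w → (∀ l ∈ A, S.y l ≠ v) → ∀ l ∈ A, S'.x l ≠ v) ∧
    (∀ v, S.c v = S.c w → (∀ l ∈ A, S.x l ≠ v) → ∀ l ∈ A, S'.y l ≠ v) ∧
    (∀ v, S.c v ≠ S.c w → (∀ l ∈ A, S.x l ≠ v) → ∀ l ∈ A, S'.x l ≠ v) ∧
    (∀ v, S.c v ≠ S.c w → (∀ l ∈ A, S.y l ≠ v) → ∀ l ∈ A, S'.y l ≠ v) := by
  classical
  refine ⟨{
    c := S.c
    p := fun u => if S.c u = S.c w then -S.p u else S.p u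
    x := fun l => if S.c (S.x l) = S.c w then S.y l else S.x l
    y := fun l => if S.c (S.x l) = S.c w then S.x l else S.y l
    arc := ?_
    comp := ?_
    pos := ?_
    xinj := ?_
    yinj := ?_
    triv := ?_ }, fun v => rfl, ?_, ?_, ?_, ?_⟩
  · intro l hl
    try dsimp only
    split_ifs with h
    · rcases S.arc l hl with h1 | h1
      · right; rw [h1]; abel
      · left; rw [h1]; abel
    · exact S.arc l hl
  · intro l hl
    try dsimp only
    split_ifs with h
    · exact (S.comp l hl).symm
    · exact S.comp l hl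
  · intro l hl
    try dsimp only
    have h1 := S.comp l hl
    have h2 := S.pos l hl
    by_cases h : S.c (S.x l) = S.c w
    · rw [if_pos h, if_pos h, if_pos h, if_pos (h1.trans h), h2]; ring
    · rw [if_neg h, if_neg h, if_neg (fun h' => h (h1.symm.trans h')), if_neg h, h2]
  · intro l hl l' hl'
    try dsimp only
    split_ifs with h h' h'
    · exact S.yinj l hl l' hl'
    · intro e
      exfalso; apply h'
      rw [← e, S.comp l hl]; exact h
    · intro e
      exfalso; apply h
      rw [e, S.comp l' hl']; exact h'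
    · exact S.xinj l hl l' hl'
  · intro l hl l' hl'
    try dsimp only
    split_ifs with h h' h'
    · exact S.xinj l hl l' hl'
    · intro e
      exfalso; apply h'
      rw [← S.comp l' hl', ← e]; exact h
    · intro e
      exfalso; apply h
      rw [← S.comp l hl, e]; exact h'
    · exact S.yinj l hl l' hl'
  · intro u u' h1 h2
    try dsimp only
    rcases S.triv u u' h1 h2 with ⟨l, hl, h3⟩ | ⟨l, hl, h3⟩
    · by_cases h : S.c (S.x l) = S.c w
      · right; exact ⟨l, hl, by rw [if_pos h]; exact h3⟩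
      · left; exact ⟨l, hl, by rw [if_neg h]; exact h3⟩
    · by_cases h : S.c (S.x l) = S.c w
      · left; exact ⟨l, hl, by rw [if_pos h]; exact h3⟩
      · right; exact ⟨l, hl, by rw [if_neg h]; exact h3⟩
  · intro v hv h l hl
    try dsimp only
    split_ifs with h1
    · exact h l hl
    · intro e; exact h1 (by rw [e]; exact hv)
  · intro v hv h l hl
    try dsimp only
    split_ifs with h1
    · exact h l hl
    · intro e; exact h1 (by rw [← S.comp l hl, e]; exact hv)
  · intro v hv h l hl
    try dsimp only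
    split_ifs with h1
    · intro e; exact hv (by rw [← e, S.comp l hl]; exact h1)
    · exact h l hl
  · intro v hv h l hl
    try dsimp only
    split_ifs with h1
    · intro e; exact hv (by rw [← e]; exact h1)
    · exact h l hl

open Classical in
/-- adding an arc -/
theorem join {a : L → Q} {A : Finset L} (S : State a A) (l0 : L) (h0 : l0 ∉ A) (v w : Q)
    (hvw : w = v + a l0 ∨ w = v - a l0) (hc : S.c v ≠ S.c w) (hv : ∀ l ∈ A, S.x l ≠ v)
    (hw : ∀ l ∈ A, S.y l ≠ w) : Nonempty (State a (insert l0 A)) := by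
  have hx : ∀ l ∈ A, Function.update S.x l0 v l = S.x l := fun l hl =>
    Function.update_of_ne (fun e => h0 (by rw [← e]; exact hl)) _ _
  have hy : ∀ l ∈ A, Function.update S.y l0 w l = S.y l := fun l hl =>
    Function.update_of_ne (fun e => h0 (by rw [← e]; exact hl)) _ _
  have hx0 : Function.update S.x l0 v l0 = v := Function.update_self _ _ _
  have hy0 : Function.update S.y l0 w l0 = w := Function.update_self _ _ _
  refine ⟨{
    c := fun u => if S.c u = S.c w then S.c v else S.c u
    p := fun u => if S.c u = S.c w then S.p u + (S.p v + 1 - S.p w) else S.p u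
    x := Function.update S.x l0 v
    y := Function.update S.y l0 w
    arc := ?_
    comp := ?_
    pos := ?_
    xinj := ?_
    yinj := ?_
    triv := ?_ }⟩
  · intro l hl
    rcases Finset.mem_insert.1 hl with rfl | hl
    · rw [hx0, hy0]; exact hvw
    · rw [hx l hl, hy l hl]; exact S.arc l hl
  · intro l hl
    rcases Finset.mem_insert.1 hl with rfl | hl
    · rw [hx0, hy0]; simp [hc]
    · rw [hx l hl, hy l hl]; rw [S.comp l hl]
  · intro l hl
    rcases Finset.mem_insert.1 hl with rfl | hl
    · rw [hx0, hy0]; simp [hc]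
    · rw [hx l hl, hy l hl]; rw [S.comp l hl, S.pos l hl]
      split_ifs <;> ring
  · intro l hl l' hl'
    rcases Finset.mem_insert.1 hl with e1 | hl1 <;> rcases Finset.mem_insert.1 hl' with e2 | hl2
    · exact fun _ => e1.trans e2.symm
    · rw [e1, hx0, hx l' hl2]; intro e; exact absurd e.symm (hv l' hl2)
    · rw [e2, hx0, hx l hl1]; intro e; exact absurd e (hv l hl1)
    · rw [hx l hl1, hx l' hl2]; exact S.xinj l hl1 l' hl2
  · intro l hl l' hl'
    rcases Finset.mem_insert.1 hl with e1 | hl1 <;> rcases Finset.mem_insert.1 hl' with e2 | hl2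
    · exact fun _ => e1.trans e2.symm
    · rw [e1, hy0, hy l' hl2]; intro e; exact absurd e.symm (hw l' hl2)
    · rw [e2, hy0, hy l hl1]; intro e; exact absurd e (hw l hl1)
    · rw [hy l hl1, hy l' hl2]; exact S.yinj l hl1 l' hl2
  · have old : ∀ u u', S.c u = S.c u' → u ≠ u' →
        (∃ l ∈ insert l0 A, Function.update S.x l0 v l = u) ∨
        (∃ l ∈ insert l0 A, Function.update S.y l0 w l = u) := by
      intro u u' h1 h2
      rcases S.triv u u' h1 h2 with ⟨l, hl, h3⟩ | ⟨l, hl, h3⟩
      · left; exact ⟨l, Finset.mem_insert_of_mem hl, by rw [hx l hl]; exact h3⟩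
      · right; exact ⟨l, Finset.mem_insert_of_mem hl, by rw [hy l hl]; exact h3⟩
    intro u u' h1 h2
    try dsimp only at h1
    by_cases hu : S.c u = S.c w
    · by_cases huw : u = w
      · right
        exact ⟨l0, Finset.mem_insert_self _ _, by rw [hy0, huw]⟩
      · exact old u w hu huw
    · rw [if_neg hu] at h1
      by_cases hu' : S.c u' = S.c w
      · rw [if_pos hu'] at h1
        by_cases huv : u = v
        · left
          exact ⟨l0, Finset.mem_insert_self _ _, by rw [hx0, huv]⟩
        · exact old u v h1 huv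
      · rw [if_neg hu'] at h1
        exact old u u' h1 h2

open Classical in
/-- adding one label -/
theorem step [Finite Q] {a : L → Q} (h0 : ∀ l, a l ≠ 0) {A : Finset L} (S : State a A) (l0 : L)
    (hl0 : l0 ∉ A) (hcard : 2 * A.card < Nat.card Q) : Nonempty (State a (insert l0 A)) := by
  have := Fintype.ofFinite Q
  set T := A.image S.x with hT
  set D := A.image S.y with hD
  have cT : T.card = A.card := Finset.card_image_of_injOn fun l hl l' hl' h => S.xinj l hl l' hl' h
  have cD : D.card = A.card := Finset.card_image_of_injOn fun l hl l' hl' h => S.yinj l hl l' hl' h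
  obtain ⟨v, hv1, hv2, hv3⟩ : ∃ v, v ∉ T ∩ D ∧ v + a l0 ∉ T ∩ D ∧ S.c v ≠ S.c (v + a l0) := by
    by_contra hcon
    push Not at hcon
    have hsub : (Finset.univ : Finset Q) ⊆
        (T ∩ D) ∪ ((T ∩ D).image (fun u => u - a l0)) ∪ ((T \ D) ∪ (D \ T)) := by
      intro v _
      by_cases h1 : v ∈ T ∩ D
      · exact Finset.mem_union_left _ (Finset.mem_union_left _ h1)
      · by_cases h2 : v + a l0 ∈ T ∩ D
        · refine Finset.mem_union_left _ (Finset.mem_union_right _ ?_)
          exact Finset.mem_image.2 ⟨_, h2, by abel⟩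
        · refine Finset.mem_union_right _ ?_
          have h3 := hcon v h1 h2
          have h4 : v ≠ v + a l0 := fun e => h0 l0 (by simpa using e.symm)
          rw [Finset.mem_union, Finset.mem_sdiff, Finset.mem_sdiff]
          rw [Finset.mem_inter] at h1
          rcases S.triv v _ h3 h4 with ⟨l, hl, h5⟩ | ⟨l, hl, h5⟩
          · have h6 : v ∈ T := Finset.mem_image.2 ⟨l, hl, h5⟩
            left; exact ⟨h6, fun h7 => h1 ⟨h6, h7⟩⟩
          · have h6 : v ∈ D := Finset.mem_image.2 ⟨l, hl, h5⟩
            right; exact ⟨h6, fun h7 => h1 ⟨h7, h6⟩⟩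
    have h1 := Finset.card_le_card hsub
    have h2 := Finset.card_union_le ((T ∩ D) ∪ ((T ∩ D).image (fun u => u - a l0)))
      ((T \ D) ∪ (D \ T))
    have h3 := Finset.card_union_le (T ∩ D) ((T ∩ D).image (fun u => u - a l0))
    have h4 := Finset.card_union_le (T \ D) (D \ T)
    have h5 : ((T ∩ D).image (fun u => u - a l0)).card ≤ (T ∩ D).card := Finset.card_image_le
    have h6 := Finset.card_inter_add_card_sdiff T D
    have h7 := Finset.card_inter_add_card_sdiff D T
    rw [Finset.inter_comm D T] at h7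
    rw [Finset.card_univ, ← Nat.card_eq_fintype_card] at h1
    omega
  set w := v + a l0 with hw
  have nT : ∀ u, u ∉ T → ∀ l ∈ A, S.x l ≠ u := fun u hu l hl e =>
    hu (Finset.mem_image.2 ⟨l, hl, e⟩)
  have nD : ∀ u, u ∉ D → ∀ l ∈ A, S.y l ≠ u := fun u hu l hl e =>
    hu (Finset.mem_image.2 ⟨l, hl, e⟩)
  have e1 : w = v + a l0 ∨ w = v - a l0 := Or.inl rfl
  have e2 : v = w + a l0 ∨ v = w - a l0 := Or.inr (by rw [hw]; abel)
  obtain ⟨S', s1, s2, s3, s4, s5⟩ := rev S w
  have hc' : S'.c v ≠ S'.c w := by rw [s1, s1]; exact hv3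
  by_cases vT : v ∈ T
  · have vD : v ∉ D := fun h => hv1 (Finset.mem_inter.2 ⟨vT, h⟩)
    by_cases wT : w ∈ T
    · have wD : w ∉ D := fun h => hv2 (Finset.mem_inter.2 ⟨wT, h⟩)
      exact join S' l0 hl0 w v e2 hc'.symm (s2 w rfl (nD w wD)) (s5 v hv3 (nD v vD))
    · exact join S l0 hl0 w v e2 hv3.symm (nT w wT) (nD v vD)
  · by_cases wD : w ∈ D
    · have wT : w ∉ T := fun h => hv2 (Finset.mem_inter.2 ⟨h, wD⟩)
      exact join S' l0 hl0 v w e1 hc' (s4 v hv3 (nT v vT)) (s3 w rfl (nT w wT))
    · exact join S l0 hl0 v w e1 hv3 (nT v vT) (nD w wD)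

open Classical in
theorem exists_state [Finite Q] [Finite L] {a : L → Q} (h0 : ∀ l, a l ≠ 0)
    (hcard : 2 * Nat.card L ≤ Nat.card Q + 1) (A : Finset L) : Nonempty (State a A) := by
  have := Fintype.ofFinite L
  induction A using Finset.induction_on with
  | empty =>
    exact ⟨{
      c := id
      p := fun _ => 0
      x := fun _ => 0
      y := fun _ => 0
      arc := by simp
      comp := by simp
      pos := by simp
      xinj := by simp
      yinj := by simp
      triv := fun v w h h' => absurd h h' }⟩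
  | @insert l0 A hl0 ih =>
    obtain ⟨S⟩ := ih
    refine step h0 S l0 hl0 ?_
    have h1 : (insert l0 A).card ≤ Nat.card L := by
      rw [Nat.card_eq_fintype_card]; exact Finset.card_le_univ _
    rw [Finset.card_insert_of_notMem hl0] at h1
    omega

end Gen

open Gen in
theorem base_gen {Q : Type} [AddCommGroup Q] [Finite Q] {L : Type} [Finite L] (a : L → Q)
    (h0 : ∀ l, a l ≠ 0) (hgen : ∀ l, AddSubgroup.zmultiples (a l) = ⊤)
    (hcard : 2 * Nat.card L ≤ Nat.card Q + 1) : HasFD Q a := by
  classical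
  have := Fintype.ofFinite L
  have := Fintype.ofFinite Q
  obtain ⟨S⟩ := exists_state h0 hcard Finset.univ
  have hA : ∀ l : L, l ∈ (Finset.univ : Finset L) := Finset.mem_univ
  let t : L → Q := fun l => S.y l - S.x l
  have ht : ∀ l, S.x l + t l = S.y l := fun l => by simp [t]
  have ht2 : ∀ l, t l = a l ∨ t l = -a l := by
    intro l
    rcases S.arc l (hA l) with h | h
    · left; simp only [t]; rw [h]; abel
    · right; simp only [t]; rw [h]; abel
  have htgen : ∀ l x, ∃ n : ℕ, x + n • t l = S.x l := by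
    intro l x
    have h1 : AddSubgroup.zmultiples (t l) = ⊤ := by
      rcases ht2 l with h | h
      · rw [h]; exact hgen l
      · rw [h, AddSubgroup.zmultiples_neg]; exact hgen l
    have h2 : S.x l - x ∈ AddSubgroup.zmultiples (t l) := by rw [h1]; exact AddSubgroup.mem_top _
    obtain ⟨k, hk⟩ := AddSubgroup.mem_zmultiples_iff.1 h2
    refine ⟨(k % (addOrderOf (t l) : ℤ)).toNat, ?_⟩
    have h3 : (0 : ℤ) < addOrderOf (t l) := by exact_mod_cast addOrderOf_pos (t l)
    have h4 := Int.emod_nonneg k h3.ne'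
    have h5 : ((k % (addOrderOf (t l) : ℤ)).toNat : ℕ) • t l = k • t l := by
      rw [← natCast_zsmul, Int.toNat_of_nonneg h4, mod_addOrderOf_zsmul]
    rw [h5, hk]; abel
  obtain ⟨M, hM⟩ : ∃ M : ℤ, ∀ x, S.p x ≤ M := by
    obtain ⟨M, hM⟩ := (Set.finite_range S.p).bddAbove
    exact ⟨M, fun x => hM ⟨x, rfl⟩⟩
  obtain ⟨D⟩ := Two.absorb t (fun l => {S.x l}) (by
      intro l x
      obtain ⟨n, hn⟩ := htgen l x
      exact ⟨n, hn⟩) (by
      intro l l' x h1 h2
      have h1' : x = S.x l := h1
      have h2' : x = S.x l' := h2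
      exact S.xinj l (hA l) l' (hA l') (h1'.symm.trans h2')) (by
      intro l l' x h1 h2
      have h1' : x - t l = S.x l := h1
      have h2' : x - t l' = S.x l' := h2
      rw [sub_eq_iff_eq_add] at h1' h2'
      rw [ht] at h1' h2'
      exact S.yinj l (hA l) l' (hA l') (h1'.symm.trans h2'))
    (fun x => (M - S.p x).toNat) (by
      intro l x hx
      have hx' : x = S.x l := hx
      subst hx'
      rw [ht]
      have h1 := S.pos l (hA l)
      have h2 := hM (S.y l)
      change (M - S.p (S.y l)).toNat < (M - S.p (S.x l)).toNat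
      omega)
  refine ⟨Option L, inferInstance, ?_⟩
  refine flip_labels D (fun l => if t l = a l then false else true) ?_
  intro l β x
  try dsimp only
  split_ifs with h1
  · rw [Bool.xor_false]
    cases β
    · rw [Two.stp_add_false, Two.stp_add_false, h1]
    · rw [Two.stp_add_true, Two.stp_add_true, h1]
  · have h2 : t l = -a l := (ht2 l).resolve_left h1
    cases β
    · change stp _ (l, false) x = stp _ (l, true) x
      rw [Two.stp_add_false, Two.stp_add_true, h2]; abel
    · change stp _ (l, true) x = stp _ (l, false) x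
      rw [Two.stp_add_false, Two.stp_add_true, h2]; abel

end Pool.Agent.Helper43.LA
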