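import Pool.Agent.Helper43.LA.Defs

namespace Pool.Agent.Helper43.LA

open Equiv Pool.Agent.Helper39.HD

/-! ### LA-HYPER: elementary abelian 3-groups -/

private theorem card_range_three {K : Type} [AddCommGroup K] (χ : K →+ ZMod 3) (h : χ ≠ 0) :
    Nat.card χ.range = 3 := by
  have : Fact (Nat.Prime 3) := ⟨Nat.prime_three⟩
  have : Fact (Nat.card (ZMod 3)).Prime := by
    rw [Nat.card_zmod]
    infer_instance
  have h1 : χ.range = ⊤ := by
    rcases χ.range.eq_bot_or_eq_top_of_prime_card with h2 | h2
    · exact absurd (AddMonoidHom.range_eq_bot_iff.1 h2) h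
    · exact h2
  rw [h1, AddSubgroup.card_top, Nat.card_zmod]

theorem exists_hyperplane {K : Type} [AddCommGroup K] [Finite K] [Nontrivial K]
    (h3 : ∀ x : K, 3 • x = 0) {L : Type} [Finite L] (a : L → K) (ha : Function.Injective a)
    (hneg : ∀ l l', a l ≠ - a l') :
    ∃ K' : AddSubgroup K, K'.index = 3 ∧
      Nat.card {l // a l ∉ K'} ≤ 2 * (Nat.card {l // a l ∈ K'} + 1) := by
  classical
  have : Fact (Nat.Prime 3) := ⟨Nat.prime_three⟩
  let _ : Module (ZMod 3) K := AddCommGroup.zmodModule h3
  have := Fintype.ofFinite K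
  have := Fintype.ofFinite L
  have : Module.Finite (ZMod 3) K := Module.Finite.of_finite
  have : Finite (Module.Dual (ZMod 3) K) := Module.finite_of_finite (ZMod 3)
  have := Fintype.ofFinite (Module.Dual (ZMod 3) K)
  have ha0 : ∀ l, a l ≠ 0 := fun l h => hneg l l (by rw [h, neg_zero])
  by_contra hcon
  push Not at hcon
  set n := Fintype.card L with hn
  set N := Fintype.card (Module.Dual (ZMod 3) K) with hN
  have hNK : Fintype.card K = N := by
    rw [hN, Module.card_eq_pow_finrank (K := ZMod 3) (V := K),
      Module.card_eq_pow_finrank (K := ZMod 3) (V := Module.Dual (ZMod 3) K),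
      Subspace.dual_finrank_eq]
  have hN2 : 2 ≤ N := by
    rw [← hNK]
    exact Fintype.one_lt_card
  have hc : ∀ χ : Module.Dual (ZMod 3) K, χ ≠ 0 →
      3 * (Finset.univ.filter (fun l => χ (a l) = 0)).card + 3 ≤ n := by
    intro χ hχ
    have hχ' : (χ.toAddMonoidHom : K →+ ZMod 3) ≠ 0 := by
      intro h
      apply hχ
      ext x
      exact DFunLike.congr_fun h x
    have h1 := hcon χ.toAddMonoidHom.ker (by
      rw [AddSubgroup.index_ker]
      exact card_range_three _ hχ')
    have h2 : Nat.card {l // a l ∈ χ.toAddMonoidHom.ker} =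
        (Finset.univ.filter (fun l => χ (a l) = 0)).card := by
      rw [Nat.card_eq_fintype_card, Fintype.card_subtype]
      congr 1
      ext l
      rw [Finset.mem_filter, Finset.mem_filter, AddMonoidHom.mem_ker]
      rfl
    have h3' : Nat.card {l // a l ∉ χ.toAddMonoidHom.ker} + Nat.card {l // a l ∈ χ.toAddMonoidHom.ker} =
        n := by
      rw [Nat.card_eq_fintype_card, Nat.card_eq_fintype_card, Fintype.card_subtype_compl]
      have := Fintype.card_subtype_le (fun l => a l ∈ χ.toAddMonoidHom.ker)
      omega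
    omega
  have hx : ∀ x : K, x ≠ 0 → 3 * (Finset.univ.filter
      (fun χ : Module.Dual (ZMod 3) K => χ x = 0)).card = N := by
    intro x hx0
    let ev : Module.Dual (ZMod 3) K →+ ZMod 3 :=
      { toFun := fun χ => χ x
        map_zero' := rfl
        map_add' := fun _ _ => rfl }
    have hev : ev ≠ 0 := by
      intro h
      apply hx0
      rw [← Module.forall_dual_apply_eq_zero_iff (ZMod 3)]
      intro χ
      exact DFunLike.congr_fun h χ
    have h1 := ev.ker.card_mul_index
    rw [AddSubgroup.index_ker, card_range_three ev hev] at h1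
    have h2 : Nat.card ev.ker = (Finset.univ.filter
      (fun χ : Module.Dual (ZMod 3) K => χ x = 0)).card := by
      rw [Nat.card_eq_fintype_card, Fintype.card_subtype]
      congr 1
      ext l
      rw [Finset.mem_filter, Finset.mem_filter, AddMonoidHom.mem_ker]
      rfl
    rw [h2, Nat.card_eq_fintype_card] at h1
    omega
  have hsum : ∑ χ : Module.Dual (ZMod 3) K, (Finset.univ.filter (fun l => χ (a l) = 0)).card =
      ∑ l : L, (Finset.univ.filter
        (fun χ : Module.Dual (ZMod 3) K => χ (a l) = 0)).card :=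
    Finset.sum_card_bipartiteAbove_eq_sum_card_bipartiteBelow
      (fun (χ : Module.Dual (ZMod 3) K) (l : L) => χ (a l) = 0)
  have h5 : 3 * ∑ χ : Module.Dual (ZMod 3) K,
      (Finset.univ.filter (fun l => χ (a l) = 0)).card = n * N := by
    rw [hsum, Finset.mul_sum, Finset.sum_congr rfl (fun l _ => hx (a l) (ha0 l)),
      Finset.sum_const, Finset.card_univ, smul_eq_mul]
  have h6 : (Finset.univ.filter (fun l => (0 : Module.Dual (ZMod 3) K) (a l) = 0)).card = n := by
    rw [Finset.filter_true_of_mem (fun l _ => LinearMap.zero_apply (a l)), Finset.card_univ]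
  rw [← Finset.add_sum_erase _ _ (Finset.mem_univ (0 : Module.Dual (ZMod 3) K)), h6] at h5
  have h7 : ∑ χ ∈ Finset.univ.erase (0 : Module.Dual (ZMod 3) K),
      (3 * (Finset.univ.filter (fun l => χ (a l) = 0)).card + 3) ≤ (N - 1) * n := by
    refine (Finset.sum_le_sum fun χ hχ => hc χ (Finset.ne_of_mem_erase hχ)).trans ?_
    rw [Finset.sum_const, Finset.card_erase_of_mem (Finset.mem_univ _), Finset.card_univ,
      smul_eq_mul]
  rw [Finset.sum_add_distrib, ← Finset.mul_sum, Finset.sum_const,
    Finset.card_erase_of_mem (Finset.mem_univ _), Finset.card_univ, smul_eq_mul] at h7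
  have h8 : 2 * n + 1 ≤ N := by
    let f : Option (L × Bool) → K := fun o => o.elim 0 (fun p => if p.2 then a p.1 else -a p.1)
    have hf : Function.Injective f := by
      rintro (_ | ⟨l, β⟩) (_ | ⟨l', β'⟩) h
      · rfl
      · cases β'
        · exact absurd (neg_eq_zero.1 h.symm) (ha0 l')
        · exact absurd h.symm (ha0 l')
      · cases β
        · exact absurd (neg_eq_zero.1 h) (ha0 l)
        · exact absurd h (ha0 l)
      · cases β <;> cases β'
        · have h' : l = l' := ha (neg_injective h)
          rw [h']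
        · exact absurd h.symm (hneg l' l)
        · exact absurd h (hneg l l')
        · have h' : l = l' := ha h
          rw [h']
    have h9 := Fintype.card_le_of_injective f hf
    rw [Fintype.card_option, Fintype.card_prod, Fintype.card_bool, hNK] at h9
    omega
  rw [← hN] at h7
  obtain ⟨M, hM⟩ : ∃ M, N = M + 1 := ⟨N - 1, by omega⟩
  rw [hM] at h5 h7 h8 hN2
  rw [Nat.add_sub_cancel] at h7
  rw [Nat.mul_add, Nat.mul_add, Nat.mul_one, Nat.mul_comm n M] at h5
  omega

end Pool.Agent.Helper43.LA
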