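import Pool.Agent.Helper43.LA.Defs
import Pool.Agent.Helper39.HD.Two

namespace Pool.Agent.Helper43.LA

open Equiv Pool.Agent.Helper39.HD

/-! ### LA-LONG -/

section Rosenfeld

variable {ι V : Type} [Fintype ι] [DecidableEq ι] [Fintype V] [DecidableEq V]

/-- conflict-free choices on the set `P` of parts, equal to `d` outside `P` -/
private noncomputable def NN (S : ι → Finset V) (R : ι → V → ι → V → Prop) (d : V)
    (P : Finset ι) : Finset (ι → V) :=
  @Finset.filter (ι → V) (fun f => (∀ i ∈ P, f i ∈ S i) ∧ (∀ i, i ∉ P → f i = d) ∧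
    ∀ i ∈ P, ∀ j ∈ P, i ≠ j → ¬ R i (f i) j (f j)) (Classical.decPred _) Finset.univ

omit [DecidableEq V] in
private theorem mem_NN (S : ι → Finset V) (R : ι → V → ι → V → Prop) (d : V)
    (P : Finset ι) (f : ι → V) : f ∈ NN S R d P ↔ (∀ i ∈ P, f i ∈ S i) ∧
      (∀ i, i ∉ P → f i = d) ∧ ∀ i ∈ P, ∀ j ∈ P, i ≠ j → ¬ R i (f i) j (f j) := by
  unfold NN
  exact ⟨fun h => ((@Finset.mem_filter _ _ (Classical.decPred _) _ _).1 h).2,
    fun h => (@Finset.mem_filter _ _ (Classical.decPred _) _ _).2 ⟨Finset.mem_univ _, h⟩⟩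

open Classical in
private noncomputable def conf (S : ι → Finset V) (R : ι → V → ι → V → Prop) (i : ι) (x : V) :
    Finset (ι × V) :=
  Finset.univ.filter (fun p => p.2 ∈ S p.1 ∧ p.1 ≠ i ∧ R i x p.1 p.2)

open Classical in
private theorem step_count (S : ι → Finset V) (R : ι → V → ι → V → Prop)
    (hsym : ∀ i x j y, R i x j y → R j y i x) (d : V) (Δ : ℕ)
    (hconf : ∀ i, ∀ x ∈ S i, (conf S R i x).card ≤ Δ) (hS : ∀ i, 4 * Δ ≤ (S i).card) (n : ℕ) :
    ∀ P : Finset ι, P.card = n → ∀ i, i ∉ P →
      (S i).card * (NN S R d P).card ≤ 2 * (NN S R d (insert i P)).card := by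
  induction n using Nat.strong_induction_on with
  | _ n ih =>
    intro P hP i hi
    set A := NN S R d P ×ˢ S i with hA
    set Good := A.filter (fun p => ∀ j ∈ P, ¬ R i p.2 j (p.1 j)) with hGood
    set Bad := A.filter (fun p => ¬ ∀ j ∈ P, ¬ R i p.2 j (p.1 j)) with hBad
    have h1 : Good.card + Bad.card = (NN S R d P).card * (S i).card := by
      rw [hGood, hBad, Finset.card_filter_add_card_filter_not, hA, Finset.card_product]
    have h2 : Good.card ≤ (NN S R d (insert i P)).card := by
      refine Finset.card_le_card_of_injOn (fun p => Function.update p.1 i p.2) ?_ ?_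
      · rintro ⟨f, x⟩ hp
        simp only [hGood, hA, Finset.coe_filter, Finset.mem_product, Set.mem_ofPred_eq,
          mem_NN] at hp
        obtain ⟨⟨⟨hf1, hf2, hf3⟩, hx⟩, hg⟩ := hp
        simp only [Finset.mem_coe, mem_NN]
        have hne : ∀ j ∈ P, j ≠ i := fun j hj h => hi (h ▸ hj)
        refine ⟨?_, ?_, ?_⟩
        · intro j hj
          rcases Finset.mem_insert.1 hj with rfl | hj
          · rwa [Function.update_self]
          · rw [Function.update_of_ne (hne j hj)]
            exact hf1 j hj
        · intro j hj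
          rw [Finset.mem_insert, not_or] at hj
          rw [Function.update_of_ne hj.1]
          exact hf2 j hj.2
        · intro j hj k hk hjk
          rcases Finset.mem_insert.1 hj with hj' | hj'
          · rcases Finset.mem_insert.1 hk with hk' | hk'
            · exact absurd (hj'.trans hk'.symm) hjk
            · rw [hj', Function.update_self, Function.update_of_ne (hne k hk')]
              exact hg k hk'
          · rcases Finset.mem_insert.1 hk with hk' | hk'
            · rw [hk', Function.update_self, Function.update_of_ne (hne j hj')]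
              exact fun h => hg j hj' (hsym _ _ _ _ h)
            · rw [Function.update_of_ne (hne j hj'), Function.update_of_ne (hne k hk')]
              exact hf3 j hj' k hk' hjk
      · rintro ⟨f, x⟩ hp ⟨f', x'⟩ hp' h
        simp only [hGood, hA, Finset.coe_filter, Finset.mem_product, Set.mem_ofPred_eq,
          mem_NN] at hp hp'
        dsimp only at h
        have hx : x = x' := by
          have := congrFun h i
          rwa [Function.update_self, Function.update_self] at this
        have hf : f = f' := by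
          funext j
          by_cases hj : j = i
          · rw [hj, hp.1.1.2.1 i hi, hp'.1.1.2.1 i hi]
          · have := congrFun h j
            rwa [Function.update_of_ne hj, Function.update_of_ne hj] at this
        rw [hx, hf]
    have h3 : ∀ j ∈ P, ∀ y, ((NN S R d P).filter (fun f => f j = y)).card ≤
        (NN S R d (P.erase j)).card := by
      intro j hj y
      refine Finset.card_le_card_of_injOn (fun f => Function.update f j d) ?_ ?_
      · intro f hf
        simp only [Finset.coe_filter, Set.mem_ofPred_eq, mem_NN] at hf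
        obtain ⟨⟨hf1, hf2, hf3⟩, -⟩ := hf
        simp only [Finset.mem_coe, mem_NN]
        refine ⟨?_, ?_, ?_⟩
        · intro k hk
          rw [Finset.mem_erase] at hk
          rw [Function.update_of_ne hk.1]
          exact hf1 k hk.2
        · intro k hk
          by_cases hkj : k = j
          · rw [hkj, Function.update_self]
          · rw [Function.update_of_ne hkj]
            exact hf2 k fun h => hk (Finset.mem_erase.2 ⟨hkj, h⟩)
        · intro k hk m hm hkm
          rw [Finset.mem_erase] at hk hm
          rw [Function.update_of_ne hk.1, Function.update_of_ne hm.1]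
          exact hf3 k hk.2 m hm.2 hkm
      · intro f hf f' hf' h
        simp only [Finset.coe_filter, Set.mem_ofPred_eq] at hf hf'
        dsimp only at h
        funext k
        by_cases hk : k = j
        · rw [hk, hf.2, hf'.2]
        · have := congrFun h k
          rwa [Function.update_of_ne hk, Function.update_of_ne hk] at this
    have h4 : ∀ j ∈ P, 2 * Δ * (NN S R d (P.erase j)).card ≤ (NN S R d P).card := by
      intro j hj
      have hlt : (P.erase j).card < n := by
        rw [← hP]
        exact Finset.card_erase_lt_of_mem hj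
      have := ih _ hlt (P.erase j) rfl j (Finset.notMem_erase j P)
      rw [Finset.insert_erase hj] at this
      have h5 := Nat.mul_le_mul_right (NN S R d (P.erase j)).card (hS j)
      have h6 : 2 * (2 * Δ * (NN S R d (P.erase j)).card) ≤ 2 * (NN S R d P).card := by
        calc _ = 4 * Δ * (NN S R d (P.erase j)).card := by ring
          _ ≤ _ := h5.trans this
      omega
    have h5 : Bad.card ≤ ∑ x ∈ S i, ∑ p ∈ (conf S R i x).filter (fun p => p.1 ∈ P),
        (NN S R d (P.erase p.1)).card := by
      have hsub : Bad ⊆ (S i).biUnion (fun x => ((conf S R i x).filter (fun p => p.1 ∈ P)).biUnion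
          (fun p => ((NN S R d P).filter (fun f => f p.1 = p.2)).image (fun f => (f, x)))) := by
        rintro ⟨f, x⟩ hp
        rw [hBad, hA, Finset.mem_filter, Finset.mem_product] at hp
        obtain ⟨⟨hf, hx⟩, hb⟩ := hp
        push Not at hb
        obtain ⟨j, hj, hR⟩ := hb
        rw [Finset.mem_biUnion]
        refine ⟨x, hx, ?_⟩
        rw [Finset.mem_biUnion]
        refine ⟨(j, f j), ?_, ?_⟩
        · rw [Finset.mem_filter, conf, Finset.mem_filter]
          exact ⟨⟨Finset.mem_univ _, ((mem_NN _ _ _ _ _).1 hf).1 j hj,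
            fun h => hi (h ▸ hj), hR⟩, hj⟩
        · rw [Finset.mem_image]
          exact ⟨f, Finset.mem_filter.2 ⟨hf, rfl⟩, rfl⟩
      refine (Finset.card_le_card hsub).trans (Finset.card_biUnion_le.trans ?_)
      refine Finset.sum_le_sum fun x hx => Finset.card_biUnion_le.trans ?_
      refine Finset.sum_le_sum fun p hp => Finset.card_image_le.trans ?_
      exact h3 p.1 (Finset.mem_filter.1 hp).2 p.2
    have h6 : 2 * Bad.card ≤ (S i).card * (NN S R d P).card := by
      rcases Nat.eq_zero_or_pos Δ with h0 | hpos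
      · have : Bad.card ≤ 0 := by
          refine h5.trans (Finset.sum_nonpos fun x hx => ?_)
          have hc := hconf i x hx
          rw [h0, Nat.le_zero, Finset.card_eq_zero] at hc
          rw [hc, Finset.filter_empty, Finset.sum_empty]
        omega
      · have h7 : 2 * Δ * Bad.card ≤ (S i).card * (Δ * (NN S R d P).card) := by
          refine (Nat.mul_le_mul_left _ h5).trans ?_
          rw [Finset.mul_sum, ← smul_eq_mul (S i).card, ← Finset.sum_const]
          refine Finset.sum_le_sum fun x hx => ?_
          rw [Finset.mul_sum]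
          refine (Finset.sum_le_sum fun p hp => h4 p.1 (Finset.mem_filter.1 hp).2).trans ?_
          rw [Finset.sum_const, smul_eq_mul]
          exact Nat.mul_le_mul_right _ ((Finset.card_filter_le _ _).trans (hconf i x hx))
        refine Nat.le_of_mul_le_mul_left ?_ hpos
        calc Δ * (2 * Bad.card) = 2 * Δ * Bad.card := by ring
          _ ≤ (S i).card * (Δ * (NN S R d P).card) := h7
          _ = _ := by ring
    have h8 : (NN S R d P).card * (S i).card = (S i).card * (NN S R d P).card := Nat.mul_comm _ _
    omega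

private theorem exists_choice (S : ι → Finset V) (R : ι → V → ι → V → Prop)
    (hsym : ∀ i x j y, R i x j y → R j y i x) (d : V) (Δ : ℕ)
    (hconf : ∀ i, ∀ x ∈ S i, (conf S R i x).card ≤ Δ) (hS : ∀ i, 4 * Δ ≤ (S i).card)
    (hne : ∀ i, (S i).Nonempty) :
    ∃ f : ι → V, (∀ i, f i ∈ S i) ∧ ∀ i j, i ≠ j → ¬ R i (f i) j (f j) := by
  have h : ∀ P : Finset ι, 0 < (NN S R d P).card := by
    intro P
    induction P using Finset.induction_on with
    | empty =>
      refine Finset.card_pos.2 ⟨fun _ => d, ?_⟩
      rw [mem_NN]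
      exact ⟨fun i hi => absurd hi (Finset.notMem_empty i), fun _ _ => rfl,
        fun i hi => absurd hi (Finset.notMem_empty i)⟩
    | insert i P hi ih =>
      have h1 := step_count S R hsym d Δ hconf hS P.card P rfl i hi
      have h2 : 0 < (S i).card * (NN S R d P).card :=
        Nat.mul_pos (Finset.card_pos.2 (hne i)) ih
      omega
  obtain ⟨f, hf⟩ := Finset.card_pos.1 (h Finset.univ)
  rw [mem_NN] at hf
  exact ⟨f, fun i => hf.1 i (Finset.mem_univ i),
    fun i j => hf.2.2 i (Finset.mem_univ i) j (Finset.mem_univ j)⟩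

end Rosenfeld

theorem base_long {Q : Type} [AddCommGroup Q] [Finite Q] {L : Type} [Finite L] (a : L → Q)
    (h0 : ∀ l, a l ≠ 0) (hord : ∀ l, 16 * (Nat.card L - 1) ≤ addOrderOf (a l)) :
    HasFD Q a := by
  classical
  have := Fintype.ofFinite Q
  have := Fintype.ofFinite L
  let ι : Type := Σ l : L, Q ⧸ AddSubgroup.zmultiples (a l)
  have : Finite ι := by
    dsimp only [ι]
    infer_instance
  have := Fintype.ofFinite ι
  let S : ι → Finset Q := fun i =>
    Finset.univ.filter (fun x => (QuotientAddGroup.mk x : Q ⧸ AddSubgroup.zmultiples (a i.1)) = i.2)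
  let R : ι → Q → ι → Q → Prop := fun i x j y => i.1 ≠ j.1 ∧
    (x = y ∨ x = y + a j.1 ∨ x + a i.1 = y ∨ x + a i.1 = y + a j.1)
  have hsym : ∀ i x j y, R i x j y → R j y i x := by
    rintro i x j y ⟨h1, h2 | h2 | h2 | h2⟩
    · exact ⟨h1.symm, Or.inl h2.symm⟩
    · exact ⟨h1.symm, Or.inr (Or.inr (Or.inl h2.symm))⟩
    · exact ⟨h1.symm, Or.inr (Or.inl h2.symm)⟩
    · exact ⟨h1.symm, Or.inr (Or.inr (Or.inr h2.symm))⟩
  have hScard : ∀ i, addOrderOf (a i.1) ≤ (S i).card := by
    rintro ⟨l, c⟩
    obtain ⟨x0, rfl⟩ := QuotientAddGroup.mk_surjective c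
    rw [← Nat.card_zmultiples, Nat.card_eq_fintype_card, ← Finset.card_univ]
    refine Finset.card_le_card_of_injOn (fun k => x0 + (k : Q)) ?_ ?_
    · intro k _
      simp only [S, Finset.coe_filter, Finset.mem_univ, true_and, Set.mem_ofPred_eq]
      exact QuotientAddGroup.mk_add_of_mem x0 k.2
    · intro k _ k' _ h
      exact Subtype.ext (add_left_cancel h)
  have hne : ∀ i, (S i).Nonempty := fun i =>
    Finset.card_pos.1 ((addOrderOf_pos (a i.1)).trans_le (hScard i))
  have hconf : ∀ i, ∀ x ∈ S i, (conf S R i x).card ≤ 4 * (Nat.card L - 1) := by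
    intro i x _
    let v : L × Fin 4 → Q := fun p =>
      (![x, x - a p.1, x + a i.1, x + a i.1 - a p.1] : Fin 4 → Q) p.2
    let g : L × Fin 4 → ι × Q := fun p => (⟨p.1, QuotientAddGroup.mk (v p)⟩, v p)
    have hsub : conf S R i x ⊆ ((Finset.univ.erase i.1) ×ˢ (Finset.univ : Finset (Fin 4))).image g := by
      rintro ⟨⟨l, c⟩, y⟩ hp
      simp only [conf, S, R, Finset.mem_filter, Finset.mem_univ, true_and] at hp
      obtain ⟨rfl, -, hl, hy⟩ := hp
      rw [Finset.mem_image]
      have key : ∀ k : Fin 4, v (l, k) = y → ∃ p ∈ (Finset.univ.erase i.1) ×ˢ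
          (Finset.univ : Finset (Fin 4)), g p = (⟨l, QuotientAddGroup.mk y⟩, y) := by
        intro k hk
        refine ⟨(l, k), ?_, ?_⟩
        · rw [Finset.mem_product, Finset.mem_erase]
          exact ⟨⟨hl.symm, Finset.mem_univ _⟩, Finset.mem_univ _⟩
        · simp only [g, hk]
      rcases hy with h | h | h | h
      · exact key 0 h
      · refine key 1 ?_
        show x - a l = y
        rw [h, add_sub_cancel_right]
      · exact key 2 h
      · refine key 3 ?_
        show x + a i.1 - a l = y
        rw [h, add_sub_cancel_right]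
    refine (Finset.card_le_card hsub).trans (Finset.card_image_le.trans ?_)
    rw [Finset.card_product, Finset.card_erase_of_mem (Finset.mem_univ _), Finset.card_univ,
      Finset.card_univ, Fintype.card_fin, Nat.card_eq_fintype_card, Nat.mul_comm]
  obtain ⟨f, hf1, hf2⟩ := exists_choice S R hsym 0 (4 * (Nat.card L - 1)) hconf
    (fun i => by
      refine le_trans ?_ ((hord i.1).trans (hScard i))
      omega) hne
  have hmk : ∀ i : ι, (QuotientAddGroup.mk (f i) : Q ⧸ AddSubgroup.zmultiples (a i.1)) = i.2 :=
    fun i => (Finset.mem_filter.1 (hf1 i)).2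
  let X : L → Set Q := fun l => {x | ∃ c, f ⟨l, c⟩ = x}
  have hX : ∀ l x, x ∈ X l → f ⟨l, QuotientAddGroup.mk x⟩ = x := by
    rintro l x ⟨c, rfl⟩
    rw [hmk ⟨l, c⟩]
  have hcon : ∀ l l' x y, x ∈ X l → y ∈ X l' →
      (x = y ∨ x = y + a l' ∨ x + a l = y ∨ x + a l = y + a l') → l = l' := by
    intro l l' x y hx hy h
    by_contra hne
    have h1 := hf2 ⟨l, QuotientAddGroup.mk x⟩ ⟨l', QuotientAddGroup.mk y⟩
      (fun e => hne (congrArg Sigma.fst e))
    rw [hX l x hx, hX l' y hy] at h1
    exact h1 ⟨hne, h⟩
  refine ⟨Option L, inferInstance, Two.absorb a X ?_ ?_ ?_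
    (fun x => if ∃ l, x ∈ X l then 1 else 0) ?_⟩
  · intro l x
    have h1 : (QuotientAddGroup.mk x : Q ⧸ AddSubgroup.zmultiples (a l)) =
        QuotientAddGroup.mk (f ⟨l, QuotientAddGroup.mk x⟩) := (hmk ⟨l, QuotientAddGroup.mk x⟩).symm
    rw [QuotientAddGroup.eq, ← mem_multiples_iff_mem_zmultiples, AddSubmonoid.mem_multiples_iff] at h1
    obtain ⟨n, hn⟩ := h1
    refine ⟨n, QuotientAddGroup.mk x, ?_⟩
    rw [hn]
    abel
  · intro l l' x hx hx'
    exact hcon l l' x x hx hx' (Or.inl rfl)
  · intro l l' x hx hx'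
    refine hcon l l' _ _ hx hx' (Or.inr (Or.inr (Or.inr ?_)))
    rw [sub_add_cancel, sub_add_cancel]
  · intro l x hx
    have h1 : ¬ ∃ l', x + a l ∈ X l' := by
      rintro ⟨l', hl'⟩
      have h2 := hcon l l' x (x + a l) hx hl' (Or.inr (Or.inr (Or.inl rfl)))
      subst h2
      have h3 := hX l x hx
      have h4 := hX l _ hl'
      rw [QuotientAddGroup.mk_add_of_mem x (AddSubgroup.mem_zmultiples (a l)), h3] at h4
      exact h0 l (by simpa using h4)
    rw [if_neg h1, if_pos ⟨l, hx⟩]
    exact zero_lt_one

end Pool.Agent.Helper43.LA
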