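import Pool.Agent.Helper43.LA.Defs

/-!
# Merging linear forest decompositions of a subgroup and of the quotient
-/

namespace Pool.Agent.Helper43.LA

open Equiv Pool.Agent.Helper39.HD

/-- symmetric form of forest data: `d true` is the next arc, `d false` the previous arc -/
structure SFD (X L K : Type) (act : L → Perm X) where
  d : Bool → K → X → Option (L × Bool)
  inv : ∀ δ k x l β, d δ k x = some (l, β) → d (!δ) k (stp act (l, β) x) = some (l, !β)
  dart : ∀ x (p : L × Bool), ∃! q : K × Bool, d q.2 q.1 x = some p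
  none : ∀ δ x, ∃! k, d δ k x = none
  wf : ∀ δ k, WellFounded (fun y x => ∃ p, d δ k x = some p ∧ y = stp act p x)

theorem stp_stp {X L : Type} (act : L → Perm X) (l : L) (β : Bool) (x : X) :
    stp act (l, !β) (stp act (l, β) x) = x := by
  cases β <;> simp [stp]

/-- from forest data to the symmetric form -/
def _root_.Pool.Agent.Helper39.HD.ForestData.toSFD {X L K : Type} {act : L → Perm X}
    (D : ForestData X L K act) : SFD X L K act where
  d := fun δ k x => if δ then D.nx k x else D.pv k x
  inv := by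
    intro δ k x l β h
    cases δ
    · simp only [Bool.false_eq_true, if_false, Bool.not_false, if_true] at h ⊢
      rw [D.inv, stp_stp, Bool.not_not]
      exact h
    · simp only [if_true, Bool.not_true, Bool.false_eq_true, if_false] at h ⊢
      exact (D.inv _ _ _ _).1 h
  dart := D.dart
  none := by
    intro δ x
    cases δ
    · simpa using D.pv_none x
    · simpa using D.nx_none x
  wf := by
    intro δ k
    cases δ
    · simpa using D.wf_pv k
    · simpa using D.wf_nx k

/-- from the symmetric form to forest data -/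
def SFD.toFD {X L K : Type} {act : L → Perm X} (D : SFD X L K act) : ForestData X L K act where
  nx := D.d true
  pv := D.d false
  inv := by
    intro k x l β
    constructor
    · intro h
      exact D.inv true k x l β h
    · intro h
      have := D.inv false k _ l (!β) h
      rwa [stp_stp, Bool.not_not] at this
  dart := by
    intro x l
    obtain ⟨⟨k, δ⟩, hq, hu⟩ := D.dart x l
    refine ⟨(k, δ), ?_, ?_⟩
    · cases δ <;> simpa using hq
    · rintro ⟨k', δ'⟩ h
      apply hu
      cases δ' <;> simpa using h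
  nx_none := D.none true
  pv_none := D.none false
  wf_nx := D.wf true
  wf_pv := D.wf false

section

variable {T : Type} [AddCommGroup T] (K : AddSubgroup T) {L1 L2 : Type}

/-- signed element of a family -/
def sg {A L : Type} [AddCommGroup A] (a : L → A) (p : L × Bool) : A := if p.2 then a p.1 else -a p.1

theorem stp_addRight {A L : Type} [AddCommGroup A] (a : L → A) (p : L × Bool) (x : A) :
    stp (fun l => Equiv.addRight (a l)) p x = x + sg a p := by
  rcases p with ⟨l, _ | _⟩
  · simp only [stp, sg, Bool.false_eq_true, if_false]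
    rw [Perm.inv_eq_iff_eq]
    change x = x + -a l + a l
    abel
  · rfl

theorem sg_not {A L : Type} [AddCommGroup A] (a : L → A) (l : L) (β : Bool) :
    sg a (l, !β) = - sg a (l, β) := by
  cases β <;> simp [sg]

theorem merge_SFD (a1 : L1 → K) (a2 : L2 → T) {C1 C2 : Type}
    (D1 : SFD K L1 C1 (fun l => Equiv.addRight (a1 l)))
    (D2 : SFD (T ⧸ K) L2 C2 (fun l => Equiv.addRight (QuotientAddGroup.mk (a2 l) : T ⧸ K)))
    (c0 : C2) :
    Nonempty (SFD T (L1 ⊕ L2) (C1 ⊕ {c : C2 // c ≠ c0})
      (fun l => Equiv.addRight (Sum.elim (fun l => (a1 l : T)) a2 l))) := by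
  classical
  set a2' : L2 → T ⧸ K := fun l => (QuotientAddGroup.mk (a2 l) : T ⧸ K) with ha2'
  have hsg2 : ∀ p, sg a2' p = (QuotientAddGroup.mk (sg a2 p) : T ⧸ K) := by
    rintro ⟨l, _ | _⟩ <;> simp [sg, ha2']
  have st2 : ∀ p (X : T ⧸ K), stp (fun l => Equiv.addRight (a2' l)) p X = X + QuotientAddGroup.mk (sg a2 p) := by
    intro p X
    rw [stp_addRight, hsg2]
  -- representatives and parities along the path of the class `c0`
  have hφ : ∃ φ : T ⧸ K → T × Bool, (∀ X, (QuotientAddGroup.mk (φ X).1 : T ⧸ K) = X) ∧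
      ∀ X p, D2.d false c0 X = some p →
        (φ X).1 = (φ (X + QuotientAddGroup.mk (sg a2 p))).1 - sg a2 p ∧
        (φ X).2 = !(φ (X + QuotientAddGroup.mk (sg a2 p))).2 := by
    let F : ∀ X : T ⧸ K, (∀ Y : T ⧸ K, (∃ p, D2.d false c0 X = some p ∧
        Y = stp (fun l => Equiv.addRight (a2' l)) p X) → T × Bool) → T × Bool := fun X rec =>
      if h : ∃ p, D2.d false c0 X = some p then
        ((rec (stp (fun l => Equiv.addRight (a2' l)) h.choose X) ⟨h.choose, h.choose_spec, rfl⟩).1
          - sg a2 h.choose,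
         !(rec (stp (fun l => Equiv.addRight (a2' l)) h.choose X) ⟨h.choose, h.choose_spec, rfl⟩).2)
      else (X.out, false)
    let φ : T ⧸ K → T × Bool := (D2.wf false c0).fix F
    have hφ1 : ∀ X, φ X = F X (fun Y _ => φ Y) := fun X => (D2.wf false c0).fix_eq F X
    have hφ2 : ∀ X p, D2.d false c0 X = some p →
        (φ X).1 = (φ (X + QuotientAddGroup.mk (sg a2 p))).1 - sg a2 p ∧
        (φ X).2 = !(φ (X + QuotientAddGroup.mk (sg a2 p))).2 := by
      intro X p hp
      have h : ∃ p, D2.d false c0 X = some p := ⟨p, hp⟩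
      have hc : h.choose = p := Option.some.inj (h.choose_spec.symm.trans hp)
      rw [hφ1 X]
      simp only [F]
      rw [dif_pos h, hc, st2]
      exact ⟨rfl, rfl⟩
    have hφ3 : ∀ X, D2.d false c0 X = none → φ X = (X.out, false) := by
      intro X hX
      rw [hφ1 X]
      simp only [F]
      rw [dif_neg]
      rintro ⟨p, hp⟩
      rw [hX] at hp
      simp at hp
    refine ⟨φ, ?_, hφ2⟩
    intro X
    induction X using (D2.wf false c0).induction with
    | _ X ih =>
      rcases h : D2.d false c0 X with _ | p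
      · rw [hφ3 X h]
        exact Quotient.out_eq' X
      · have h2 := ih _ ⟨p, h, rfl⟩
        rw [st2] at h2
        rw [(hφ2 X p h).1, QuotientAddGroup.mk_sub, h2]
        abel
  obtain ⟨φ, hφm, hφs⟩ := hφ
  let τ : T ⧸ K → T := fun X => (φ X).1
  let par : T ⧸ K → Bool := fun X => (φ X).2
  have hτ : ∀ X, (QuotientAddGroup.mk (τ X) : T ⧸ K) = X := hφm
  have hκm : ∀ x : T, x - τ (QuotientAddGroup.mk x) ∈ K := by
    intro x
    have h1 := hτ (QuotientAddGroup.mk x)
    rw [QuotientAddGroup.eq] at h1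
    have h2 : x - τ (QuotientAddGroup.mk x) = -τ (QuotientAddGroup.mk x) + x := by abel
    rw [h2]; exact h1
  let κ : T → K := fun x => ⟨x - τ (QuotientAddGroup.mk x), hκm x⟩
  -- behaviour along the class `c0`
  have hstep : ∀ δ X p, D2.d δ c0 X = some p →
      τ (X + QuotientAddGroup.mk (sg a2 p)) = τ X + sg a2 p ∧
      par (X + QuotientAddGroup.mk (sg a2 p)) = !par X := by
    rintro δ X ⟨l, β⟩ h
    cases δ
    · obtain ⟨h1, h2⟩ := hφs X _ h
      refine ⟨?_, ?_⟩
      · change _ = (φ X).1 + _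
        rw [h1]
        change (φ _).1 = _
        abel
      · change (φ _).2 = !(φ X).2
        rw [h2, Bool.not_not]
    · have h3 := D2.inv true c0 X l β h
      rw [st2] at h3
      obtain ⟨h1, h2⟩ := hφs _ _ h3
      have h4 : X + QuotientAddGroup.mk (sg a2 (l, β)) + QuotientAddGroup.mk (sg a2 (l, !β)) = X := by
        rw [sg_not, QuotientAddGroup.mk_neg]
        abel
      rw [h4] at h1 h2
      refine ⟨?_, h2⟩
      change (φ _).1 = (φ X).1 + _
      rw [h1, sg_not]
      abel
  have hκ1 : ∀ x (k : K), κ (x + k) = κ x + k := by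
    intro x k
    apply Subtype.ext
    have h1 : (QuotientAddGroup.mk (x + (k : T)) : T ⧸ K) = QuotientAddGroup.mk x := by
      rw [eq_comm, QuotientAddGroup.eq]
      simp
    change x + (k : T) - τ (QuotientAddGroup.mk (x + (k : T))) = x - τ (QuotientAddGroup.mk x) + (k : T)
    rw [h1]
    abel
  have hκ2 : ∀ δ x p, D2.d δ c0 (QuotientAddGroup.mk x) = some p → κ (x + sg a2 p) = κ x := by
    intro δ x p h
    apply Subtype.ext
    change x + sg a2 p - τ (QuotientAddGroup.mk (x + sg a2 p)) = x - τ (QuotientAddGroup.mk x)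
    rw [QuotientAddGroup.mk_add, (hstep δ _ p h).1]
    abel
  -- the new classes
  let nd : Bool → (C1 ⊕ {c : C2 // c ≠ c0}) → T → Option ((L1 ⊕ L2) × Bool) := fun δ c x =>
    match c with
    | Sum.inl i =>
      match D1.d (δ == par (QuotientAddGroup.mk x)) i (κ x) with
      | some p => some (Sum.inl p.1, p.2)
      | none => (D2.d δ c0 (QuotientAddGroup.mk x)).map (fun p => (Sum.inr p.1, p.2))
    | Sum.inr c => (D2.d δ c.1 (QuotientAddGroup.mk x)).map (fun p => (Sum.inr p.1, p.2))
  have n11 : ∀ δ i x l β, nd δ (Sum.inl i) x = some (Sum.inl l, β) ↔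
      D1.d (δ == par (QuotientAddGroup.mk x)) i (κ x) = some (l, β) := by
    intro δ i x l β
    simp only [nd]
    rcases h : D1.d (δ == par (QuotientAddGroup.mk x)) i (κ x) with _ | ⟨l', β'⟩
    · simp
    · simp
  have n12 : ∀ δ i x l β, nd δ (Sum.inl i) x = some (Sum.inr l, β) ↔
      D1.d (δ == par (QuotientAddGroup.mk x)) i (κ x) = none ∧
      D2.d δ c0 (QuotientAddGroup.mk x) = some (l, β) := by
    intro δ i x l β
    simp only [nd]
    rcases h : D1.d (δ == par (QuotientAddGroup.mk x)) i (κ x) with _ | ⟨l', β'⟩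
    · simp only [true_and, Option.map_eq_some_iff]
      constructor
      · rintro ⟨⟨l', β'⟩, h1, h2⟩
        simp only [Prod.mk.injEq, Sum.inr.injEq] at h2
        rw [← h2.1, ← h2.2]; exact h1
      · intro h1
        exact ⟨_, h1, rfl⟩
    · simp
  have n10 : ∀ δ i x, nd δ (Sum.inl i) x = none ↔
      D1.d (δ == par (QuotientAddGroup.mk x)) i (κ x) = none ∧
      D2.d δ c0 (QuotientAddGroup.mk x) = none := by
    intro δ i x
    simp only [nd]
    rcases h : D1.d (δ == par (QuotientAddGroup.mk x)) i (κ x) with _ | ⟨l', β'⟩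
    · simp
    · simp
  have n21 : ∀ δ c x l β, nd δ (Sum.inr c) x ≠ some (Sum.inl l, β) := by
    intro δ c x l β h
    simp only [nd, Option.map_eq_some_iff] at h
    obtain ⟨p, -, h2⟩ := h
    simp at h2
  have n22 : ∀ δ c x l β, nd δ (Sum.inr c) x = some (Sum.inr l, β) ↔
      D2.d δ c.1 (QuotientAddGroup.mk x) = some (l, β) := by
    intro δ c x l β
    simp only [nd, Option.map_eq_some_iff]
    constructor
    · rintro ⟨⟨l', β'⟩, h1, h2⟩
      simp only [Prod.mk.injEq, Sum.inr.injEq] at h2
      rw [← h2.1, ← h2.2]; exact h1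
    · intro h1
      exact ⟨_, h1, rfl⟩
  have n20 : ∀ δ c x, nd δ (Sum.inr c) x = none ↔ D2.d δ c.1 (QuotientAddGroup.mk x) = none := by
    intro δ c x
    simp [nd]
  set act : L1 ⊕ L2 → Perm T := fun l => Equiv.addRight (Sum.elim (fun l => (a1 l : T)) a2 l) with hact
  have s1 : ∀ l β x, stp act (Sum.inl l, β) x = x + ((sg a1 (l, β) : K) : T) := by
    intro l β x
    rw [hact, stp_addRight]
    cases β <;> simp [sg]
  have s2 : ∀ l β x, stp act (Sum.inr l, β) x = x + sg a2 (l, β) := by
    intro l β x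
    rw [hact, stp_addRight]
    cases β <;> simp [sg]
  have mk1 : ∀ l β x, (QuotientAddGroup.mk (stp act (Sum.inl l, β) x) : T ⧸ K) = QuotientAddGroup.mk x := by
    intro l β x
    rw [s1, eq_comm, QuotientAddGroup.eq]
    simp
  have bxor : ∀ δ ε : Bool, ((!δ) == ε) = !(δ == ε) := by decide
  have bxor2 : ∀ δ ε : Bool, ((!δ) == !ε) = (δ == ε) := by decide
  have bxor3 : ∀ δ ε : Bool, ((δ == ε) == ε) = δ := by decide
  refine ⟨⟨nd, ?_, ?_, ?_, ?_⟩⟩
  · -- inv
    rintro δ (i | c) x (l | l) β h
    · rw [n11] at h ⊢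
      rw [mk1, bxor]
      have h1 := D1.inv _ _ _ _ _ h
      rw [stp_addRight] at h1
      rw [s1, hκ1]
      exact h1
    · rw [n12] at h ⊢
      obtain ⟨h1, h2⟩ := h
      have h3 := D2.inv _ _ _ _ _ h2
      rw [st2] at h3
      rw [s2, hκ2 δ x _ h2, QuotientAddGroup.mk_add, (hstep δ _ _ h2).2, bxor2]
      exact ⟨h1, h3⟩
    · exact absurd h (n21 _ _ _ _ _)
    · rw [n22] at h ⊢
      have h3 := D2.inv _ _ _ _ _ h
      rw [st2] at h3
      rw [s2, QuotientAddGroup.mk_add]
      exact h3
  · -- dart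
    rintro x ⟨l | l, β⟩
    · obtain ⟨⟨i, δ⟩, h1, h2⟩ := D1.dart (κ x) (l, β)
      refine ⟨(Sum.inl i, δ == par (QuotientAddGroup.mk x)), ?_, ?_⟩
      · change nd (δ == par (QuotientAddGroup.mk x)) (Sum.inl i) x = some (Sum.inl l, β)
        rw [n11, bxor3]
        exact h1
      · rintro ⟨i' | c', δ'⟩ h
        · change nd δ' (Sum.inl i') x = some (Sum.inl l, β) at h
          rw [n11] at h
          have h3 := h2 (i', δ' == par (QuotientAddGroup.mk x)) h
          simp only [Prod.mk.injEq] at h3
          rw [← h3.1, ← h3.2, bxor3]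
        · exact absurd h (n21 _ _ _ _ _)
    · obtain ⟨⟨c, δ⟩, h1, h2⟩ := D2.dart (QuotientAddGroup.mk x) (l, β)
      by_cases hc : c = c0
      · subst hc
        obtain ⟨i, hi, hu⟩ := D1.none (δ == par (QuotientAddGroup.mk x)) (κ x)
        refine ⟨(Sum.inl i, δ), ?_, ?_⟩
        · change nd δ (Sum.inl i) x = some (Sum.inr l, β)
          rw [n12]
          exact ⟨hi, h1⟩
        · rintro ⟨i' | c', δ'⟩ h
          · change nd δ' (Sum.inl i') x = some (Sum.inr l, β) at h
            rw [n12] at h
            have h3 := h2 (c, δ') h.2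
            simp only [Prod.mk.injEq, true_and] at h3
            subst h3
            rw [hu i' h.1]
          · change nd δ' (Sum.inr c') x = some (Sum.inr l, β) at h
            rw [n22] at h
            have h3 := h2 (c'.1, δ') h
            simp only [Prod.mk.injEq] at h3
            exact absurd h3.1 c'.2
      · refine ⟨(Sum.inr ⟨c, hc⟩, δ), ?_, ?_⟩
        · change nd δ (Sum.inr ⟨c, hc⟩) x = some (Sum.inr l, β)
          rw [n22]
          exact h1
        · rintro ⟨i' | c', δ'⟩ h
          · change nd δ' (Sum.inl i') x = some (Sum.inr l, β) at h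
            rw [n12] at h
            have h3 := h2 (c0, δ') h.2
            simp only [Prod.mk.injEq] at h3
            exact absurd h3.1.symm hc
          · change nd δ' (Sum.inr c') x = some (Sum.inr l, β) at h
            rw [n22] at h
            have h3 := h2 (c'.1, δ') h
            simp only [Prod.mk.injEq] at h3
            rw [← h3.2]
            congr 2
            exact Subtype.ext h3.1
  · -- none
    intro δ x
    obtain ⟨c, h1, h2⟩ := D2.none δ (QuotientAddGroup.mk x)
    by_cases hc : c = c0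
    · subst hc
      obtain ⟨i, hi, hu⟩ := D1.none (δ == par (QuotientAddGroup.mk x)) (κ x)
      refine ⟨Sum.inl i, (n10 _ _ _).2 ⟨hi, h1⟩, ?_⟩
      rintro (i' | c') h
      · rw [hu i' ((n10 _ _ _).1 h).1]
      · exact absurd (h2 c'.1 ((n20 _ _ _).1 h)) c'.2
    · refine ⟨Sum.inr ⟨c, hc⟩, (n20 _ _ _).2 h1, ?_⟩
      rintro (i' | c') h
      · exact absurd (h2 c0 ((n10 _ _ _).1 h).2).symm hc
      · congr 1
        exact Subtype.ext (h2 c'.1 ((n20 _ _ _).1 h))
  · -- wf
    rintro δ (i | c)
    · refine ⟨fun x => ?_⟩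
      suffices H : ∀ X : T ⧸ K, ∀ x, (QuotientAddGroup.mk x : T ⧸ K) = X →
          Acc (fun y x => ∃ p, nd δ (Sum.inl i) x = some p ∧ y = stp act p x) x from H _ x rfl
      intro X
      induction X using (D2.wf δ c0).induction with
      | _ X ih =>
        suffices H : ∀ k : K, ∀ x, (QuotientAddGroup.mk x : T ⧸ K) = X → κ x = k →
            Acc (fun y x => ∃ p, nd δ (Sum.inl i) x = some p ∧ y = stp act p x) x from
          fun x hx => H _ x hx rfl
        intro k
        induction k using (D1.wf (δ == par X) i).induction with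
        | _ k ih2 =>
          intro x hX hk
          refine ⟨x, ?_⟩
          rintro y ⟨⟨l | l, β⟩, h, rfl⟩
          · rw [n11, hX, hk] at h
            refine ih2 _ ⟨(l, β), h, rfl⟩ _ ?_ ?_
            · rw [mk1, hX]
            · rw [s1, hκ1, hk, stp_addRight]
          · rw [n12, hX] at h
            refine ih _ ⟨(l, β), h.2, rfl⟩ _ ?_
            rw [s2, st2, QuotientAddGroup.mk_add, hX]
    · refine Subrelation.wf (r := InvImage _ (fun x : T => (QuotientAddGroup.mk x : T ⧸ K))) ?_
        (InvImage.wf _ (D2.wf δ c.1))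
      rintro y x ⟨⟨l | l, β⟩, h, rfl⟩
      · exact absurd h (n21 _ _ _ _ _)
      · rw [n22] at h
        refine ⟨(l, β), h, ?_⟩
        change (QuotientAddGroup.mk (stp act (Sum.inr l, β) x) : T ⧸ K) = _
        rw [s2, st2, QuotientAddGroup.mk_add]

end

theorem merge {T : Type} [AddCommGroup T] (K : AddSubgroup T) {L1 L2 : Type} (a1 : L1 → K)
    (a2 : L2 → T) (h1 : HasFD K a1)
    (h2 : HasFD (T ⧸ K) (fun l => (QuotientAddGroup.mk (a2 l) : T ⧸ K))) :
    HasFD T (Sum.elim (fun l => (a1 l : T)) a2) := by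
  obtain ⟨C1, hC1, ⟨D1⟩⟩ := h1
  obtain ⟨C2, hC2, ⟨D2⟩⟩ := h2
  obtain ⟨c0, -, -⟩ := D2.nx_none 0
  obtain ⟨D⟩ := merge_SFD K a1 a2 D1.toSFD D2.toSFD c0
  exact ⟨_, inferInstance, ⟨D.toFD⟩⟩

end Pool.Agent.Helper43.LA
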