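import Pool.Agent.Helper43.LA.Defs

namespace Pool.Agent.Helper43.LA

open Equiv Pool.Agent.Helper39.HD

/-! ### LA-REDUCE: splitting off the labels outside a subgroup -/

private theorem st_st {K L H : Type} [AddCommGroup K] [AddAction K H] (a : L → K) (l : L)
    (β : Bool) (h : H) : st a (l, !β) (st a (l, β) h) = h := by
  unfold st
  cases β <;> simp [vadd_vadd]

private theorem st_vadd {K L H : Type} [AddCommGroup K] [AddAction K H] (a : L → K) (p : L × Bool)
    (k : K) (h : H) : st a p (k +ᵥ h) = k +ᵥ st a p h := by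
  unfold st
  rw [vadd_vadd, vadd_vadd, add_comm]

section

variable {K : Type} [AddCommGroup K] {m : ℕ} (B : Bundle K m) {L : Type} (a : L → K) (S : Sol B a)

private theorem free_H {k : K} {h : B.H} (hk : k +ᵥ h = h) : k = 0 := by
  apply B.free k (B.v h)
  rw [← B.v_vadd, hk]

private theorem free_H' {k k' : K} {h : B.H} (hk : k +ᵥ h = k' +ᵥ h) : k = k' := by
  have : (-k' + k) +ᵥ h = h := by
    rw [← vadd_vadd, hk, vadd_vadd]
    simp
  have := free_H B this
  rw [neg_add_eq_zero] at this
  exact this.symm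

/-- the end of the alternating path from `x` -/
private noncomputable def E : B.H → B.H :=
  S.acyc.fix (fun x rec => match h : S.lab (B.ι x) with
    | none => B.ι x
    | some p => rec (st a p (B.ι x)) ⟨p, h, rfl⟩)

private theorem E_none {x : B.H} (h : S.lab (B.ι x) = none) : E B a S x = B.ι x := by
  unfold E
  rw [WellFounded.fix_eq]
  split
  · rfl
  · rename_i p hp
    rw [h] at hp
    cases hp

private theorem E_some {x : B.H} {p : L × Bool} (h : S.lab (B.ι x) = some p) :
    E B a S x = E B a S (st a p (B.ι x)) := by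
  rw [E, WellFounded.fix_eq]
  split
  · rename_i hp
    rw [h] at hp
    cases hp
  · rename_i q hq
    rw [h] at hq
    cases hq
    rfl

private theorem lab_E (x : B.H) : S.lab (E B a S x) = none := by
  induction x using S.acyc.induction with
  | _ x ih =>
    rcases hx : S.lab (B.ι x) with _ | p
    · rw [E_none B a S hx, hx]
    · rw [E_some B a S hx]
      exact ih _ ⟨p, hx, rfl⟩

private theorem E_E_aux (x : B.H) : (S.lab x = none → E B a S (E B a S x) = x) ∧
    ∀ p, S.lab x = some p → E B a S (E B a S x) = E B a S (st a p x) := by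
  have key : ∀ x : B.H, (S.lab x = none → E B a S (B.ι x) = x) ∧
      ∀ p, S.lab x = some p → E B a S (B.ι x) = E B a S (st a p x) := by
    intro x
    constructor
    · intro h
      have h' : S.lab (B.ι (B.ι x)) = none := by rw [B.ι_ι, h]
      rw [E_none B a S h', B.ι_ι]
    · intro p h
      have h' : S.lab (B.ι (B.ι x)) = some p := by rw [B.ι_ι, h]
      rw [E_some B a S h', B.ι_ι]
  induction x using S.acyc.induction with
  | _ x ih =>
    rcases hx : S.lab (B.ι x) with _ | ⟨l, β⟩
    · rw [E_none B a S hx]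
      exact key x
    · rw [E_some B a S hx]
      have h1 := (ih _ ⟨(l, β), hx, rfl⟩).2 _ (S.inv _ l β hx)
      rw [h1, st_st]
      exact key x

private theorem E_E {x : B.H} (h : S.lab x = none) : E B a S (E B a S x) = x :=
  (E_E_aux B a S x).1 h

variable (K' : AddSubgroup K) (hinv : ∀ k ∈ K', ∀ h, S.lab (k +ᵥ h) = S.lab h)

include hinv in
private theorem E_vadd (x : B.H) {k : K} (hk : k ∈ K') : E B a S (k +ᵥ x) = k +ᵥ E B a S x := by
  induction x using S.acyc.induction with
  | _ x ih =>
    rcases hx : S.lab (B.ι x) with _ | p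
    · have h' : S.lab (B.ι (k +ᵥ x)) = none := by rw [B.ι_vadd, hinv k hk, hx]
      rw [E_none B a S hx, E_none B a S h', B.ι_vadd]
    · have h' : S.lab (B.ι (k +ᵥ x)) = some p := by rw [B.ι_vadd, hinv k hk, hx]
      rw [E_some B a S hx, E_some B a S h', B.ι_vadd, st_vadd]
      exact ih _ ⟨p, hx, rfl⟩

/-- one step of the alternating path -/
private noncomputable def f (x : B.H) : B.H :=
  match S.lab (B.ι x) with
  | none => x
  | some p => st a p (B.ι x)

private theorem f_some {x : B.H} {p : L × Bool} (h : S.lab (B.ι x) = some p) :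
    f B a S x = st a p (B.ι x) := by
  unfold f
  rw [h]

private theorem E_iterate (x : B.H) : ∃ n : ℕ, (∀ j < n, S.lab (B.ι ((f B a S)^[j] x)) ≠ none) ∧
    E B a S x = B.ι ((f B a S)^[n] x) := by
  induction x using S.acyc.induction with
  | _ x ih =>
    rcases hx : S.lab (B.ι x) with _ | p
    · exact ⟨0, by simp, by simpa using E_none B a S hx⟩
    · obtain ⟨n, h1, h2⟩ := ih _ ⟨p, hx, rfl⟩
      refine ⟨n + 1, ?_, ?_⟩
      · intro j hj
        rcases j with _ | j
        · simp [hx]
        · rw [Function.iterate_succ_apply, f_some B a S hx]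
          exact h1 j (by omega)
      · rw [E_some B a S hx, Function.iterate_succ_apply, f_some B a S hx]
        exact h2

include hinv in
private theorem iterate_ne (h1 : ∀ l, a l ∉ K') (n : ℕ) : ∀ (x : B.H) (k : K), k ∈ K' →
    (∀ j < n, S.lab (B.ι ((f B a S)^[j] x)) ≠ none) → B.ι ((f B a S)^[n] x) ≠ k +ᵥ x := by
  induction n using Nat.strong_induction_on with
  | _ n ih =>
    intro x k hk hD heq
    rcases n with _ | _ | n
    · exact B.ι_ne k x heq
    · obtain ⟨⟨l, β⟩, hp⟩ := Option.ne_none_iff_exists'.1 (hD 0 (by omega))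
      simp only [Function.iterate_zero, id_eq] at hp
      simp only [zero_add, Function.iterate_one] at heq
      rw [f_some B a S hp] at heq
      have e1 : st a (l, β) (B.ι x) = k +ᵥ B.ι x := by
        rw [← B.ι_vadd, ← heq, B.ι_ι]
      have e2 := free_H' B e1
      apply h1 l
      cases β
      · simp only [Bool.false_eq_true, if_false] at e2
        rw [← neg_mem_iff, e2]
        exact hk
      · simp only [if_true] at e2
        rw [e2]
        exact hk
    · set w := (f B a S)^[n + 1] x with hw
      obtain ⟨⟨l, β⟩, hp⟩ := Option.ne_none_iff_exists'.1 (hD (n + 1) (by omega))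
      rw [← hw] at hp
      rw [Function.iterate_succ_apply', ← hw, f_some B a S hp] at heq
      have hz := S.inv _ l β hp
      have hιk : B.ι (k +ᵥ x) = st a (l, β) (B.ι w) := by rw [← heq, B.ι_ι]
      have hfk : f B a S (k +ᵥ x) = B.ι w := by
        rw [f_some B a S (p := (l, !β)) (by rw [hιk, hz]), hιk, st_st]
      obtain ⟨q, hq⟩ := Option.ne_none_iff_exists'.1 (hD 0 (by omega))
      simp only [Function.iterate_zero, id_eq] at hq
      have hfk' : f B a S (k +ᵥ x) = k +ᵥ f B a S x := by
        rw [f_some B a S (p := q) (by rw [B.ι_vadd, hinv k hk, hq]), f_some B a S hq, B.ι_vadd,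
          st_vadd]
      apply ih n (by omega) (f B a S x) k hk
      · intro j hj
        rw [← Function.iterate_succ_apply]
        exact hD (j + 1) (by omega)
      · rw [← Function.iterate_succ_apply, ← hw, ← hfk, hfk']

include hinv in
private theorem E_ne (h1 : ∀ l, a l ∉ K') (x : B.H) {k : K} (hk : k ∈ K') :
    E B a S x ≠ k +ᵥ x := by
  obtain ⟨n, hn, he⟩ := E_iterate B a S x
  rw [he]
  exact iterate_ne B a S K' hinv h1 n x k hk hn

private theorem card_unlab [Finite L] (x : B.V) :
    Nat.card {h : {h : B.H // S.lab h = none} // B.v h.1 = x} + 2 * Nat.card L = 2 * m := by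
  classical
  have h1 : Nat.card {h : {h : B.H // B.v h = x} // ¬ S.lab h.1 = none} = 2 * Nat.card L := by
    have hb : Function.Bijective (fun h : {h : {h : B.H // B.v h = x} // ¬ S.lab h.1 = none} =>
        (S.lab h.1.1).get (Option.ne_none_iff_isSome.1 h.2)) := by
      constructor
      · rintro ⟨⟨h, hv⟩, hl⟩ ⟨⟨h', hv'⟩, hl'⟩ heq
        simp only at heq
        have e1 : S.lab h = some ((S.lab h).get (Option.ne_none_iff_isSome.1 hl)) := by simp
        have e2 : S.lab h' = some ((S.lab h).get (Option.ne_none_iff_isSome.1 hl)) := by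
          rw [heq]
          simp
        have := (S.dart x _).unique ⟨hv, e1⟩ ⟨hv', e2⟩
        subst this
        rfl
      · intro p
        obtain ⟨h, ⟨hv, hp⟩, -⟩ := S.dart x p
        exact ⟨⟨⟨h, hv⟩, by simp [hp]⟩, by simp [hp]⟩
    rw [Nat.card_congr (Equiv.ofBijective _ hb), Nat.card_prod, Nat.card_eq_fintype_card (α := Bool),
      Fintype.card_bool, mul_comm]
  have h2 : Nat.card {h : {h : B.H // S.lab h = none} // B.v h.1 = x} =
      Nat.card {h : {h : B.H // B.v h = x} // S.lab h.1 = none} :=
    Nat.card_congr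
      { toFun := fun h => ⟨⟨h.1.1, h.2⟩, h.1.2⟩
        invFun := fun h => ⟨⟨h.1.1, h.2⟩, h.1.2⟩
        left_inv := fun h => rfl
        right_inv := fun h => rfl }
  rw [h2, ← h1, ← Nat.card_sum, ← B.card x]
  exact Nat.card_congr (Equiv.sumCompl _)

end

theorem reduce {K : Type} [AddCommGroup K] (K' : AddSubgroup K) {L1 L2 : Type} [Finite L1]
    [Finite L2] (a1 : L1 → K) (a2 : L2 → K') (h1 : ∀ l, a1 l ∉ K')
    (hstep : ∀ B : Bundle K (Nat.card L1 + Nat.card L2 + 1), StepSol K' B a1)
    (h2 : GS K' a2) : GS K (Sum.elim a1 (fun l => (a2 l : K))) := by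
  classical
  have hc : Nat.card (L1 ⊕ L2) + 1 = Nat.card L1 + Nat.card L2 + 1 := by rw [Nat.card_sum]
  unfold GS
  rw [hc]
  intro B
  obtain ⟨S1, hinv⟩ := hstep B
  set U : Type := {h : B.H // S1.lab h = none} with hU
  letI actU : AddAction K' U :=
    { vadd := fun k u => ⟨(k : K) +ᵥ u.1, by rw [hinv k k.2, u.2]⟩
      zero_vadd := fun u => Subtype.ext (zero_vadd K u.1)
      add_vadd := fun k k' u => Subtype.ext (add_vadd (k : K) (k' : K) u.1) }
  have vaddU : ∀ (k : K') (u : U), (k +ᵥ u).1 = (k : K) +ᵥ u.1 := fun _ _ => rfl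
  haveI : Finite U := by rw [hU]; infer_instance
  let B' : Bundle K' (Nat.card L2 + 1) :=
    { H := U
      V := B.V
      v := fun u => B.v u.1
      ι := fun u => ⟨E B a1 S1 u.1, lab_E B a1 S1 u.1⟩
      v_vadd := fun k u => B.v_vadd (k : K) u.1
      ι_vadd := fun k u => Subtype.ext (E_vadd B a1 S1 K' hinv u.1 k.2)
      ι_ι := fun u => Subtype.ext (E_E B a1 S1 u.2)
      ι_ne := fun k u h => E_ne B a1 S1 K' hinv h1 u.1 k.2 (congrArg Subtype.val h)
      free := fun k x h => Subtype.ext (B.free (k : K) x h)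
      card := fun x => by
        have := card_unlab B a1 S1 x
        change Nat.card {h : {h : B.H // S1.lab h = none} // B.v h.1 = x} = _
        omega }
  obtain ⟨S2⟩ := h2 B'
  have stU : ∀ (p : L2 × Bool) (u : U),
      (st a2 p u).1 = st (Sum.elim a1 (fun l => (a2 l : K))) (Sum.inr p.1, p.2) u.1 := by
    intro p u
    unfold st
    rw [vaddU]
    rcases p with ⟨l, β⟩
    cases β <;> simp
  have st1 : ∀ (p : L1 × Bool) (h : B.H),
      st a1 p h = st (Sum.elim a1 (fun l => (a2 l : K))) (Sum.inl p.1, p.2) h := by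
    intro p h
    unfold st
    simp
  let lab : B.H → Option ((L1 ⊕ L2) × Bool) := fun h =>
    if hu : S1.lab h = none then (S2.lab ⟨h, hu⟩).map (fun p => (Sum.inr p.1, p.2))
    else (S1.lab h).map (fun p => (Sum.inl p.1, p.2))
  have lab_none : ∀ (h : B.H) (hu : S1.lab h = none),
      lab h = (S2.lab ⟨h, hu⟩).map (fun p => (Sum.inr p.1, p.2)) := by
    intro h hu
    simp only [lab, dif_pos hu]
  have lab_some : ∀ (h : B.H) (p : L1 × Bool), S1.lab h = some p →
      lab h = some (Sum.inl p.1, p.2) := by
    intro h p hp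
    have hn : ¬ S1.lab h = none := by rw [hp]; simp
    simp only [lab, dif_neg hn, hp, Option.map_some]
  have lab_inl : ∀ (h : B.H) (l : L1) (β : Bool),
      lab h = some (Sum.inl l, β) ↔ S1.lab h = some (l, β) := by
    intro h l β
    constructor
    · intro hl
      rcases hh : S1.lab h with _ | p
      · rw [lab_none h hh] at hl
        simp at hl
      · rw [lab_some h p hh] at hl
        simp only [Option.some.injEq, Prod.mk.injEq, Sum.inl.injEq] at hl
        rw [← hl.1, ← hl.2]
    · intro hl
      exact lab_some h _ hl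
  have lab_inr : ∀ (h : B.H) (l : L2) (β : Bool),
      lab h = some (Sum.inr l, β) ↔ ∃ hu : S1.lab h = none, S2.lab ⟨h, hu⟩ = some (l, β) := by
    intro h l β
    constructor
    · intro hl
      by_cases hh : S1.lab h = none
      · refine ⟨hh, ?_⟩
        rw [lab_none h hh] at hl
        simp only [Option.map_eq_some_iff, Prod.mk.injEq, Sum.inr.injEq, Prod.exists] at hl
        obtain ⟨l', β', h3, h4, h5⟩ := hl
        rw [h3, h4, h5]
      · obtain ⟨p, hp⟩ := Option.ne_none_iff_exists'.1 hh
        rw [lab_some h p hp] at hl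
        simp at hl
    · rintro ⟨hu, hl⟩
      rw [lab_none h hu, hl]
      rfl
  refine ⟨⟨lab, ?_, ?_, ?_⟩⟩
  · intro h l β hl
    rcases l with l | l
    · rw [lab_inl] at hl
      rw [← st1 (l, β) h, lab_inl]
      exact S1.inv h l β hl
    · rw [lab_inr] at hl
      obtain ⟨hu, hl⟩ := hl
      rw [← stU (l, β) ⟨h, hu⟩, lab_inr]
      exact ⟨(st a2 (l, β) (⟨h, hu⟩ : U)).2, S2.inv ⟨h, hu⟩ l β hl⟩
  · rintro x ⟨l | l, β⟩
    · simp only [lab_inl]
      exact S1.dart x (l, β)
    · simp only [lab_inr]
      obtain ⟨u, ⟨hv, hl⟩, huniq⟩ := S2.dart x (l, β)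
      refine ⟨u.1, ⟨hv, u.2, hl⟩, ?_⟩
      rintro h ⟨hv', hu', hl'⟩
      exact congrArg Subtype.val (huniq ⟨h, hu'⟩ ⟨hv', hl'⟩)
  · set comb : B.H → B.H → Prop := fun y x =>
      ∃ p, lab (B.ι x) = some p ∧ y = st (Sum.elim a1 (fun l => (a2 l : K))) p (B.ι x) with hcomb
    have inner : ∀ x : B.H, (∀ p, S2.lab ⟨E B a1 S1 x, lab_E B a1 S1 x⟩ = some p →
        Acc comb (st a2 p (⟨E B a1 S1 x, lab_E B a1 S1 x⟩ : U)).1) → Acc comb x := by
      intro x
      induction x using S1.acyc.induction with
      | _ x ih =>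
        intro hx
        constructor
        rintro y ⟨⟨l | l, β⟩, hp, rfl⟩
        · rw [lab_inl] at hp
          rw [← st1 (l, β)]
          apply ih _ ⟨(l, β), hp, rfl⟩
          intro p hp'
          have hE := E_some B a1 S1 hp
          have key : ∀ (z : B.H) (hz : S1.lab z = none), z = E B a1 S1 x →
              S2.lab ⟨z, hz⟩ = some p → Acc comb (st a2 p (⟨z, hz⟩ : U)).1 := by
            rintro z hz rfl hp''
            exact hx p hp''
          exact key _ _ hE.symm hp'
        · rw [lab_inr] at hp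
          obtain ⟨hu, hp⟩ := hp
          rw [← stU (l, β) ⟨B.ι x, hu⟩]
          have hE := E_none B a1 S1 hu
          have key : ∀ (z : B.H) (hz : S1.lab z = none), z = E B a1 S1 x →
              S2.lab ⟨z, hz⟩ = some (l, β) → Acc comb (st a2 (l, β) (⟨z, hz⟩ : U)).1 := by
            rintro z hz rfl hp''
            exact hx _ hp''
          exact key _ _ hE.symm hp
    have accU : ∀ u : U, Acc comb u.1 := by
      intro u
      induction u using S2.acyc.induction with
      | _ u ih =>
        apply inner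
        intro p hp
        exact ih _ ⟨p, hp, rfl⟩
    exact ⟨fun x => inner x fun p _ => accU _⟩

end Pool.Agent.Helper43.LA
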