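import Pool.Agent.Helper43.LA.Defs
import Pool.Agent.Helper43.LA.Petersen

namespace Pool.Agent.Helper43.LA

open Equiv Pool.Agent.Helper39.HD

/-! ### LA-THREE: factor of order three, at most `2 b` labels -/

namespace Three

open Classical in
/-- minus the first nonzero value of a sequence, and one if there is none -/
noncomputable def sgn (f : ℕ → ZMod 3) : ZMod 3 :=
  if h : ∃ k, f k ≠ 0 then -f (Nat.find h) else 1

theorem sgn_ne (f : ℕ → ZMod 3) : sgn f ≠ 0 := by
  unfold sgn
  split_ifs with h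
  · exact neg_ne_zero.2 (Nat.find_spec h)
  · decide

theorem sgn_of_ne (f : ℕ → ZMod 3) (h0 : f 0 ≠ 0) : sgn f = - f 0 := by
  have h : ∃ k, f k ≠ 0 := ⟨0, h0⟩
  have h1 : Nat.find h = 0 := by rw [Nat.find_eq_zero]; exact h0
  unfold sgn
  rw [dif_pos h, h1]

theorem sgn_of_eq (f : ℕ → ZMod 3) (h0 : f 0 = 0) : sgn f = sgn (fun k => f (k + 1)) := by
  unfold sgn
  by_cases h : ∃ k, f k ≠ 0
  · have h' : ∃ k, f (k + 1) ≠ 0 := by
      obtain ⟨k, hk⟩ := h
      cases k with
      | zero => exact absurd h0 hk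
      | succ k => exact ⟨k, hk⟩
    rw [dif_pos h, dif_pos h']
    congr 2
    exact Nat.find_comp_succ h h' (by simpa using h0)
  · have h' : ¬ ∃ k, f (k + 1) ≠ 0 := by
      rintro ⟨k, hk⟩
      exact h ⟨k + 1, hk⟩
    rw [dif_neg h, dif_neg h']

theorem three_cases (a b : ZMod 3) (ha : a ≠ 0) (hb : b ≠ 0) : a + b ≠ 0 ∨ a = -b := by
  revert a b
  decide

theorem two_mul_ne (a : ZMod 3) (ha : a ≠ 0) : a + a ≠ 0 := by
  revert a
  decide

theorem sgn_cycle (f : ℕ → ZMod 3) : f 0 + sgn f + sgn (fun k => f (k + 1)) ≠ 0 := by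
  by_cases h0 : f 0 = 0
  · rw [← sgn_of_eq f h0, h0, zero_add]
    exact two_mul_ne _ (sgn_ne f)
  · rw [sgn_of_ne f h0, add_neg_cancel, zero_add]
    exact sgn_ne _

theorem exists_chi {K : Type} [AddCommGroup K] (K' : AddSubgroup K) (hK : K'.index = 3) :
    ∃ χ : K →+ ZMod 3, ∀ k, χ k = 0 ↔ k ∈ K' := by
  have hc : Nat.card (K ⧸ K') = 3 := hK
  have : Fact (Nat.Prime 3) := ⟨Nat.prime_three⟩
  have hcyc : IsAddCyclic (K ⧸ K') := isAddCyclic_of_prime_card hc
  have e1 : ZMod (Nat.card (K ⧸ K')) ≃+ K ⧸ K' := zmodAddCyclicAddEquiv hcyc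
  have e : ZMod 3 ≃+ K ⧸ K' := (ZMod.ringEquivCongr hc.symm).toAddEquiv.trans e1
  refine ⟨(e.symm : (K ⧸ K') →+ ZMod 3).comp (QuotientAddGroup.mk' K'), fun k => ?_⟩
  simp

theorem exists_z {K V : Type} [AddCommGroup K] [AddAction K V]
    (free : ∀ (k : K) (x : V), k +ᵥ x = x → k = 0) (χ : K →+ ZMod 3) :
    ∃ z : V → ZMod 3, ∀ k x, z (k +ᵥ x) = χ k + z x := by
  let r : V → V := fun x => Quotient.out (Quotient.mk (AddAction.orbitRel K V) x)
  have hr : ∀ x, ∃ k : K, k +ᵥ r x = x := by
    intro x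
    have h1 : (AddAction.orbitRel K V).r (r x) x := Quotient.mk_out (s := AddAction.orbitRel K V) x
    have h2 : x ∈ AddAction.orbit K (r x) := by
      have := (AddAction.orbitRel K V).symm h1
      exact this
    exact h2
  have hrk : ∀ (k : K) x, r (k +ᵥ x) = r x := by
    intro k x
    have : Quotient.mk (AddAction.orbitRel K V) (k +ᵥ x) = Quotient.mk (AddAction.orbitRel K V) x :=
      Quotient.sound (s := AddAction.orbitRel K V) ⟨k, rfl⟩
    simp only [r, this]
  choose κ hκ using hr
  refine ⟨fun x => χ (κ x), fun k x => ?_⟩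
  show χ (κ (k +ᵥ x)) = χ k + χ (κ x)
  rw [← map_add]
  congr 1
  have h1 := hκ (k +ᵥ x)
  rw [hrk] at h1
  have h2 : (-(k + κ x) + κ (k +ᵥ x)) +ᵥ r x = r x := by
    rw [add_vadd, h1, ← add_vadd]
    have h3 : (-(k + κ x) + k) +ᵥ (κ x +ᵥ r x) = r x := by
      rw [← add_vadd]
      have : -(k + κ x) + k + κ x = 0 := by abel
      rw [this, zero_vadd]
    rwa [hκ] at h3
  have h4 := free _ _ h2
  have : κ (k +ᵥ x) = (k + κ x) + (-(k + κ x) + κ (k +ᵥ x)) := by abel
  rw [this, h4, add_zero]

/-- An assignment of half-edge indices to the labels: `J (l, 0)` is the centre, `J (l, 1)` and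
`J (l, 2)` are the two halves of the pair factor. -/
theorem exists_J {L : Type} [Finite L] {m : ℕ} (hm : 3 * Nat.card L ≤ 2 * m) :
    ∃ (c : L → Fin m) (ctr : L → Fin m × Bool), Function.Injective c ∧ Function.Injective ctr ∧
      ∀ l l', (ctr l).1 ≠ c l' := by
  let e := Finite.equivFin L
  set n := Nat.card L with hn
  refine ⟨fun l => ⟨(e l : ℕ), by have := (e l).2; omega⟩,
    fun l => (⟨n + (e l : ℕ) / 2, by have := (e l).2; omega⟩, decide ((e l : ℕ) % 2 = 0)),
    ?_, ?_, ?_⟩
  · intro l l' h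
    simp only [Fin.mk.injEq] at h
    exact e.injective (Fin.ext h)
  · intro l l' h
    simp only [Prod.mk.injEq, Fin.mk.injEq, decide_eq_decide] at h
    apply e.injective
    apply Fin.ext
    omega
  · intro l l' h
    simp only [Fin.mk.injEq] at h
    have := (e l').2
    omega

theorem zcases (j : ZMod 3) : j = 0 ∨ j = 1 ∨ j = 2 := by
  revert j
  decide

end Three

open Three in
theorem step_three {K : Type} [AddCommGroup K] [Finite K] (K' : AddSubgroup K)
    (hK : K'.index = 3) {L : Type} [Finite L] (a : L → K) (h : ∀ l, a l ∉ K') {m : ℕ}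
    (hm : 3 * Nat.card L ≤ 2 * m) (B : Bundle K m) : StepSol K' B a := by
  classical
  obtain ⟨χ, hχ⟩ := exists_chi K' hK
  obtain ⟨z, hz⟩ := exists_z (V := B.V) B.free χ
  obtain ⟨F, hFK, hFι, hF⟩ := exists_factorization B
  obtain ⟨c, ctr, hc, hctr, hcc⟩ := exists_J hm
  have hχa : ∀ l, χ (a l) ≠ 0 := fun l h0 => h l ((hχ _).1 h0)
  -- the half-edge of a given index over a given point
  let hf : B.V → Fin m × Bool → B.H := fun x q => (hF x q).choose
  have hf1 : ∀ x q, B.v (hf x q) = x := fun x q => (hF x q).choose_spec.1.1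
  have hf2 : ∀ x q, F (hf x q) = q := fun x q => (hF x q).choose_spec.1.2
  have hf3 : ∀ h, hf (B.v h) (F h) = h := fun h =>
    ((hF (B.v h) (F h)).choose_spec.2 h ⟨rfl, rfl⟩).symm
  have hfK : ∀ (k : K) x q, hf (k +ᵥ x) q = k +ᵥ hf x q := by
    intro k x q
    have h1 := hf3 (k +ᵥ hf x q)
    rw [B.v_vadd, hFK, hf1, hf2] at h1
    exact h1
  -- the offset along an edge
  let g : B.H → ZMod 3 := fun h => z (B.v (B.ι h)) - z (B.v h)
  have hgK : ∀ (k : K) h, g (k +ᵥ h) = g h := by
    intro k h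
    simp only [g, B.ι_vadd, B.v_vadd, hz]
    ring
  have hgι : ∀ h, g (B.ι h) = - g h := by
    intro h
    simp only [g, B.ι_ι]
    ring
  -- the centres
  let u : L → B.V → ZMod 3 := fun l x =>
    if (ctr l).2 then 0 else 1 - g (hf x (ctr l))
  have huK : ∀ l (k : K) x, u l (k +ᵥ x) = u l x := by
    intro l k x
    simp only [u, hfK, hgK]
  -- the pair factors
  let σ : L → B.V → B.V := fun l x => B.v (B.ι (hf x (c l, true)))
  have hσK : ∀ l (k : K) x, σ l (k +ᵥ x) = k +ᵥ σ l x := by
    intro l k x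
    simp only [σ, hfK, B.ι_vadd, B.v_vadd]
  let d : L → B.V → ZMod 3 := fun l x => u l x + g (hf x (c l, true)) - u l (σ l x)
  have hdK : ∀ l (k : K) x, d l (k +ᵥ x) = d l x := by
    intro l k x
    simp only [d, hfK, hgK, huK, hσK]
  have hitK : ∀ l (k : K) n x, (σ l)^[n] (k +ᵥ x) = k +ᵥ (σ l)^[n] x := by
    intro l k n
    induction n with
    | zero => intro x; rfl
    | succ n ih => intro x; rw [Function.iterate_succ_apply, hσK, ih, Function.iterate_succ_apply]
  let s : L → B.V → ZMod 3 := fun l x => sgn (fun n => d l ((σ l)^[n] x))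
  have hsK : ∀ l (k : K) x, s l (k +ᵥ x) = s l x := by
    intro l k x
    simp only [s, hitK, hdK]
  have hs0 : ∀ l x, s l x ≠ 0 := fun l x => sgn_ne _
  have hsd : ∀ l x, d l x + s l x + s l (σ l x) ≠ 0 := by
    intro l x
    have := sgn_cycle (fun n => d l ((σ l)^[n] x))
    simpa [s, Function.iterate_succ_apply] using this
  -- the missing value of a half-edge index for a label
  let J : L → ZMod 3 → Fin m × Bool := fun l j =>
    if j = 0 then ctr l else (c l, decide (j = 1))
  have hJ : ∀ l j l' j', J l j = J l' j' → l = l' ∧ j = j' := by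
    intro l j l' j' he
    rcases zcases j with rfl | rfl | rfl <;> rcases zcases j' with rfl | rfl | rfl
    · exact ⟨hctr (by simpa [J] using he), rfl⟩
    · exact absurd (congrArg Prod.fst he) (by simpa [J] using hcc l l')
    · exact absurd (congrArg Prod.fst he) (by
        have : (2 : ZMod 3) ≠ 0 := by decide
        simpa [J, this] using hcc l l')
    · exact absurd (congrArg Prod.fst he).symm (by simpa [J] using hcc l' l)
    · exact ⟨hc (by simpa [J] using he), rfl⟩
    · exact absurd (congrArg Prod.snd he) (by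
        have h2 : (2 : ZMod 3) ≠ 0 := by decide
        have h3 : (2 : ZMod 3) ≠ 1 := by decide
        simp [J, h2, h3])
    · exact absurd (congrArg Prod.fst he).symm (by
        have : (2 : ZMod 3) ≠ 0 := by decide
        simpa [J, this] using hcc l' l)
    · exact absurd (congrArg Prod.snd he) (by
        have h2 : (2 : ZMod 3) ≠ 0 := by decide
        have h3 : (2 : ZMod 3) ≠ 1 := by decide
        simp [J, h2, h3])
    · have h2 : (2 : ZMod 3) ≠ 0 := by decide
      exact ⟨hc (by simpa [J, h2] using he), rfl⟩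
  -- the missing value, as a relation
  let w : L → ZMod 3 → B.V → ZMod 3 := fun l j x => u l x + j * s l x
  have hwK : ∀ l j (k : K) x, w l j (k +ᵥ x) = w l j x := by
    intro l j k x
    simp only [w, huK, hsK]
  have hcompat : ∀ (h : B.H) l j l' j', F h = J l j → F (B.ι h) = J l' j' →
      w l' j' (B.v (B.ι h)) ≠ w l j (B.v h) + g h := by
    intro h l j l' j' h1 h2
    rw [hFι, h1] at h2
    have h3 : (3 : ZMod 3) = 0 := by decide
    have hh1 : hf (B.v h) (J l j) = h := by rw [← h1]; exact hf3 h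
    have hh2 : hf (B.v (B.ι h)) (J l' j') = B.ι h := by
      rw [← h2, ← h1, ← hFι]
      exact hf3 _
    have h20 : (2 : ZMod 3) ≠ 0 := by decide
    have h21 : (2 : ZMod 3) ≠ 1 := by decide
    rcases zcases j with rfl | rfl | rfl
    · have hj' : j' = 0 := by
        by_contra hj'
        exact hcc l l' (by simpa [J, hj'] using congrArg Prod.fst h2)
      subst hj'
      have e2 : (ctr l').2 = !(ctr l).2 := by
        have := congrArg Prod.snd h2
        simpa [J] using this.symm
      have hh1' : hf (B.v h) (ctr l) = h := by simpa [J] using hh1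
      have hh2' : hf (B.v (B.ι h)) (ctr l') = B.ι h := by simpa [J] using hh2
      intro he
      simp only [w, zero_mul, add_zero, u, hh1', hh2', e2, hgι] at he
      cases hb : (ctr l).2
      · rw [hb] at he
        simp only [Bool.not_false, if_true, Bool.false_eq_true, if_false] at he
        exact one_ne_zero (α := ZMod 3) (by linear_combination -he)
      · rw [hb] at he
        simp only [Bool.not_true, if_true, Bool.false_eq_true, if_false] at he
        exact one_ne_zero (α := ZMod 3) (by linear_combination he)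
    · have e1 : J l 2 = J l' j' := by
        rw [← h2]
        simp [J, h20, h21]
      obtain ⟨rfl, rfl⟩ := hJ _ _ _ _ e1
      have hh1' : hf (B.v h) (c l, true) = h := by simpa [J] using hh1
      have h4 := hsd l (B.v h)
      intro he
      apply h4
      have h5 : σ l (B.v h) = B.v (B.ι h) := by simp only [σ, hh1']
      simp only [d, h5, hh1']
      simp only [w] at he
      linear_combination -he + h3 * s l (B.v (B.ι h))
    · have e1 : J l 1 = J l' j' := by
        rw [← h2]
        simp [J, h20, h21]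
      obtain ⟨rfl, rfl⟩ := hJ _ _ _ _ e1
      have hh2' : hf (B.v (B.ι h)) (c l, true) = B.ι h := by simpa [J] using hh2
      have h4 := hsd l (B.v (B.ι h))
      intro he
      apply h4
      have h5 : σ l (B.v (B.ι h)) = B.v h := by simp only [σ, hh2', B.ι_ι]
      simp only [d, h5, hh2', hgι]
      simp only [w] at he
      linear_combination he + h3 * s l (B.v h)
  -- the labelling
  let sg : Bool → L → ZMod 3 := fun β l => if β then χ (a l) else - χ (a l)
  have hsg : ∀ β l, χ (if β then a l else -a l) = sg β l := by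
    intro β l
    cases β <;> simp [sg]
  have hsgn : ∀ β l, sg (!β) l = - sg β l := by
    intro β l
    cases β <;> simp [sg]
  have hsg0 : ∀ β l, sg β l ≠ 0 := by
    intro β l
    cases β
    · simpa [sg] using hχa l
    · simpa [sg] using hχa l
  have h3 : (3 : ZMod 3) = 0 := by decide
  let P : B.H → L × Bool → Prop := fun h p =>
    ∃ j, F h = J p.1 j ∧ z (B.v h) = w p.1 j (B.v h) + sg p.2 p.1
  have hPu : ∀ h p p', P h p → P h p' → p = p' := by
    rintro h ⟨l, β⟩ ⟨l', β'⟩ ⟨j, h1, h2⟩ ⟨j', h1', h2'⟩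
    obtain ⟨rfl, rfl⟩ := hJ _ _ _ _ (h1.symm.trans h1')
    rw [h2] at h2'
    have h4 : sg β l = sg β' l := add_left_cancel h2'
    have h5 : ∀ x : ZMod 3, x ≠ 0 → x ≠ -x := by decide
    cases β <;> cases β'
    · rfl
    · exact absurd h4.symm (by simpa [sg] using h5 _ (hχa l))
    · exact absurd h4 (by simpa [sg] using h5 _ (hχa l))
    · rfl
  let lab : B.H → Option (L × Bool) := fun h => if hh : ∃ p, P h p then some hh.choose else none
  have hlab : ∀ h p, lab h = some p ↔ P h p := by
    intro h p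
    constructor
    · intro hl
      by_cases hh : ∃ p, P h p
      · simp only [lab, dif_pos hh, Option.some.injEq] at hl
        rw [← hl]
        exact hh.choose_spec
      · rw [show lab h = none from dif_neg hh] at hl
        exact absurd hl (by simp)
    · intro hp
      have hh : ∃ p, P h p := ⟨p, hp⟩
      simp only [lab, dif_pos hh, Option.some.injEq]
      exact hPu _ _ _ hh.choose_spec hp
  have hPst : ∀ h l β, P h (l, β) → P (st a (l, β) h) (l, !β) := by
    rintro h l β ⟨j, h1, h2⟩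
    refine ⟨j, by rw [st, hFK]; exact h1, ?_⟩
    simp only [st, B.v_vadd, hz, hwK, hsg, hsgn] at h2 ⊢
    rw [h2]
    linear_combination (sg β l) * h3
  have hstep : ∀ h l β j, P h (l, β) → F h = J l j →
      z (B.v (st a (l, β) h)) ≠ w l j (B.v h) ∧ z (B.v (st a (l, β) h)) ≠ z (B.v h) ∧
        z (B.v h) ≠ w l j (B.v h) := by
    rintro h l β j ⟨j', h1, h2⟩ h4
    obtain ⟨-, rfl⟩ := hJ _ _ _ _ (h1.symm.trans h4)
    simp only at h2
    simp only [st, B.v_vadd, hz, hsg]
    rw [h2]
    have h0 := hsg0 β l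
    refine ⟨fun he => ?_, fun he => h0 ?_, fun he => h0 ?_⟩
    · exact two_mul_ne _ h0 (by linear_combination he)
    · linear_combination he
    · linear_combination he
  have four : ∀ p1 p2 p3 p4 : ZMod 3, p1 ≠ p2 → p1 ≠ p3 → p2 ≠ p3 → p4 ≠ p1 → p4 ≠ p2 → p4 ≠ p3 →
      False := by decide
  refine ⟨⟨lab, ?_, ?_, ?_⟩, ?_⟩
  · intro h l β hl
    rw [hlab] at hl ⊢
    exact hPst h l β hl
  · rintro x ⟨l, β⟩
    have hs2 : s l x * s l x = 1 := by
      have : ∀ y : ZMod 3, y ≠ 0 → y * y = 1 := by decide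
      exact this _ (hs0 l x)
    refine ⟨hf x (J l ((z x - u l x - sg β l) * s l x)), ⟨hf1 _ _, (hlab _ _).2
      ⟨_, hf2 _ _, ?_⟩⟩, ?_⟩
    · simp only [hf1, w]
      linear_combination (-(z x - u l x - sg β l)) * hs2
    · rintro h' ⟨rfl, hl⟩
      obtain ⟨j, h1, h2⟩ := (hlab _ _).1 hl
      simp only [w] at h1 h2
      have : j = (z (B.v h') - u l (B.v h') - sg β l) * s l (B.v h') := by
        rw [h2]
        linear_combination (-j) * hs2
      rw [← this, ← h1]
      exact (hf3 h').symm
  · refine ⟨fun x => Acc.intro _ fun y hy => Acc.intro _ fun y2 hy2 => Acc.intro _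
      fun y3 hy3 => ?_⟩
    exfalso
    obtain ⟨⟨l, β⟩, hl, rfl⟩ := hy
    obtain ⟨⟨l2, β2⟩, hl2, rfl⟩ := hy2
    obtain ⟨⟨l3, β3⟩, hl3, rfl⟩ := hy3
    rw [hlab] at hl hl2 hl3
    obtain ⟨j, h1, h2⟩ := hl
    obtain ⟨j2, h21, h22⟩ := hl2
    obtain ⟨j3, h31, h32⟩ := hl3
    simp only at h1 h2 h21 h22 h31 h32
    have e2 : F x = J l2 j2 := by
      rw [← h21]
      simp only [st, B.ι_vadd, B.ι_ι, hFK]
    have e3 : J l3 j3 = J l j := by
      rw [← h31, ← h1]
      simp only [st, B.ι_vadd, B.ι_ι, hFK]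
    obtain ⟨rfl, rfl⟩ := hJ _ _ _ _ e3
    have c1 := hcompat x l2 j2 l3 j3 e2 h1
    obtain ⟨s1, s2, s3⟩ := hstep (B.ι x) l3 β j3 ⟨j3, h1, h2⟩ h1
    obtain ⟨t1, t2, t3⟩ := hstep _ l2 β2 j2 ⟨j2, h21, h22⟩ h21
    obtain ⟨-, -, r3⟩ := hstep _ l3 β3 j3 ⟨j3, h31, h32⟩ h31
    have gx : g x = z (B.v (B.ι x)) - z (B.v x) := rfl
    simp only [st, B.ι_vadd, B.ι_ι, B.v_vadd, hz, hwK] at s1 s2 s3 t1 t2 t3 r3
    set A1 := χ (if β then a l3 else -a l3) with hA1
    set A2 := χ (if β2 then a l2 else -a l2) with hA2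
    apply four (w l2 j2 (B.v x) + g x) (A1 + z (B.v (B.ι x))) (w l3 j3 (B.v (B.ι x)))
      (A2 + (A1 + z (B.v x)) + g x)
    · intro he
      apply t3
      rw [gx] at he
      linear_combination -he
    · exact fun he => c1 he.symm
    · exact s1
    · intro he
      apply t1
      linear_combination he
    · intro he
      apply t2
      rw [gx] at he
      linear_combination he
    · intro he
      apply r3
      rw [gx] at he
      linear_combination he
  · intro k hk h
    have hk0 : χ k = 0 := (hχ k).2 hk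
    have hP : ∀ p, P (k +ᵥ h) p ↔ P h p := by
      intro p
      simp only [P, hFK, B.v_vadd, hz, hwK, hk0, zero_add]
    show lab (k +ᵥ h) = lab h
    cases hl : lab h with
    | none =>
      by_contra hne
      obtain ⟨p, hp⟩ := Option.ne_none_iff_exists'.1 hne
      have := (hlab _ _).2 ((hP p).1 ((hlab _ _).1 hp))
      rw [hl] at this
      exact absurd this (by simp)
    | some p =>
      exact (hlab _ _).2 ((hP p).2 ((hlab _ _).1 hl))

end Pool.Agent.Helper43.LA
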