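import Pool.Agent.Helper43.LA.Defs
import Pool.Agent.Helper39.HD.Orient

namespace Pool.Agent.Helper43.LA

open Equiv Pool.Agent.Helper39.HD

/-! ### LA-TOP: from bundles to forest data -/

namespace Top

/-- the complete bundle over one torsor -/
def tB (K : Type) [AddCommGroup K] [Finite K] (m : ℕ) : Bundle K m where
  H := K × (Fin m × Bool)
  V := K
  actH :=
    { vadd := fun k h => (k + h.1, h.2)
      zero_vadd := fun h => Prod.ext (zero_add _) rfl
      add_vadd := fun k k' h => Prod.ext (add_assoc _ _ _) rfl }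
  v := Prod.fst
  ι := fun h => (h.1, (h.2.1, !h.2.2))
  v_vadd := fun _ _ => rfl
  ι_vadd := fun _ _ => rfl
  ι_ι := fun h => by simp
  ι_ne := fun k h e => by
    have h2 : (!h.2.2) = h.2.2 := congrArg (fun e : K × (Fin m × Bool) => e.2.2) e
    cases h3 : h.2.2 <;> rw [h3] at h2 <;> simp at h2
  free := fun k x e => by
    have h2 : k + x = x := e
    simpa using h2
  card := fun x => by
    have e : {h : K × (Fin m × Bool) // h.1 = x} ≃ Fin m × Bool :=
      { toFun := fun h => h.1.2
        invFun := fun q => ⟨(x, q), rfl⟩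
        left_inv := by rintro ⟨⟨y, q⟩, rfl⟩; rfl
        right_inv := fun q => rfl }
    rw [Nat.card_congr e, Nat.card_prod]
    simp [mul_comm]

lemma vadd_def {K : Type} [AddCommGroup K] [Finite K] (m : ℕ) (k : K) (h : (tB K m).H) :
    k +ᵥ h = ((k + h.1, h.2) : K × (Fin m × Bool)) := rfl

lemma exists_invol {U : Type*} (hU : Nat.card U = 2) :
    ∃ τ : U → U, (∀ u, τ (τ u) = u) ∧ (∀ u, τ u ≠ u) ∧ ∀ u u', u' ≠ u → u' = τ u := by
  have : Finite U := Nat.finite_of_card_ne_zero (by rw [hU]; decide)
  have e : U ≃ Fin 2 := Finite.equivFinOfCardEq hU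
  have hr : ∀ i : Fin 2, (1 - i) ≠ i := by decide
  have hr2 : ∀ i : Fin 2, 1 - (1 - i) = i := by decide
  have hr3 : ∀ i j : Fin 2, j ≠ i → j = 1 - i := by decide
  refine ⟨fun u => e.symm (1 - e u), ?_, ?_, ?_⟩
  · intro u
    simp only [Equiv.apply_symm_apply, hr2, Equiv.symm_apply_apply]
  · intro u hu
    apply hr (e u)
    have := congrArg e hu
    simpa only [Equiv.apply_symm_apply] using this
  · intro u u' hu
    rw [Equiv.eq_symm_apply]
    exact hr3 _ _ fun h => hu (e.injective h)

end Top

theorem hasFD_of_GS {K : Type} [AddCommGroup K] [Finite K] {L : Type} [Finite L] (a : L → K)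
    (h : GS K a) : HasFD K a := by
  classical
  set n := Nat.card L with hn
  obtain ⟨S⟩ := h (Top.tB K (n + 1))
  let Q := Fin (n + 1) × Bool
  let lab : K × Q → Option (L × Bool) := S.lab
  let sg : L × Bool → K := fun p => if p.2 then a p.1 else -a p.1
  have sg_not : ∀ l β, sg (l, !β) = -sg (l, β) := by
    rintro l (_ | _) <;> simp [sg]
  let stf : L × Bool → K × Q → K × Q := fun p h => (sg p + h.1, h.2)
  have sinv : ∀ h l β, lab h = some (l, β) → lab (stf (l, β) h) = some (l, !β) := S.inv
  have sdart : ∀ (x : K) (p : L × Bool), ∃! h : K × Q, h.1 = x ∧ lab h = some p := S.dart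
  have sacyc : WellFounded (fun y x : K × Q => ∃ p, lab (x.1, (x.2.1, !x.2.2)) = some p ∧
      y = stf p (x.1, (x.2.1, !x.2.2))) := S.acyc
  have stf_stf : ∀ l β h, stf (l, !β) (stf (l, β) h) = h := by
    intro l β h
    refine Prod.ext ?_ rfl
    change sg (l, !β) + (sg (l, β) + h.1) = h.1
    rw [sg_not]; abel
  have stf_ne : ∀ h p, lab h = some p → stf p h ≠ h := by
    rintro h ⟨l, β⟩ h1 h2
    have h3 := sinv h l β h1
    rw [h2, h1] at h3
    have h4 : β = !β := congrArg Prod.snd (Option.some.inj h3)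
    cases β <;> simp at h4
  -- two unlabelled half-edges at every point
  let U : K → Type := fun x => {q : Q // lab (x, q) = none}
  have cardU : ∀ x, Nat.card (U x) = 2 := by
    intro x
    have e : {q : Q // lab (x, q) ≠ none} ≃ L × Bool := by
      refine Equiv.ofBijective (fun q => (lab (x, q.1)).get (Option.ne_none_iff_isSome.1 q.2)) ⟨?_, ?_⟩
      · rintro ⟨q, hq⟩ ⟨q', hq'⟩ he
        apply Subtype.ext
        change q = q'
        obtain ⟨p, hp⟩ := Option.ne_none_iff_exists'.1 hq
        obtain ⟨p', hp'⟩ := Option.ne_none_iff_exists'.1 hq'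
        have hpp : p = p' := by simpa [hp, hp'] using he
        subst hpp
        have := (sdart x p).unique (y₁ := (x, q)) (y₂ := (x, q')) ⟨rfl, hp⟩ ⟨rfl, hp'⟩
        exact congrArg Prod.snd this
      · intro p
        obtain ⟨⟨y, q⟩, ⟨h1, h2⟩, -⟩ := sdart x p
        change y = x at h1
        subst h1
        refine ⟨⟨q, by rw [h2]; simp⟩, ?_⟩
        simp [h2]
    have h1 : Nat.card {q : Q // lab (x, q) = none} + Nat.card {q : Q // ¬ lab (x, q) = none} =
        Nat.card Q := by
      rw [← Nat.card_sum]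
      exact Nat.card_congr (Equiv.sumCompl _)
    have h2 : Nat.card {q : Q // ¬ lab (x, q) = none} = Nat.card (L × Bool) := Nat.card_congr e
    rw [h2, Nat.card_prod, Nat.card_prod] at h1
    have h3 : Nat.card (Fin (n + 1)) = n + 1 := by simp
    have h4 : Nat.card Bool = 2 := by simp
    rw [h3, h4, ← hn] at h1
    change Nat.card {q : Q // lab (x, q) = none} = 2
    omega
  choose τ τ1 τ2 τ3 using fun x => Top.exists_invol (cardU x)
  -- the matching
  let M : K × Q → K × Q := fun h => match e : lab h with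
    | some p => stf p h
    | none => (h.1, (τ h.1 ⟨h.2, e⟩).1)
  have M_some : ∀ h p, lab h = some p → M h = stf p h := by
    intro h p hp
    simp only [M]
    split
    · next p' h' =>
      rw [hp] at h'
      rw [Option.some.inj h']
    · next h' => rw [hp] at h'; simp at h'
  have M_none : ∀ h (e : lab h = none), M h = (h.1, (τ h.1 ⟨h.2, e⟩).1) := by
    intro h e
    simp only [M]
    split
    · next p' h' => rw [e] at h'; simp at h'
    · rfl
  have MM : ∀ h, M (M h) = h := by
    intro h
    cases e : lab h with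
    | some p =>
      obtain ⟨l, β⟩ := p
      rw [M_some h _ e, M_some _ _ (sinv h l β e), stf_stf]
    | none =>
      have e2 : lab (M h) = none := by rw [M_none h e]; exact (τ h.1 ⟨h.2, e⟩).2
      rw [M_none _ e2]
      have e3 : ∀ (h' : K × Q) (e' : lab h' = none), h' = (h.1, (τ h.1 ⟨h.2, e⟩).1) →
          (h'.1, (τ h'.1 ⟨h'.2, e'⟩).1) = h := by
        rintro h' e' rfl
        change (h.1, (τ h.1 (τ h.1 ⟨h.2, e⟩)).1) = h
        rw [τ1]
      exact e3 _ e2 (M_none h e)
  have M_ne : ∀ h, M h ≠ h := by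
    intro h
    cases e : lab h with
    | some p => rw [M_some h _ e]; exact stf_ne h p e
    | none =>
      rw [M_none h e]
      intro h2
      have h3 : (τ h.1 ⟨h.2, e⟩).1 = h.2 := congrArg Prod.snd h2
      exact τ2 h.1 ⟨h.2, e⟩ (Subtype.ext h3)
  let ι : K × Q → K × Q := fun h => (h.1, (h.2.1, !h.2.2))
  have ιι : ∀ h, ι (ι h) = h := fun h => by simp [ι]
  have ι_ne : ∀ h, ι h ≠ h := by
    intro h e
    have h2 : (!h.2.2) = h.2.2 := congrArg (fun e : K × Q => e.2.2) e
    cases h3 : h.2.2 <;> rw [h3] at h2 <;> simp at h2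
  obtain ⟨o, oι, oM⟩ := Orient.orient_two (Function.Involutive.toPerm ι ιι)
    (Function.Involutive.toPerm M MM) (Equiv.ext ιι) (Equiv.ext MM) ι_ne M_ne
  have oι' : ∀ h, o (ι h) = !o h := oι
  have oM' : ∀ h, o (M h) = !o h := oM
  -- the half-edge of class `c` at `x` with orientation `γ`
  let hf : Bool → Fin (n + 1) → K → K × Q := fun γ c x => (x, (c, (o (x, (c, true)) == γ)))
  have hf_fst : ∀ γ c x, (hf γ c x).1 = x := fun _ _ _ => rfl
  have hf_uniq : ∀ γ (h : K × Q), o h = γ ↔ h = hf γ h.2.1 h.1 := by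
    rintro γ ⟨x, c, β⟩
    change o (x, (c, β)) = γ ↔ (x, (c, β)) = (x, (c, (o (x, (c, true)) == γ)))
    have h1 := oι' (x, (c, true))
    change o (x, (c, false)) = _ at h1
    simp only [Prod.mk.injEq, true_and]
    cases β
    · rw [h1]
      cases o (x, (c, true)) <;> cases γ <;> decide
    · cases o (x, (c, true)) <;> cases γ <;> decide
  have hf_o : ∀ γ c x, o (hf γ c x) = γ := fun γ c x => (hf_uniq γ (hf γ c x)).2 rfl
  have hf_ι : ∀ γ c x, ι (hf γ c x) = hf (!γ) c x := by
    intro γ c x
    exact (hf_uniq (!γ) (ι (hf γ c x))).1 (by rw [oι', hf_o])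
  have hf_stf : ∀ γ c x p, lab (hf γ c x) = some p →
      stf p (hf γ c x) = hf (!γ) c (sg p + x) := by
    intro γ c x p hp
    refine (hf_uniq (!γ) _).1 ?_
    rw [← M_some _ _ hp, oM', hf_o]
  let act : L → Perm K := fun l => Equiv.addRight (a l)
  have stp_eq : ∀ p x, stp act p x = sg p + x := by
    rintro ⟨l, β⟩ x
    cases β
    · change (Equiv.addRight (a l))⁻¹ x = -a l + x
      rw [Perm.inv_eq_iff_eq]
      change x = -a l + x + a l
      abel
    · change x + a l = a l + x
      abel
  let sel : Bool → Fin (n + 1) → K → Option (L × Bool) := fun γ c x => lab (hf γ c x)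
  have sel_inv : ∀ γ c x l β, sel γ c x = some (l, β) →
      sel (!γ) c (stp act (l, β) x) = some (l, !β) := by
    intro γ c x l β h1
    change lab (hf (!γ) c (stp act (l, β) x)) = _
    rw [stp_eq, ← hf_stf γ c x _ h1]
    exact sinv _ l β h1
  have stp_stp : ∀ l β x, stp act (l, !β) (stp act (l, β) x) = x := by
    intro l β x
    rw [stp_eq, stp_eq, sg_not]; abel
  have sel_none : ∀ γ x, ∃! c, sel γ c x = none := by
    intro γ x
    have hne : Nonempty (U x) := by
      have : 0 < Nat.card (U x) := by rw [cardU]; decide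
      exact (Nat.card_pos_iff.1 this).1
    obtain ⟨u⟩ := hne
    have hτo : ∀ u : U x, o (x, (τ x u).1) = !o (x, u.1) := by
      intro u
      have h1 := M_none (x, u.1) u.2
      have h2 : M (x, u.1) = (x, (τ x u).1) := h1
      rw [← h2, oM']
    obtain ⟨w, hw⟩ : ∃ w : U x, o (x, w.1) = γ := by
      by_cases h1 : o (x, u.1) = γ
      · exact ⟨u, h1⟩
      · refine ⟨τ x u, ?_⟩
        rw [hτo]
        have h2 : ∀ b g : Bool, ¬ b = g → (!b) = g := by decide
        exact h2 _ _ h1
    have hw2 := (hf_uniq γ _).1 hw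
    refine ⟨w.1.1, ?_, ?_⟩
    · change lab (hf γ w.1.1 x) = none
      have h3 : (x, w.1) = hf γ w.1.1 x := hw2
      rw [← h3]; exact w.2
    · intro c hc
      change lab (hf γ c x) = none at hc
      let w' : U x := ⟨(hf γ c x).2, hc⟩
      have h4 : w' = w := by
        by_contra hne
        have h5 := τ3 x w w' hne
        have h6 := hτo w
        rw [← h5, hw] at h6
        have h7 : o (x, w'.1) = γ := hf_o γ c x
        rw [h7] at h6
        cases γ <;> simp at h6
      have h8 : w'.1.1 = w.1.1 := by rw [h4]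
      exact h8
  have wf : ∀ γ c, WellFounded (fun y x => ∃ l, sel γ c x = some l ∧ y = stp act l x) := by
    intro γ c
    refine Subrelation.wf (r := InvImage _ (fun x => hf (!γ) c x)) ?_ (InvImage.wf _ sacyc)
    rintro y x ⟨p, hp, rfl⟩
    change ∃ p, lab (ι (hf (!γ) c x)) = some p ∧ hf (!γ) c (stp act _ x) = stf p (ι (hf (!γ) c x))
    rw [hf_ι, Bool.not_not]
    exact ⟨p, hp, by rw [stp_eq, hf_stf γ c x p hp]⟩
  refine ⟨Fin (n + 1), inferInstance, ⟨{
    nx := sel true
    pv := sel false
    inv := ?_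
    dart := ?_
    nx_none := sel_none true
    pv_none := sel_none false
    wf_nx := wf true
    wf_pv := wf false }⟩⟩
  · intro c x l β
    constructor
    · exact sel_inv true c x l β
    · intro h1
      have h2 := sel_inv false c _ l (!β) h1
      have h3 := stp_stp l β x
      change sel true c (stp act (l, !β) (stp act (l, β) x)) = some (l, !!β) at h2
      rw [h3, Bool.not_not] at h2
      exact h2
  · intro x p
    obtain ⟨⟨y, q⟩, ⟨h1, h2⟩, h3⟩ := sdart x p
    change y = x at h1
    subst h1
    have hsel : ∀ r : Fin (n + 1) × Bool, (if r.2 then sel true r.1 y else sel false r.1 y) =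
        lab (hf r.2 r.1 y) := by
      rintro ⟨c, _ | _⟩ <;> rfl
    refine ⟨(q.1, o (y, q)), ?_, ?_⟩
    · change (if (o (y, q)) then _ else _) = _
      rw [hsel (q.1, o (y, q))]
      have := (hf_uniq (o (y, q)) (y, q)).1 rfl
      change (y, q) = hf (o (y, q)) q.1 y at this
      change lab (hf (o (y, q)) q.1 y) = some p
      rw [← this]
      exact h2
    · rintro ⟨c, γ⟩ hc
      rw [hsel (c, γ)] at hc
      change lab (hf γ c y) = some p at hc
      have h4 := h3 (hf γ c y) ⟨rfl, hc⟩
      have h5 : c = q.1 := congrArg (fun e : K × Q => e.2.1) h4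
      have h6 : γ = o (y, q) := by rw [← h4, hf_o]
      rw [h5, h6]

end Pool.Agent.Helper43.LA
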