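import Pool.Agent.Helper43.LA.Merge
import Pool.Agent.Helper43.LA.Top
import Pool.Agent.Helper43.LA.Reduce
import Pool.Agent.Helper43.LA.Alpha
import Pool.Agent.Helper43.LA.Three
import Pool.Agent.Helper43.LA.Hyper
import Pool.Agent.Helper43.LA.Gen
import Pool.Agent.Helper43.LA.Long
import Pool.Agent.Helper39.HD.Blocks

/-!
# Relabelling, and the steps of a ladder
-/

namespace Pool.Agent.Helper43.LA

open Equiv Pool.Agent.Helper39.HD

theorem HasFD.comap {T T' : Type} [AddCommGroup T] [AddCommGroup T'] {L L' : Type} {a : L → T}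
    {a' : L' → T'} (h : HasFD T a) (π : T' → T) (e : L' ≃ L)
    (hπ : ∀ l y, π (y + a' l) = π y + a (e l)) : HasFD T' a' := by
  obtain ⟨C, hC, ⟨D⟩⟩ := h
  exact ⟨C, hC, ⟨ForestData.pullback (act := fun l => Equiv.addRight (a l))
    (act' := fun l => Equiv.addRight (a' l)) π e (fun l y => hπ l y) D⟩⟩

theorem HasFD.of_subgroup {T : Type} [AddCommGroup T] (H : AddSubgroup T) {L : Type} {a : L → H}
    (h : HasFD H a) : HasFD T (fun l => (a l : T)) := by
  obtain ⟨π, -, hπ⟩ := exists_proj (Γ := T) ⊥ H (fun x hx _ => by simpa using hx)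
  exact h.comap π (Equiv.refl _) (fun l y => hπ y (a l))

theorem GS.congr_group {K K' : Type} [AddCommGroup K] [AddCommGroup K'] (φ : K ≃+ K') {L : Type}
    {a : L → K} {a' : L → K'} (ha : ∀ l, a' l = φ (a l)) (h : GS K a) : GS K' a' := by
  intro B
  letI : AddAction K B.H := AddAction.compHom B.H φ.toAddMonoidHom
  letI : AddAction K B.V := AddAction.compHom B.V φ.toAddMonoidHom
  have e1 : ∀ (k : K) (h : B.H), k +ᵥ h = φ k +ᵥ h := fun _ _ => rfl
  have e2 : ∀ (k : K) (h : B.V), k +ᵥ h = φ k +ᵥ h := fun _ _ => rfl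
  let B' : Bundle K (Nat.card L + 1) :=
    { H := B.H
      V := B.V
      v := B.v
      ι := B.ι
      v_vadd := fun k h => by rw [e1, e2, B.v_vadd]
      ι_vadd := fun k h => by rw [e1, e1, B.ι_vadd]
      ι_ι := B.ι_ι
      ι_ne := fun k h => by rw [e1]; exact B.ι_ne _ _
      free := fun k x hx => by
        rw [e2] at hx
        exact φ.map_eq_zero_iff.1 (B.free _ _ hx)
      card := B.card }
  obtain ⟨S⟩ := h B'
  have est : ∀ (p : L × Bool) (x : B.H), st a p x = st a' p x := by
    intro p x
    rcases p with ⟨l, _ | _⟩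
    · simp only [st, Bool.false_eq_true, if_false]
      rw [e1, ha, map_neg]
    · simp only [st, if_true]
      rw [e1, ha]
  exact ⟨{  lab := S.lab
            inv := fun h l β hh => by rw [← est]; exact S.inv h l β hh
            dart := S.dart
            acyc := by
              have h1 := S.acyc
              simp only [est] at h1
              exact h1 }⟩

theorem GS.congr_label {K : Type} [AddCommGroup K] {L L' : Type} (e : L' ≃ L)
    {a : L → K} {a' : L' → K} (ha : ∀ l, a' l = a (e l)) (h : GS K a) : GS K a' := by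
  unfold GS
  rw [Nat.card_congr e]
  intro B
  obtain ⟨S⟩ := h B
  have hopt : ∀ (o : Option (L × Bool)) (l : L') (β : Bool),
      o.map (fun l => (e.symm l.1, l.2)) = some (l, β) ↔ o = some (e l, β) := by
    intro o l β
    rw [Option.map_eq_some_iff]
    constructor
    · rintro ⟨⟨l', β'⟩, rfl, h⟩
      simp only [Prod.mk.injEq] at h
      rw [← h.1, ← h.2]
      simp
    · rintro rfl
      exact ⟨_, rfl, by simp⟩
  have est : ∀ (l : L') (β : Bool) (x : B.H), st a' (l, β) x = st a (e l, β) x := by
    intro l β x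
    cases β
    · simp only [st, Bool.false_eq_true, if_false]
      rw [ha]
    · simp only [st, if_true]
      rw [ha]
  exact ⟨{  lab := fun h => (S.lab h).map (fun l => (e.symm l.1, l.2))
            inv := fun h l β hh => by
              rw [hopt] at hh ⊢
              rw [est]
              exact S.inv h (e l) β hh
            dart := by
              rintro x ⟨l, β⟩
              obtain ⟨h, ⟨h1, h2⟩, hu⟩ := S.dart x (e l, β)
              refine ⟨h, ⟨h1, (hopt _ _ _).2 h2⟩, ?_⟩
              rintro h' ⟨h1', h2'⟩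
              exact hu h' ⟨h1', (hopt _ _ _).1 h2'⟩
            acyc := by
              refine Subrelation.wf ?_ S.acyc
              rintro y x ⟨⟨l, β⟩, hl, rfl⟩
              exact ⟨(e l, β), (hopt _ _ _).1 hl, est _ _ _⟩ }⟩

theorem GS.of_isEmpty {K : Type} [AddCommGroup K] {L : Type} [IsEmpty L] (a : L → K) : GS K a := by
  intro B
  exact ⟨{  lab := fun _ => none
            inv := fun _ l => isEmptyElim l
            dart := fun _ p => isEmptyElim p.1
            acyc := ⟨fun x => ⟨x, fun _ ⟨p, _, _⟩ => isEmptyElim p.1⟩⟩ }⟩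

/-- the bundle statement for the members of the family `f` which lie in the subgroup `K` -/
def GSub {G L : Type} [AddCommGroup G] (f : L → G) (K : AddSubgroup G) : Prop :=
  GS K (fun l : {l // f l ∈ K} => (⟨f l, l.2⟩ : K))

theorem gsub_step {G L : Type} [AddCommGroup G] [Finite L] (f : L → G) {K' K : AddSubgroup G}
    (hle : K' ≤ K) [Finite K] (h : GSub f K')
    (hc : Nat.card {l // f l ∈ K ∧ f l ∉ K'} ≤ Nat.card {l // f l ∈ K'} + 1 ∨
      K'.relIndex K = 3 ∧
        Nat.card {l // f l ∈ K ∧ f l ∉ K'} ≤ 2 * (Nat.card {l // f l ∈ K'} + 1)) :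
    GSub f K := by
  classical
  let K2 : AddSubgroup K := K'.addSubgroupOf K
  let L1 := {l // f l ∈ K ∧ f l ∉ K'}
  let L2 := {l // f l ∈ K'}
  let a1 : L1 → K := fun l => ⟨f l, l.2.1⟩
  let a2 : L2 → K2 := fun l => ⟨⟨f l, hle l.2⟩, AddSubgroup.mem_addSubgroupOf.2 l.2⟩
  have h1 : ∀ l, a1 l ∉ K2 := fun l hl => l.2.2 (AddSubgroup.mem_addSubgroupOf.1 hl)
  have h2 : GS K2 a2 := h.congr_group (AddSubgroup.addSubgroupOfEquivOfLe hle).symm
    (fun l => Subtype.ext (Subtype.ext rfl))
  have hstep : ∀ B : Bundle K (Nat.card L1 + Nat.card L2 + 1), StepSol K2 B a1 := by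
    intro B
    rcases hc with hc | ⟨h3, hc⟩
    · exact step_alpha K2 a1 h1 (by
        change Nat.card L1 ≤ Nat.card L2 + 1 at hc
        omega) B
    · exact step_three K2 h3 a1 h1 (by
        change Nat.card L1 ≤ 2 * (Nat.card L2 + 1) at hc
        omega) B
  have key := reduce K2 a1 a2 h1 hstep h2
  let e : {l // f l ∈ K} ≃ L1 ⊕ L2 :=
    { toFun := fun l => if hl : f l ∈ K' then Sum.inr ⟨l, hl⟩ else Sum.inl ⟨l, l.2, hl⟩
      invFun := Sum.elim (fun l => ⟨l, l.2.1⟩) (fun l => ⟨l, hle l.2⟩)
      left_inv := by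
        rintro ⟨l, hl⟩
        by_cases hl' : f l ∈ K'
        · simp [hl']
        · simp [hl']
      right_inv := by
        rintro (⟨l, hl, hl'⟩ | ⟨l, hl⟩)
        · simp [hl']
        · simp [hl] }
  refine key.congr_label e ?_
  rintro ⟨l, hl⟩
  by_cases hl' : f l ∈ K'
  · simp only [e, Equiv.coe_fn_mk, hl', dite_true, Sum.elim_inr]
    rfl
  · simp only [e, Equiv.coe_fn_mk, hl', dite_false, Sum.elim_inl]
    rfl

theorem gs_three {K : Type} [AddCommGroup K] [Finite K] (h3 : ∀ x : K, 3 • x = 0) {L : Type}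
    [Finite L] (a : L → K) (ha : Function.Injective a) (hneg : ∀ l l', a l ≠ - a l') :
    GS K a := by
  suffices H : ∀ (n : ℕ) (K : Type) [AddCommGroup K] [Finite K] (_ : ∀ x : K, 3 • x = 0)
      (L : Type) [Finite L] (a : L → K), Function.Injective a → (∀ l l', a l ≠ - a l') →
      Nat.card K = n → GS K a from H _ K h3 L a ha hneg rfl
  intro n
  induction n using Nat.strong_induction_on with
  | _ n ih =>
    intro K _ _ h3 L _ a ha hneg hn
    rcases subsingleton_or_nontrivial K with hK | hK
    · have : IsEmpty L := ⟨fun l => hneg l l (Subsingleton.elim _ _)⟩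
      exact GS.of_isEmpty a
    · obtain ⟨K', hK', hc⟩ := exists_hyperplane h3 a ha hneg
      have hlt : Nat.card K' < n := by
        rw [← hn, ← K'.card_mul_index, hK']
        have : 0 < Nat.card K' := Nat.card_pos
        omega
      have hsub : GSub a K' := by
        refine ih _ hlt K' (fun x => Subtype.ext (by simpa using h3 x)) _ _ ?_ ?_ rfl
        · intro l l' hl
          exact Subtype.ext (ha (congrArg Subtype.val hl))
        · intro l l' hl
          exact hneg l l' (by simpa using congrArg Subtype.val hl)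
      have h4 : GSub a ⊤ := by
        have : Finite (⊤ : AddSubgroup K) := Finite.of_injective _ Subtype.val_injective
        refine gsub_step a (K' := K') (K := ⊤) le_top hsub (Or.inr ⟨by simpa using hK', ?_⟩)
        have e : Nat.card {l // a l ∈ (⊤ : AddSubgroup K) ∧ a l ∉ K'} = Nat.card {l // a l ∉ K'} :=
          Nat.card_congr (Equiv.subtypeEquivRight (by simp))
        rw [e]
        exact hc
      have h5 := GS.congr_group (K' := K) AddSubgroup.topEquiv (a' := fun l => a l.1)
        (fun l => rfl) h4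
      exact h5.congr_label (Equiv.subtypeUnivEquiv (by simp)).symm (fun l => rfl)

end Pool.Agent.Helper43.LA
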